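import Mathlib

namespace Pool.Agent.Lib.MP_067a7d_co

open Complex Finset
open scoped Real Nat

/-- the residue series -/
noncomputable def S (A B : ℝ) : ℝ := ∑' j : ℕ, A ^ (j + 1) * B ^ j / ((j + 1)! * j !)

lemma summable_S (A B : ℝ) : Summable fun j : ℕ => A ^ (j + 1) * B ^ j / ((j + 1)! * j !) := by
  have h1 : Summable fun j : ℕ => |A| * (|A * B| ^ j / j !) :=
    (Real.summable_pow_div_factorial _).mul_left _
  refine Summable.of_norm_bounded h1 (fun j => ?_)
  rw [Real.norm_eq_abs, abs_div, abs_mul, abs_pow, abs_pow, abs_mul,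
    abs_of_nonneg (by positivity : (0 : ℝ) ≤ ((j + 1)! : ℝ)),
    abs_of_nonneg (by positivity : (0 : ℝ) ≤ ((j)! : ℝ))]
  have h2 : (1 : ℝ) ≤ ((j + 1)! : ℝ) := by exact_mod_cast Nat.one_le_iff_ne_zero.2 (Nat.factorial_ne_zero _)
  have h3 : (0 : ℝ) < (j ! : ℝ) := by positivity
  rw [← mul_div_assoc]
  calc |A| ^ (j + 1) * |B| ^ j / ((j + 1)! * j !) ≤ |A| ^ (j + 1) * |B| ^ j / (1 * j !) := by
        gcongr
    _ = |A| * |A * B| ^ j / j ! := by
        rw [one_mul, abs_mul, mul_pow, pow_succ]; ring

/-- the entire integrand in logarithmic coordinates -/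
noncomputable def GG (A B : ℝ) (ζ : ℂ) : ℂ :=
  Complex.exp (A * Complex.exp (-ζ) + B * Complex.exp ζ + ζ)

lemma differentiable_GG (A B : ℝ) : Differentiable ℂ (GG A B) := by
  unfold GG; fun_prop

lemma circle_GG (A B : ℝ) {r : ℝ} (hr : 0 < r) :
    ∫ t in (0 : ℝ)..(2 * π), GG A B (Real.log r + t * I) = 2 * π * S A B := by
  -- terms
  let f : ℕ → ℂ → ℂ := fun m w => (A : ℂ) ^ m / m ! * ((1 / w ^ m) * Complex.exp (B * w))
  have hcm : ∀ t : ℝ, circleMap 0 r t = Complex.exp (Real.log r + t * I) := by
    intro t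
    rw [circleMap, Complex.exp_add, ← Complex.ofReal_exp, Real.exp_log hr]; simp
  have hterm : ∀ m : ℕ, (∮ w in C(0, r), f m w)
      = if m = 0 then 0 else 2 * π * I * ((A : ℂ) ^ m * B ^ (m - 1) / (m ! * (m - 1)!)) := by
    intro m
    simp only [f]
    rw [circleIntegral.integral_const_mul]
    rcases Nat.eq_zero_or_pos m with h | h
    · subst h
      simp only [pow_zero, if_true]
      have h1 : (∮ w in C(0, r), (1 / (1 : ℂ)) * Complex.exp (B * w)) = 0 := by
        have hd : DifferentiableOn ℂ (fun w : ℂ => (1 / (1 : ℂ)) * Complex.exp (B * w))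
          (Metric.closedBall 0 r) := by fun_prop
        exact Complex.circleIntegral_eq_zero_of_differentiable_on_off_countable hr.le
          Set.countable_empty hd.continuousOn (fun z hz => by fun_prop)
      rw [h1, mul_zero]
    · obtain ⟨j, rfl⟩ : ∃ j, m = j + 1 := ⟨m - 1, by omega⟩
      have hd : DifferentiableOn ℂ (fun w : ℂ => Complex.exp (B * w))
          (Metric.closedBall 0 r) := by fun_prop
      have h1 := hd.circleIntegral_one_div_sub_center_pow_smul hr j
      simp only [sub_zero, smul_eq_mul] at h1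
      rw [h1, iteratedDeriv_cexp_const_mul]
      simp only [Nat.add_sub_cancel, Nat.add_eq_zero_iff, one_ne_zero, and_false, if_false,
        mul_zero, Complex.exp_zero, mul_one]
      ring
  have hsum : HasSum (fun m => ∮ w in C(0, r), f m w)
      (∫ t in (0 : ℝ)..(2 * π), I * GG A B (Real.log r + t * I)) := by
    unfold circleIntegral
    have hnorm : ∀ (m : ℕ) (t : ℝ), ‖deriv (circleMap 0 r) t • f m (circleMap 0 r t)‖
        ≤ r * Real.exp (|B| * r) * ((|A| / r) ^ m / m !) := by
      intro m t
      simp only [f]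
      rw [norm_smul, deriv_circleMap, norm_mul, norm_mul, norm_mul, Complex.norm_I, mul_one,
        norm_div, norm_pow, Complex.norm_natCast, norm_div, norm_pow, norm_one,
        Complex.norm_exp, Complex.norm_real, Real.norm_eq_abs]
      have h1 : ‖circleMap 0 r t‖ = r := by simp [abs_of_pos hr]
      rw [h1]
      have h2 : ((B : ℂ) * circleMap 0 r t).re ≤ |B| * r := by
        calc _ ≤ ‖(B : ℂ) * circleMap 0 r t‖ := Complex.re_le_norm _
          _ = |B| * r := by rw [norm_mul, h1, Complex.norm_real, Real.norm_eq_abs]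
      have h3 : Real.exp ((B : ℂ) * circleMap 0 r t).re ≤ Real.exp (|B| * r) :=
        Real.exp_le_exp.2 h2
      calc r * (|A| ^ m / m ! * (1 / r ^ m * Real.exp ((B : ℂ) * circleMap 0 r t).re))
          ≤ r * (|A| ^ m / m ! * (1 / r ^ m * Real.exp (|B| * r))) := by gcongr
        _ = _ := by rw [div_pow]; field_simp
    have key := intervalIntegral.hasSum_integral_of_dominated_convergence
      (μ := MeasureTheory.volume) (a := 0) (b := 2 * π)
      (F := fun m t => deriv (circleMap 0 r) t • f m (circleMap 0 r t))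
      (f := fun t => I * GG A B (Real.log r + t * I))
      (fun m _ => r * Real.exp (|B| * r) * ((|A| / r) ^ m / m !))
      (fun m => by
        have hcont : Continuous fun t : ℝ => deriv (circleMap 0 r) t • f m (circleMap 0 r t) := by
          simp only [f, deriv_circleMap]
          have hne : ∀ t : ℝ, circleMap 0 r t ^ m ≠ 0 := fun t =>
            pow_ne_zero _ (by simp [hr.ne'])
          have hc : Continuous (circleMap 0 r) := continuous_circleMap 0 r
          exact (hc.mul continuous_const).smul (continuous_const.mul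
            ((continuous_const.div (hc.pow m) hne).mul (continuous_const.mul hc).cexp))
        exact hcont.aestronglyMeasurable)
      (fun m => Filter.Eventually.of_forall fun t _ => hnorm m t)
      (Filter.Eventually.of_forall fun t _ =>
        (Real.summable_pow_div_factorial (|A| / r)).mul_left _)
      (by simp)
      (Filter.Eventually.of_forall fun t _ => by
        have h1 := NormedSpace.expSeries_div_hasSum_exp (𝔸 := ℂ) ((A : ℂ) / circleMap 0 r t)
        rw [← Complex.exp_eq_exp_ℂ] at h1
        have h2 := (h1.mul_right (Complex.exp (B * circleMap 0 r t))).mul_left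
          (deriv (circleMap 0 r) t)
        have hne : circleMap 0 r t ≠ 0 := by simp [hr.ne']
        have e1 : (fun m => deriv (circleMap 0 r) t • f m (circleMap 0 r t)) = fun i =>
            deriv (circleMap 0 r) t * ((↑A / circleMap 0 r t) ^ i / ↑i ! *
              Complex.exp (↑B * circleMap 0 r t)) := by
          ext m
          simp only [f, smul_eq_mul]
          rw [div_pow]
          field_simp
        have e2 : I * GG A B (Real.log r + t * I) = deriv (circleMap 0 r) t *
            (Complex.exp (↑A / circleMap 0 r t) * Complex.exp (↑B * circleMap 0 r t)) := by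
          rw [deriv_circleMap, hcm]
          unfold GG
          rw [Complex.exp_add, Complex.exp_add, div_eq_mul_inv, ← Complex.exp_neg]
          ring
        rw [e1, e2]
        exact h2)
    exact key
  have hval : HasSum (fun m => ∮ w in C(0, r), f m w) (2 * π * I * S A B) := by
    simp only [hterm]
    have h1 : HasSum (fun j : ℕ => (if j + 1 = 0 then 0 else
        2 * π * I * ((A : ℂ) ^ (j + 1) * B ^ (j + 1 - 1) / ((j + 1)! * (j + 1 - 1)!))))
        (2 * π * I * S A B) := by
      have h2 := (summable_S A B).hasSum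
      have h3 := (Complex.hasSum_ofReal.2 h2).mul_left (2 * π * I)
      have e1 : (fun j : ℕ => (if j + 1 = 0 then 0 else
        2 * π * I * ((A : ℂ) ^ (j + 1) * B ^ (j + 1 - 1) / ((j + 1)! * (j + 1 - 1)!)))) =
          fun i => 2 * ↑π * I * ((A ^ (i + 1) * B ^ i / ((i + 1)! * i !) : ℝ) : ℂ) := by
        ext j
        rw [if_neg (by omega)]
        push_cast
        simp
      rw [e1]
      exact h3
    have h2 := (hasSum_nat_add_iff (f := fun m : ℕ => if m = 0 then (0 : ℂ) else
      2 * π * I * ((A : ℂ) ^ m * B ^ (m - 1) / (m ! * (m - 1)!))) 1).1 h1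
    simpa using h2
  have h3 := hsum.unique hval
  rw [intervalIntegral.integral_const_mul] at h3
  have h4 : I * ∫ t in (0 : ℝ)..(2 * π), GG A B (Real.log r + t * I) = I * (2 * π * S A B) := by
    rw [h3]; ring
  exact mul_left_cancel₀ I_ne_zero h4


/-- the segment integral; `w = y - I θ` -/
noncomputable def J (A B y : ℝ) : ℂ :=
  ∫ θ in (-(Real.sqrt 8 * y))..(Real.sqrt 8 * y),
    Complex.exp (A / (y - I * θ) + B * (y - I * θ))

lemma J_bound {A B y : ℝ} (hA : 0 ≤ A) (hB : 0 ≤ B) (hy : 0 < y) :
    ‖J A B y - 2 * π * S A B‖ ≤ 6 * π * y * Real.exp (A / (9 * y) + B * y) := by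
  obtain ⟨Q, hQ⟩ := (differentiable_GG A B).isExactOn_univ
  have hQ' : ∀ z, HasDerivAt Q (GG A B z) z := fun z => hQ z (Set.mem_univ z)
  set r : ℝ := 3 * y with hr
  have hr0 : 0 < r := by positivity
  set α : ℝ := Real.arccos (1 / 3) with hα
  have hcos : Real.cos α = 1 / 3 := Real.cos_arccos (by norm_num) (by norm_num)
  have hα0 : 0 ≤ α := Real.arccos_nonneg _
  have hαpi : α ≤ π / 2 := Real.arccos_le_pi_div_two.2 (by norm_num)
  have hpi := Real.pi_pos
  have hsin : Real.sin α = Real.sqrt 8 / 3 := by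
    rw [hα, Real.sin_arccos]
    rw [show (1 : ℝ) - (1 / 3) ^ 2 = 8 / 3 ^ 2 by norm_num, Real.sqrt_div' _ (by positivity),
      Real.sqrt_sq (by norm_num)]
  have hlogp : Complex.log (y - I * ((-(Real.sqrt 8 * y) : ℝ) : ℂ)) = Real.log r + α * I := by
    have h1 : (y - I * ((-(Real.sqrt 8 * y) : ℝ) : ℂ)) = Complex.exp (Real.log r + α * I) := by
      rw [Complex.exp_add, ← Complex.ofReal_exp, Real.exp_log hr0, Complex.exp_mul_I,
        ← Complex.ofReal_cos, ← Complex.ofReal_sin, hcos, hsin, hr]
      push_cast; ring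
    rw [h1, Complex.log_exp]
    · simp; linarith
    · simp; linarith
  have hlogm : Complex.log (y - I * ((Real.sqrt 8 * y : ℝ) : ℂ)) = Real.log r + (-α : ℝ) * I := by
    have h1 : (y - I * ((Real.sqrt 8 * y : ℝ) : ℂ)) = Complex.exp (Real.log r + (-α : ℝ) * I) := by
      rw [Complex.exp_add, ← Complex.ofReal_exp, Real.exp_log hr0, Complex.exp_mul_I,
        ← Complex.ofReal_cos, ← Complex.ofReal_sin, Real.cos_neg, Real.sin_neg, hcos, hsin, hr]
      push_cast; ring
    rw [h1, Complex.log_exp]
    · simp; linarith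
    · simp; linarith
  -- J by the fundamental theorem
  have hJ : J A B y = I * (Q (Real.log r + (-α : ℝ) * I) - Q (Real.log r + α * I)) := by
    have hderiv : ∀ θ ∈ Set.uIcc (-(Real.sqrt 8 * y)) (Real.sqrt 8 * y),
        HasDerivAt (fun θ : ℝ => I * Q (Complex.log (y - I * θ)))
          (Complex.exp (A / (y - I * θ) + B * (y - I * θ))) θ := by
      intro θ _
      have hre : 0 < ((y : ℂ) - I * θ).re := by simp; exact hy
      have hw0 : ((y : ℂ) - I * θ) ≠ 0 := by intro h; rw [h] at hre; simp at hre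
      have hslit : ((y : ℂ) - I * θ) ∈ Complex.slitPlane := Or.inl hre
      have h1 : HasDerivAt (fun z : ℂ => (y : ℂ) - I * z) (-I) (θ : ℂ) := by
        simpa using ((hasDerivAt_id (θ : ℂ)).const_mul I).const_sub (y : ℂ)
      have h2 := h1.clog hslit
      have h3 := ((hQ' (Complex.log (y - I * θ))).comp (θ : ℂ) h2).const_mul I
      have h4 : HasDerivAt (fun θ : ℝ => I * Q (Complex.log (y - I * θ)))
        (I * (GG A B (Complex.log (y - I * θ)) * (-I / (y - I * θ)))) θ := h3.comp_ofReal
      refine h4.congr_deriv ?_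
      unfold GG
      rw [Complex.exp_add, Complex.exp_neg, Complex.exp_log hw0, ← div_eq_mul_inv (A : ℂ)]
      field_simp
      rw [Complex.I_sq]
      ring
    have hint : IntervalIntegrable (fun θ : ℝ => Complex.exp (A / (y - I * θ) + B * (y - I * θ)))
        MeasureTheory.volume (-(Real.sqrt 8 * y)) (Real.sqrt 8 * y) := by
      apply Continuous.intervalIntegrable
      have hne : ∀ θ : ℝ, ((y : ℂ) - I * θ) ≠ 0 := by
        intro θ h
        have hre : 0 < ((y : ℂ) - I * θ).re := by simp; exact hy
        rw [h] at hre; simp at hre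
      have hc : Continuous fun θ : ℝ => (y : ℂ) - I * θ := by fun_prop
      exact ((continuous_const.div hc hne).add (continuous_const.mul hc)).cexp
    unfold J
    rw [intervalIntegral.integral_eq_sub_of_hasDerivAt hderiv hint, hlogp, hlogm]
    ring
  -- circle pieces
  have hGd : ∀ t : ℝ, HasDerivAt (fun t : ℝ => Q (Real.log r + t * I))
      (I * GG A B (Real.log r + t * I)) t := by
    intro t
    have h1 : HasDerivAt (fun z : ℂ => (Real.log r : ℂ) + z * I) I (t : ℂ) := by
      simpa using ((hasDerivAt_id (t : ℂ)).mul_const I).const_add (Real.log r : ℂ)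
    have h2 : HasDerivAt (fun t : ℝ => Q (Real.log r + t * I))
      (GG A B (Real.log r + t * I) * I) t :=
      ((hQ' (Real.log r + t * I)).comp (t : ℂ) h1).comp_ofReal
    exact h2.congr_deriv (mul_comm _ _)
  have hGcont : Continuous fun t : ℝ => GG A B (Real.log r + t * I) :=
    (differentiable_GG A B).continuous.comp (by fun_prop)
  have hftc : ∀ a b : ℝ, Q (Real.log r + b * I) - Q (Real.log r + a * I)
      = I * ∫ t in a..b, GG A B (Real.log r + t * I) := by
    intro a b
    rw [← intervalIntegral.integral_const_mul]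
    rw [intervalIntegral.integral_eq_sub_of_hasDerivAt (f := fun t : ℝ => Q (Real.log r + t * I))
      (fun t _ => hGd t) ((continuous_const.mul hGcont).intervalIntegrable _ _)]
  have hper : Function.Periodic (fun t : ℝ => GG A B (Real.log r + t * I)) (2 * π) := by
    intro t
    simp only [GG]
    have e1 : Complex.exp ((Real.log r : ℂ) + ((t + 2 * π : ℝ) : ℂ) * I)
        = Complex.exp ((Real.log r : ℂ) + t * I) := by
      rw [show ((Real.log r : ℂ) + ((t + 2 * π : ℝ) : ℂ) * I)
        = ((Real.log r : ℂ) + t * I) + 2 * π * I by push_cast; ring, Complex.exp_add,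
        Complex.exp_two_pi_mul_I, mul_one]
    rw [Complex.exp_add, Complex.exp_add (_ + _) ((Real.log r : ℂ) + t * I), Complex.exp_neg,
      Complex.exp_neg, e1]
  have hfull : ∫ t in (-α)..(2 * π - α), GG A B (Real.log r + t * I) = 2 * π * S A B := by
    have h1 := hper.intervalIntegral_add_eq (-α) 0
    rw [show -α + 2 * π = 2 * π - α by ring, zero_add] at h1
    rw [h1, circle_GG A B hr0]
  have hkey : J A B y - 2 * π * S A B = -∫ t in α..(2 * π - α), GG A B (Real.log r + t * I) := by
    have h1 := hftc (-α) (2 * π - α)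
    rw [hfull] at h1
    have h2 := hftc α (2 * π - α)
    have h3 : Q (Real.log r + (-α : ℝ) * I) - Q (Real.log r + α * I)
        = I * (∫ t in α..(2 * π - α), GG A B (Real.log r + t * I)) - I * (2 * π * S A B) := by
      rw [← h1, ← h2]; ring
    rw [hJ, h3]
    have : I * (I * (∫ t in α..(2 * π - α), GG A B (Real.log r + t * I)) - I * (2 * π * S A B))
        = (I * I) * ((∫ t in α..(2 * π - α), GG A B (Real.log r + t * I)) - (2 * π * S A B)) := by
      ring
    rw [this, Complex.I_mul_I]; ring
  rw [hkey, norm_neg]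
  have hb : ∀ t ∈ Set.uIoc α (2 * π - α), ‖GG A B (Real.log r + t * I)‖
      ≤ r * Real.exp (A / (9 * y) + B * y) := by
    intro t ht
    rw [Set.uIoc_of_le (by linarith)] at ht
    have hct : Real.cos t ≤ 1 / 3 := by
      rw [← hcos]
      rcases le_or_gt t π with h | h
      · exact Real.cos_le_cos_of_nonneg_of_le_pi hα0 h ht.1.le
      · have h1 : Real.cos t = Real.cos (2 * π - t) := by rw [Real.cos_two_pi_sub]
        rw [h1]
        exact Real.cos_le_cos_of_nonneg_of_le_pi hα0 (by linarith) (by linarith [ht.2])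
    unfold GG
    rw [Complex.norm_exp]
    have e1 : ((A : ℂ) * Complex.exp (-(Real.log r + t * I)) + B * Complex.exp (Real.log r + t * I)
        + (Real.log r + t * I)).re = (A / r + B * r) * Real.cos t + Real.log r := by
      have h1 : Complex.exp (-(Real.log r + t * I)) = ((r⁻¹ : ℝ) : ℂ) * Complex.exp ((-t : ℝ) * I) := by
        rw [neg_add, Complex.exp_add]
        congr 1
        · rw [← Complex.ofReal_neg, ← Complex.ofReal_exp, Real.exp_neg, Real.exp_log hr0]
        · congr 1; push_cast; ring
      have h2 : Complex.exp (Real.log r + t * I) = (r : ℂ) * Complex.exp (t * I) := by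
        rw [Complex.exp_add, ← Complex.ofReal_exp, Real.exp_log hr0]
      rw [h1, h2, Complex.exp_mul_I, Complex.exp_mul_I, ← Complex.ofReal_cos, ← Complex.ofReal_sin,
        ← Complex.ofReal_cos, ← Complex.ofReal_sin, Real.cos_neg, Real.sin_neg]
      simp [Complex.cos_ofReal_re]
      ring
    rw [e1, Real.exp_add, Real.exp_log hr0, mul_comm]
    gcongr
    have h3 : 0 ≤ A / r + B * r := by positivity
    calc (A / r + B * r) * Real.cos t ≤ (A / r + B * r) * (1 / 3) := by gcongr
      _ = A / (9 * y) + B * y := by rw [hr]; field_simp; ring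
  have h1 := intervalIntegral.norm_integral_le_of_norm_le_const hb
  refine h1.trans ?_
  have h2 : |2 * π - α - α| ≤ 2 * π := by
    rw [abs_le]; constructor <;> linarith
  calc r * Real.exp (A / (9 * y) + B * y) * |2 * π - α - α|
      ≤ r * Real.exp (A / (9 * y) + B * y) * (2 * π) := by gcongr
    _ = _ := by rw [hr]; ring

lemma J_real (A B y : ℝ) : (starRingEnd ℂ) (J A B y) = J A B y := by
  unfold J
  rw [← intervalIntegral.intervalIntegral_conj]
  have h := intervalIntegral.integral_comp_neg (a := -(Real.sqrt 8 * y)) (b := Real.sqrt 8 * y)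
    (fun θ : ℝ => Complex.exp (A / (y - I * θ) + B * (y - I * θ)))
  rw [neg_neg] at h
  rw [← h]
  apply intervalIntegral.integral_congr
  intro θ _
  simp only
  rw [← Complex.exp_conj]
  congr 1
  simp

lemma S_lower {E y0 : ℝ} (hE : 0 < E) (hy0 : 0 < y0) :
    y0 * ((Real.cosh E - 1) / E) ≤ S (y0 * E / 2) (E / (2 * y0)) := by
  have h1 := Real.hasSum_cosh E
  have h2 : HasSum (fun j : ℕ => E ^ (2 * (j + 1)) / (2 * (j + 1))!) (Real.cosh E - 1) := by
    have := (hasSum_nat_add_iff' (f := fun n : ℕ => E ^ (2 * n) / ((2 * n)! : ℝ)) 1).2 h1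
    simpa using this
  have h3 := (h2.div_const E).mul_left y0
  unfold S
  refine h3.tsum_eq ▸ (h3.summable.tsum_le_tsum (fun j => ?_) (summable_S _ _))
  have hc := Nat.four_pow_le_two_mul_self_mul_centralBinom (j + 1) (Nat.succ_pos j)
  have hcb : Nat.centralBinom (j + 1) * ((j + 1)! * (j + 1)!) = (2 * (j + 1))! := by
    unfold Nat.centralBinom
    have := Nat.choose_mul_factorial_mul_factorial (show j + 1 ≤ 2 * (j + 1) by omega)
    rw [show 2 * (j + 1) - (j + 1) = j + 1 by omega] at this
    rw [← this]; ring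
  have hcR : (4 : ℝ) ^ (j + 1) * ((j + 1)! * j !) ≤ 2 * (2 * (j + 1))! := by
    have h4 : 4 ^ (j + 1) * ((j + 1)! * j !) ≤ 2 * (2 * (j + 1))! := by
      calc 4 ^ (j + 1) * ((j + 1)! * j !)
          ≤ (2 * (j + 1) * Nat.centralBinom (j + 1)) * ((j + 1)! * j !) :=
            Nat.mul_le_mul_right _ hc
        _ = 2 * (Nat.centralBinom (j + 1) * ((j + 1)! * ((j + 1) * j !))) := by ring
        _ = 2 * (2 * (j + 1))! := by rw [← Nat.factorial_succ, hcb]
    exact_mod_cast h4
  have e1 : (y0 * E / 2) ^ (j + 1) * (E / (2 * y0)) ^ j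
      = y0 * (2 * E ^ (2 * (j + 1)) / (E * 4 ^ (j + 1))) := by
    have h5 : (4 : ℝ) ^ (j + 1) = 2 ^ (j + 1) * 2 ^ (j + 1) := by
      rw [← mul_pow]; norm_num
    have h6 : E ^ (2 * (j + 1)) = E ^ (j + 1) * (E ^ j * E) := by
      rw [← pow_succ, ← pow_add]; congr 1; ring
    rw [h5, h6, div_pow, div_pow, mul_pow, mul_pow, pow_succ y0]
    have h7 : (2 : ℝ) ^ (j + 1) = 2 ^ j * 2 := pow_succ _ _
    rw [h7]
    field_simp
  rw [e1]
  have hf1 : (0 : ℝ) < ((2 * (j + 1))! : ℝ) := by positivity
  have hf2 : (0 : ℝ) < ((j + 1)! : ℝ) * (j ! : ℝ) := by positivity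
  rw [mul_div_assoc]
  apply mul_le_mul_of_nonneg_left _ hy0.le
  rw [div_div, div_div, div_le_div_iff₀ (by positivity) (by positivity)]
  calc E ^ (2 * (j + 1)) * (E * 4 ^ (j + 1) * (((j + 1)! : ℝ) * (j ! : ℝ)))
      = (E ^ (2 * (j + 1)) * E) * (4 ^ (j + 1) * (((j + 1)! : ℝ) * (j ! : ℝ))) := by ring
    _ ≤ (E ^ (2 * (j + 1)) * E) * (2 * (2 * (j + 1))!) := by gcongr
    _ = _ := by ring

end Pool.Agent.Lib.MP_067a7d_co
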