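import Pool.Agent.Lib.MP_067a7d_co.Coef
import Pool.Agent.Lib.MP_067a7d_co.Bessel

namespace Pool.Agent.Lib.MP_067a7d_co

open Complex Finset
open scoped Real

lemma normSq_form (c d : ℤ) (x y : ℝ) : Complex.normSq (3 * c * ((x : ℂ) + I * y) + d)
    = (3 * c * x + d) ^ 2 + 9 * c ^ 2 * y ^ 2 := by
  rw [Complex.normSq_apply]
  simp
  ring

lemma cast_abs_ge {c : ℤ} {k : ℤ} (h : k ≤ c ∨ c ≤ -k) (hk : 0 ≤ k) : (k : ℝ) ^ 2 ≤ (c : ℝ) ^ 2 := by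
  have : k ^ 2 ≤ c ^ 2 := by
    rcases h with h | h <;> nlinarith
  exact_mod_cast this

lemma far {x y : ℝ} (hx0 : 0 ≤ x) (hx1 : x ≤ 1 / 2) (hy : 0 < y) (hy2 : y ≤ 1 / 50)
    (h1 : 8 * y ^ 2 ≤ (x - 1 / 3) ^ 2) (h2 : 5 / 4 * y ^ 2 ≤ (x - 1 / 6) ^ 2)
    {c d : ℤ} (hcd : IsCoprime c d) (h3 : ¬ (3 : ℤ) ∣ d) :
    81 * y ^ 2 ≤ (3 * c * x + d) ^ 2 + 9 * c ^ 2 * y ^ 2 := by
  have hy3 : y ^ 2 ≤ 1 / 2500 := by nlinarith
  have hcase : c = 0 ∨ c = 1 ∨ c = -1 ∨ c = 2 ∨ c = -2 ∨ (3 ≤ c ∨ c ≤ -3) := by omega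
  -- bounds for `3x + e` with `e` not divisible by `3`
  have key1 : ∀ e : ℤ, ¬ (3 : ℤ) ∣ e → 72 * y ^ 2 ≤ (3 * x + e) ^ 2 := by
    intro e he
    have he' : e = -1 ∨ 1 ≤ e ∨ e ≤ -2 := by omega
    rcases he' with h | h | h
    · subst h; push_cast; nlinarith
    · have : (1 : ℝ) ≤ e := by exact_mod_cast h
      nlinarith
    · have : (e : ℝ) ≤ -2 := by exact_mod_cast h
      nlinarith
  have key2 : ∀ e : ℤ, ¬ (3 : ℤ) ∣ e → ¬ (2 : ℤ) ∣ e → 45 * y ^ 2 ≤ (6 * x + e) ^ 2 := by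
    intro e he he2
    have he' : e = -1 ∨ 1 ≤ e ∨ e ≤ -5 := by omega
    rcases he' with h | h | h
    · subst h; push_cast; nlinarith
    · have : (1 : ℝ) ≤ e := by exact_mod_cast h
      nlinarith
    · have : (e : ℝ) ≤ -5 := by exact_mod_cast h
      nlinarith
  rcases hcase with h | h | h | h | h | h
  · subst h
    have hu : IsUnit d := isCoprime_zero_left.1 hcd
    rcases Int.isUnit_iff.1 hu with h | h <;> subst h <;> push_cast <;> nlinarith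
  · subst h
    have := key1 d h3
    push_cast; nlinarith
  · subst h
    have := key1 (-d) (by rwa [dvd_neg])
    push_cast at this ⊢; nlinarith
  · subst h
    have h2d : ¬ (2 : ℤ) ∣ d := by
      intro h
      have := hcd.isUnit_of_dvd' (dvd_refl 2) h
      rw [Int.isUnit_iff] at this
      omega
    have := key2 d h3 h2d
    push_cast; nlinarith
  · subst h
    have h2d : ¬ (2 : ℤ) ∣ d := by
      intro h
      have := hcd.isUnit_of_dvd' (by norm_num : (2 : ℤ) ∣ -2) h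
      rw [Int.isUnit_iff] at this
      omega
    have := key2 (-d) (by rwa [dvd_neg]) (by rwa [dvd_neg])
    push_cast at this ⊢; nlinarith
  · have h9 := cast_abs_ge (c := c) (k := 3) h (by norm_num)
    push_cast at h9
    nlinarith [sq_nonneg (3 * (c : ℝ) * x + d), sq_nonneg y]

lemma near6 {x y : ℝ} (hy : 0 < y) (hy2 : y ≤ 1 / 50)
    (h2 : (x - 1 / 6) ^ 2 ≤ 2 * y ^ 2)
    {c d : ℤ} (hcd : IsCoprime c d) :
    36 * y ^ 2 ≤ (3 * c * x + d) ^ 2 + 9 * c ^ 2 * y ^ 2 := by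
  have hy3 : y ^ 2 ≤ 1 / 2500 := by nlinarith
  have hx := abs_le.1 (abs_le_of_sq_le_sq (a := x - 1 / 6) (b := 1 / 30) (by nlinarith) (by norm_num))
  have hcase : c = 0 ∨ c = 1 ∨ c = -1 ∨ (2 ≤ c ∨ c ≤ -2) := by omega
  have key1 : ∀ e : ℤ, 27 * y ^ 2 ≤ (3 * x + e) ^ 2 := by
    intro e
    have he' : 0 ≤ e ∨ e ≤ -1 := by omega
    rcases he' with h | h
    · have : (0 : ℝ) ≤ e := by exact_mod_cast h
      nlinarith [hx.1, hx.2]
    · have : (e : ℝ) ≤ -1 := by exact_mod_cast h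
      nlinarith [hx.1, hx.2]
  rcases hcase with h | h | h | h
  · subst h
    have hu : IsUnit d := isCoprime_zero_left.1 hcd
    rcases Int.isUnit_iff.1 hu with h | h <;> subst h <;> push_cast <;> nlinarith
  · subst h
    have := key1 d
    push_cast; nlinarith
  · subst h
    have := key1 (-d)
    push_cast at this ⊢; nlinarith
  · have h9 := cast_abs_ge (c := c) (k := 2) h (by norm_num)
    push_cast at h9
    nlinarith [sq_nonneg (3 * (c : ℝ) * x + d), sq_nonneg y]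

lemma reL_of_normSq {x y k : ℝ} (hy : 0 < y) (hk : 0 < k)
    (h : ∀ c d : ℤ, IsCoprime c d → ¬ (3 : ℤ) ∣ d →
      k * y ^ 2 ≤ (3 * c * x + d) ^ 2 + 9 * c ^ 2 * y ^ 2) :
    (L (qq (x + I * y))).re ≤ -(π * y / 6) + 1 / 65 + max (1 / 2) (π / (6 * k * y)) := by
  obtain ⟨c, d, hcd, h3, hm⟩ := minor (τ := (x : ℂ) + I * y) (by rw [im_xy]; exact hy)
  rw [im_xy, normSq_form] at hm
  have h1 := h c d hcd h3
  have hpos : 0 < k * y ^ 2 := by positivity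
  have hle : π / 18 * (3 * y / ((3 * c * x + d) ^ 2 + 9 * c ^ 2 * y ^ 2)) ≤ π / (6 * k * y) := by
    calc π / 18 * (3 * y / ((3 * c * x + d) ^ 2 + 9 * c ^ 2 * y ^ 2))
        ≤ π / 18 * (3 * y / (k * y ^ 2)) := by
          have := Real.pi_pos
          gcongr
      _ = π / (6 * k * y) := by field_simp; ring
  have := max_le_max (le_refl (1 / 2 : ℝ)) hle
  linarith

lemma reL_far {x y : ℝ} (hx0 : 0 ≤ x) (hx1 : x ≤ 1 / 2) (hy : 0 < y) (hy2 : y ≤ 1 / 50)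
    (h1 : 8 * y ^ 2 ≤ (x - 1 / 3) ^ 2) (h2 : 5 / 4 * y ^ 2 ≤ (x - 1 / 6) ^ 2) :
    (L (qq (x + I * y))).re ≤ -(π * y / 6) + 1 / 65 + max (1 / 2) (π / (486 * y)) := by
  have := reL_of_normSq (x := x) hy (by norm_num : (0 : ℝ) < 81)
    (fun c d hcd h3 => far hx0 hx1 hy hy2 h1 h2 hcd h3)
  rw [show (6 : ℝ) * 81 * y = 486 * y by ring] at this
  exact this

lemma reL_near {x y : ℝ} (hy : 0 < y) (hy2 : y ≤ 1 / 50)
    (h2 : (x - 1 / 6) ^ 2 ≤ 2 * y ^ 2) :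
    (L (qq (x + I * y))).re ≤ -(π * y / 6) + 1 / 65 + max (1 / 2) (π / (216 * y)) := by
  have := reL_of_normSq (x := x) hy (by norm_num : (0 : ℝ) < 36)
    (fun c d hcd _ => near6 hy hy2 h2 hcd)
  rw [show (6 : ℝ) * 36 * y = 216 * y by ring] at this
  exact this

/-- splitting of the integral -/
lemma rest_bound {K : ℝ → ℂ} (hK : Continuous K) {y M1 M2 : ℝ} (hy : 0 < y) (hy2 : y ≤ 1 / 50)
    (hM1 : 0 ≤ M1)
    (h1 : ∀ x : ℝ, 0 ≤ x → x ≤ 1 / 2 → 8 * y ^ 2 ≤ (x - 1 / 3) ^ 2 →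
      5 / 4 * y ^ 2 ≤ (x - 1 / 6) ^ 2 → ‖K x‖ ≤ M1)
    (h2 : ∀ x : ℝ, (x - 1 / 6) ^ 2 ≤ 2 * y ^ 2 → ‖K x‖ ≤ M2) :
    ‖(∫ x in (0 : ℝ)..(1 / 2), K x) - ∫ θ in (-(Real.sqrt 8 * y))..(Real.sqrt 8 * y), K (1 / 3 + θ)‖
      ≤ M1 / 2 + 9 / 4 * y * M2 := by
  obtain ⟨a, ha⟩ : ∃ a : ℝ, a = Real.sqrt 8 * y := ⟨_, rfl⟩
  obtain ⟨b, hb⟩ : ∃ b : ℝ, b = 9 / 8 * y := ⟨_, rfl⟩
  rw [← ha]
  have hs8 : Real.sqrt 8 ≤ 2.83 := by
    rw [Real.sqrt_le_left (by norm_num)]; norm_num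
  have hs8' : 0 ≤ Real.sqrt 8 := Real.sqrt_nonneg _
  have ha0 : 0 ≤ a := by rw [ha]; positivity
  have ha1 : a ≤ 2.83 / 50 := by rw [ha]; nlinarith
  have ha2 : a ^ 2 = 8 * y ^ 2 := by
    rw [ha, mul_pow, Real.sq_sqrt (by norm_num)]
  have hb0 : 0 ≤ b := by rw [hb]; positivity
  have hb1 : b ≤ 9 / 400 := by rw [hb]; linarith
  have hb2 : 5 / 4 * y ^ 2 ≤ b ^ 2 := by rw [hb]; nlinarith [sq_nonneg y]
  have hb3 : b ^ 2 ≤ 2 * y ^ 2 := by rw [hb]; nlinarith [sq_nonneg y]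
  have hi : ∀ u v : ℝ, IntervalIntegrable K MeasureTheory.volume u v :=
    fun u v => hK.intervalIntegrable u v
  have hshift : ∫ θ in (-a)..a, K (1 / 3 + θ) = ∫ x in (1 / 3 - a)..(1 / 3 + a), K x := by
    rw [intervalIntegral.integral_comp_add_left (fun x => K x) (1 / 3 : ℝ)]
    congr 1
  have hsplit : (∫ x in (0 : ℝ)..(1 / 2), K x) = (∫ x in (0 : ℝ)..(1 / 6 - b), K x)
      + (∫ x in (1 / 6 - b)..(1 / 6 + b), K x) + (∫ x in (1 / 6 + b)..(1 / 3 - a), K x)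
      + (∫ x in (1 / 3 - a)..(1 / 3 + a), K x) + (∫ x in (1 / 3 + a)..(1 / 2), K x) := by
    rw [intervalIntegral.integral_add_adjacent_intervals (hi _ _) (hi _ _),
      intervalIntegral.integral_add_adjacent_intervals (hi _ _) (hi _ _),
      intervalIntegral.integral_add_adjacent_intervals (hi _ _) (hi _ _),
      intervalIntegral.integral_add_adjacent_intervals (hi _ _) (hi _ _)]
  rw [hshift, hsplit]
  have n0 : ‖∫ x in (0 : ℝ)..(1 / 6 - b), K x‖ ≤ M1 * |1 / 6 - b - 0| := by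
    apply intervalIntegral.norm_integral_le_of_norm_le_const
    intro x hx
    rw [Set.uIoc_of_le (by linarith)] at hx
    exact h1 x hx.1.le (by linarith [hx.2]) (by rw [← ha2]; nlinarith [hx.1, hx.2])
      (hb2.trans (by nlinarith [hx.1, hx.2]))
  have n1 : ‖∫ x in (1 / 6 - b)..(1 / 6 + b), K x‖ ≤ M2 * |1 / 6 + b - (1 / 6 - b)| := by
    apply intervalIntegral.norm_integral_le_of_norm_le_const
    intro x hx
    rw [Set.uIoc_of_le (by linarith)] at hx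
    exact h2 x (le_trans (by nlinarith [hx.1, hx.2]) hb3)
  have n2 : ‖∫ x in (1 / 6 + b)..(1 / 3 - a), K x‖ ≤ M1 * |1 / 3 - a - (1 / 6 + b)| := by
    apply intervalIntegral.norm_integral_le_of_norm_le_const
    intro x hx
    rw [Set.uIoc_of_le (by linarith)] at hx
    exact h1 x (by linarith [hx.1]) (by linarith [hx.2]) (by rw [← ha2]; nlinarith [hx.1, hx.2])
      (hb2.trans (by nlinarith [hx.1, hx.2]))
  have n4 : ‖∫ x in (1 / 3 + a)..(1 / 2), K x‖ ≤ M1 * |1 / 2 - (1 / 3 + a)| := by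
    apply intervalIntegral.norm_integral_le_of_norm_le_const
    intro x hx
    rw [Set.uIoc_of_le (by linarith)] at hx
    exact h1 x (by linarith [hx.1]) (by linarith [hx.2]) (by rw [← ha2]; nlinarith [hx.1, hx.2])
      (hb2.trans (by nlinarith [hx.1, hx.2]))
  rw [abs_of_nonneg (by linarith)] at n0 n1 n2 n4
  set K0 := ∫ x in (0 : ℝ)..(1 / 6 - b), K x
  set K1 := ∫ x in (1 / 6 - b)..(1 / 6 + b), K x
  set K2 := ∫ x in (1 / 6 + b)..(1 / 3 - a), K x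
  set K3 := ∫ x in (1 / 3 - a)..(1 / 3 + a), K x
  set K4 := ∫ x in (1 / 3 + a)..(1 / 2), K x
  rw [show K0 + K1 + K2 + K3 + K4 - K3 = K0 + K1 + K2 + K4 by ring]
  have hM2 : M2 * (1 / 6 + b - (1 / 6 - b)) = 9 / 4 * y * M2 := by rw [hb]; ring
  have t1 : ‖K0 + K1 + K2 + K4‖ ≤ ‖K0‖ + ‖K1‖ + ‖K2‖ + ‖K4‖ :=
    (norm_add_le _ _).trans (by gcongr; exact (norm_add_le _ _).trans (by gcongr; exact norm_add_le _ _))
  have t2 : M1 * (1 / 6 - b - 0) + M1 * (1 / 3 - a - (1 / 6 + b)) + M1 * (1 / 2 - (1 / 3 + a))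
      ≤ M1 / 2 := by nlinarith
  linarith

end Pool.Agent.Lib.MP_067a7d_co
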