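import Mathlib

namespace Pool.Agent.Lib.MP_067a7d_co

open Complex Finset
open scoped Real

/-- sum of the divisors of `n` that are not divisible by 3 -/
def s (n : ℕ) : ℕ := ∑ m ∈ n.divisors with ¬ 3 ∣ m, m

lemma s_zero : s 0 = 0 := by simp [s]

lemma s_one : s 1 = 1 := by decide

lemma s_le_sq (n : ℕ) : s n ≤ n ^ 2 := by
  unfold s
  calc ∑ m ∈ n.divisors with ¬ 3 ∣ m, m ≤ ∑ m ∈ n.divisors, m :=
        Finset.sum_le_sum_of_subset (Finset.filter_subset _ _)
    _ ≤ ∑ m ∈ n.divisors, n := Finset.sum_le_sum (fun m hm => Nat.divisor_le hm)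
    _ = n.divisors.card * n := by simp
    _ ≤ n * n := Nat.mul_le_mul_right _ (Nat.card_divisors_le_self n)
    _ = n ^ 2 := by ring

/-- coefficients of the `d`-th power, by the logarithmic-derivative recurrence -/
noncomputable def c (d : ℝ) : ℕ → ℝ
  | 0 => 1
  | n + 1 => -d / (n + 1) * ∑ j : Fin (n + 1), (s (n + 1 - j) : ℝ) * c d j

lemma c_zero (d : ℝ) : c d 0 = 1 := by rw [c]

lemma c_succ (d : ℝ) (n : ℕ) :
    ((n : ℝ) + 1) * c d (n + 1) = -d * ∑ p ∈ antidiagonal n, (s (p.1 + 1) : ℝ) * c d p.2 := by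
  rw [c]
  have h : ((n : ℝ) + 1) ≠ 0 := by positivity
  have h2 : ∑ j : Fin (n + 1), (s (n + 1 - j) : ℝ) * c d j
      = ∑ p ∈ antidiagonal n, (s (p.1 + 1) : ℝ) * c d p.2 := by
    rw [Finset.Nat.sum_antidiagonal_eq_sum_range_succ_mk]
    rw [← Finset.sum_range_reflect, Finset.sum_range]
    apply Finset.sum_congr rfl
    intro j _
    have : (j : ℕ) ≤ n := Nat.lt_succ_iff.mp j.2
    congr 3 <;> simp <;> omega
  rw [h2]
  field_simp

end Pool.Agent.Lib.MP_067a7d_co
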