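import Pool.Agent.Lib.MP_067a7d_co.Sign1

namespace Pool.Agent.Lib.MP_067a7d_co

open Complex Finset
open scoped Real

lemma par_exists {d : ℝ} {n : ℕ} {T : ℝ} (hd : 0 < d) (hd3 : d ≤ 3) (hT : 9 ≤ T)
    (h : T ^ 2 ≤ 1.462 * (d * (n - d / 12))) : ∃ E y, Par d n E y ∧ T ≤ E := by
  have hpi := Real.pi_gt_d4
  have hπ2 : 9.869 ≤ π ^ 2 := by nlinarith
  have h1 : 4 * AA d * BB d n = 4 * π ^ 2 / 27 * (d * (n - d / 12)) := by
    unfold AA BB; ring
  have hpos : 0 ≤ d * (n - d / 12) := by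
    by_contra hc
    push Not at hc
    nlinarith
  have h2 : T ^ 2 ≤ 4 * AA d * BB d n := by
    rw [h1]
    refine h.trans ?_
    gcongr
    rw [le_div_iff₀ (by norm_num)]; linarith
  have hTE : T ≤ Real.sqrt (4 * AA d * BB d n) := by
    exact Real.le_sqrt_of_sq_le h2
  refine ⟨Real.sqrt (4 * AA d * BB d n), π * d / (81 * Real.sqrt (4 * AA d * BB d n)),
    ⟨hd, hd3, hT.trans hTE, ?_, rfl⟩, hTE⟩
  exact Real.sq_sqrt (le_trans (sq_nonneg T) h2)

lemma cos_PH0 (d : ℝ) (m : ℕ) : Real.cos (PH d (3 * m)) = Real.cos (π * d / 18) := by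
  unfold PH
  rw [show π * d / 18 + 2 * π * ((3 * m : ℕ) : ℝ) / 3 = π * d / 18 + (m : ℕ) * (2 * π) by
    push_cast; ring]
  exact Real.cos_add_nat_mul_two_pi _ _

lemma cos_PH1 (d : ℝ) (m : ℕ) : Real.cos (PH d (3 * m + 1)) = -Real.cos (π / 3 - π * d / 18) := by
  unfold PH
  rw [show π * d / 18 + 2 * π * ((3 * m + 1 : ℕ) : ℝ) / 3
    = (π - (π / 3 - π * d / 18)) + (m : ℕ) * (2 * π) by push_cast; ring,
    Real.cos_add_nat_mul_two_pi, Real.cos_pi_sub]

lemma cos_PH2 (d : ℝ) (m : ℕ) : Real.cos (PH d (3 * m + 2)) = -Real.sin ((3 - d) * π / 18) := by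
  unfold PH
  rw [show π * d / 18 + 2 * π * ((3 * m + 2 : ℕ) : ℝ) / 3
    = ((π / 2 - (3 - d) * π / 18) + π) + (m : ℕ) * (2 * π) by push_cast; ring,
    Real.cos_add_nat_mul_two_pi, Real.cos_add_pi, Real.cos_pi_div_two_sub]

lemma cos0_ge {d : ℝ} (hd : 0 < d) (hd3 : d ≤ 3) : 1 / 2 ≤ Real.cos (π * d / 18) := by
  have hpi := Real.pi_pos
  rw [← Real.cos_pi_div_three]
  apply Real.cos_le_cos_of_nonneg_of_le_pi (by positivity) (by linarith)
  nlinarith

lemma cos1_ge {d : ℝ} (hd : 0 < d) (hd3 : d ≤ 3) : 1 / 2 ≤ Real.cos (π / 3 - π * d / 18) := by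
  have hpi := Real.pi_pos
  rw [← Real.cos_pi_div_three]
  apply Real.cos_le_cos_of_nonneg_of_le_pi (by nlinarith) (by linarith)
  nlinarith

lemma sin2_ge {d : ℝ} (hd : 0 < d) (hd3 : d ≤ 3) :
    0.164 * (3 - d) ≤ Real.sin ((3 - d) * π / 18) := by
  have hpi := Real.pi_gt_d4
  have hpi2 := Real.pi_lt_d2
  rcases eq_or_lt_of_le hd3 with h | h
  · subst h; simp
  · set x := (3 - d) * π / 18 with hx
    have hx0 : 0 < x := by rw [hx]; have := Real.pi_pos; have : 0 < 3 - d := by linarith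
                           positivity
    have hx1 : x ≤ 0.525 := by rw [hx]; nlinarith
    have h1 := Real.sin_gt_sub_cube hx0
    have h2 : 0.1745 * (3 - d) ≤ x := by rw [hx]; nlinarith
    have h3 : x * 0.95 ≤ x - x ^ 3 / 6 := by nlinarith [mul_nonneg hx0.le (sub_nonneg.2 hx1)]
    linarith

lemma expC {d C : ℝ} (hd : 0 < d) (hd3 : d ≤ 3) (h : 65 / (65 - d) ≤ C) :
    Real.exp (d / 65) ≤ C := by
  refine le_trans (Real.exp_bound_div_one_sub_of_interval (by positivity) (by linarith)) ?_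
  refine le_trans (le_of_eq ?_) h
  have : (65 - d) ≠ 0 := by linarith
  have : 1 - d / 65 ≠ 0 := by
    intro h; apply this; linarith
  field_simp

/-- classes 0, 1 for large `n` -/
theorem big01 {d : ℝ} {n : ℕ} (hd : 0.2279 ≤ d) (hd3 : d ≤ 3)
    (h : 98.5 ≤ d * (n - d / 12)) :
    (n % 3 = 0 → 0 < c d n) ∧ (n % 3 = 1 → c d n < 0) := by
  have hd0 : 0 < d := by linarith
  obtain ⟨E, y, p, hE⟩ := par_exists (n := n) (T := 12) hd0 hd3 (by norm_num) (by linarith)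
  have hC : Real.exp (d / 65) ≤ 65 / (65 - d) := expC hd0 hd3 le_rfl
  have hC2 : 65 / (65 - d) ≤ 1.05 := by
    rw [div_le_iff₀ (by linarith)]; linarith
  have hnum : ∀ k : ℝ, 1 / 2 ≤ k → 65 / (65 - d) * (144 + 25.7 * d) + 0.1 ≤ 2158 * (d * k) := by
    intro k hk
    have : 65 / (65 - d) * (144 + 25.7 * d) ≤ 1.05 * (144 + 25.7 * d) := by gcongr
    nlinarith
  constructor
  · intro hn
    obtain ⟨m, rfl⟩ : ∃ m, n = 3 * m := ⟨n / 3, by omega⟩
    have hc := cos0_ge hd0 hd3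
    have h1 := V1_sign p hE hC (by
      rw [cos_PH0, abs_of_nonneg (by linarith)]; exact hnum _ hc)
    rw [cos_PH0] at h1
    exact (pos_iff_pos_of_mul_pos h1).1 (by linarith)
  · intro hn
    obtain ⟨m, rfl⟩ : ∃ m, n = 3 * m + 1 := ⟨n / 3, by omega⟩
    have hc := cos1_ge hd0 hd3
    have h1 := V1_sign p hE hC (by
      rw [cos_PH1, abs_neg, abs_of_nonneg (by linarith)]; exact hnum _ hc)
    rw [cos_PH1] at h1
    nlinarith

/-- class 2 for large `n` -/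
theorem big2 {d : ℝ} {n : ℕ} (hd : (0.2279 ≤ d ∧ d ≤ 1) ∨ (2 ≤ d ∧ d ≤ 2.75))
    (h : 98.5 ≤ d * (n - d / 12)) (hn : n % 3 = 2) : c d n < 0 := by
  have hd0 : 0 < d := by rcases hd with h | h <;> linarith [h.1]
  have hd3 : d ≤ 3 := by rcases hd with h | h <;> linarith [h.2]
  obtain ⟨E, y, p, hE⟩ := par_exists (n := n) (T := 12) hd0 hd3 (by norm_num) (by linarith)
  have hC : Real.exp (d / 65) ≤ 65 / (65 - d) := expC hd0 hd3 le_rfl
  obtain ⟨m, rfl⟩ : ∃ m, n = 3 * m + 2 := ⟨n / 3, by omega⟩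
  have hs := sin2_ge hd0 hd3
  have hs0 : 0 < Real.sin ((3 - d) * π / 18) := by
    refine lt_of_lt_of_le ?_ hs
    rcases hd with h | h <;> nlinarith [h.1, h.2]
  have hκ : d * (0.164 * (3 - d)) ≤ d * Real.sin ((3 - d) * π / 18) := by gcongr
  have hnum : 65 / (65 - d) * (144 + 25.7 * d) + 0.1 ≤ 2158 * (d * (0.164 * (3 - d))) := by
    rcases hd with h | h
    · have hC2 : 65 / (65 - d) ≤ 1.016 := by
        rw [div_le_iff₀ (by linarith)]; linarith [h.1, h.2]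
      have : 65 / (65 - d) * (144 + 25.7 * d) ≤ 1.016 * (144 + 25.7 * d) := by gcongr
      nlinarith [h.1, h.2]
    · have hC2 : 65 / (65 - d) ≤ 1.0443 := by
        rw [div_le_iff₀ (by linarith)]; linarith [h.1, h.2]
      have : 65 / (65 - d) * (144 + 25.7 * d) ≤ 1.0443 * (144 + 25.7 * d) := by gcongr
      nlinarith [h.1, h.2]
  have h1 := V1_sign p hE hC (by
    rw [cos_PH2, abs_neg, abs_of_pos hs0]; linarith)
  rw [cos_PH2] at h1
  nlinarith

end Pool.Agent.Lib.MP_067a7d_co
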