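import Pool.Agent.Lib.MP_067a7d_co.V2

namespace Pool.Agent.Lib.MP_067a7d_co

open Complex Finset
open scoped Real

lemma exp19 : (178000000 : ℝ) ≤ Real.exp 19 := by
  have he := Real.exp_one_gt_d9
  have : Real.exp 19 = Real.exp 1 ^ 19 := by rw [← Real.exp_nat_mul]; norm_num
  rw [this]
  have h5 : (2.7182818283 : ℝ) ^ 19 ≤ Real.exp 1 ^ 19 := by gcongr
  refine le_trans (by norm_num) h5

lemma exp_le_of {a : ℝ} {k : ℕ} {x b : ℝ} (hx : 0 ≤ x) (ha : a = k - x)
    (hb : (2.7182818286 : ℝ) ^ k ≤ b * (1 + x)) : Real.exp a ≤ b := by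
  have he := Real.exp_one_lt_d9
  have h1 : Real.exp a * Real.exp x = Real.exp 1 ^ k := by
    rw [← Real.exp_nat_mul, ← Real.exp_add, ha]; congr 1; ring
  have h2 : Real.exp 1 ^ k ≤ (2.7182818286 : ℝ) ^ k := by gcongr
  have h3 : 1 + x ≤ Real.exp x := by have := Real.add_one_le_exp x; linarith
  have h4 : 0 < Real.exp a := Real.exp_pos a
  have h5 : Real.exp a * (1 + x) ≤ b * (1 + x) := by
    calc Real.exp a * (1 + x) ≤ Real.exp a * Real.exp x := by gcongr
      _ = Real.exp 1 ^ k := h1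
      _ ≤ _ := h2.trans hb
  exact le_of_mul_le_mul_right h5 (by positivity)

lemma ineq2 {d E : ℝ} (hd : 2.75 ≤ d) (hd3 : d ≤ 3) (hE : 19 ≤ E) :
    (27 / 4 * E / d) * Real.exp (3 / 65) * (Real.exp (E / 6 + E / (2 * d))
          + 9 / 2 * (π * d / (81 * E)) * Real.exp (E / 6 + 9 * E / (8 * d)))
        + 12 * (π * d / (81 * E)) * (8 * E * Real.exp (-(E / 3)))
      < 2 * 0.174 * (6 * π * (π * d / (81 * E)) * ((Real.cosh E - 1) / E - Real.exp (E / 3))) := by
  have hpi1 := Real.pi_gt_d4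
  have hpi2 := Real.pi_lt_d4
  have hE0 : 0 < E := by linarith
  have hd0 : 0 < d := by linarith
  obtain ⟨s, hs⟩ : ∃ s : ℝ, s = E - 19 := ⟨_, rfl⟩
  have hs0 : 0 ≤ s := by linarith
  have hEs : E ≤ 19 * Real.exp (s / 19) := by
    have := Real.add_one_le_exp (s / 19)
    linarith
  have hpow : ∀ k : ℕ, Real.exp (s / 19) ^ k = Real.exp (k * s / 19) := by
    intro k; rw [← Real.exp_nat_mul]; congr 1; ring
  obtain ⟨v, hv⟩ : ∃ v : ℝ, v = Real.exp s := ⟨_, rfl⟩
  have hv1 : 1 ≤ v := by rw [hv]; exact Real.one_le_exp hs0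
  have hv0 : 0 < v := by linarith
  have c4 : 178000000 * v ≤ Real.exp E := by
    have : Real.exp E = Real.exp 19 * v := by rw [hv, ← Real.exp_add]; congr 1; linarith
    rw [this]; gcongr; exact exp19
  have c1 : E ^ 3 * Real.exp (23 * E / 66) ≤ 6859 * 796 * v := by
    have h1 : E ^ 3 ≤ 6859 * Real.exp (3 * s / 19) := by
      calc E ^ 3 ≤ (19 * Real.exp (s / 19)) ^ 3 := by gcongr
        _ = _ := by rw [mul_pow, hpow]; push_cast; ring
    have h2 : Real.exp (23 * E / 66) = Real.exp (437 / 66) * Real.exp (23 * s / 66) := by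
      rw [← Real.exp_add]; congr 1; rw [hs]; ring
    have h3 : Real.exp (437 / 66) ≤ 796 :=
      exp_le_of (k := 7) (x := 25 / 66) (by norm_num) (by norm_num) (by norm_num)
    calc E ^ 3 * Real.exp (23 * E / 66)
        ≤ (6859 * Real.exp (3 * s / 19)) * (796 * Real.exp (23 * s / 66)) := by
          rw [h2]; gcongr
      _ = 6859 * 796 * Real.exp (3 * s / 19 + 23 * s / 66) := by rw [Real.exp_add]; ring
      _ ≤ 6859 * 796 * v := by
          rw [hv]; gcongr; linarith
  have c2 : E ^ 2 * Real.exp (19 * E / 33) ≤ 361 * 56500 * v := by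
    have h1 : E ^ 2 ≤ 361 * Real.exp (2 * s / 19) := by
      calc E ^ 2 ≤ (19 * Real.exp (s / 19)) ^ 2 := by gcongr
        _ = _ := by rw [mul_pow, hpow]; push_cast; ring
    have h2 : Real.exp (19 * E / 33) = Real.exp (361 / 33) * Real.exp (19 * s / 33) := by
      rw [← Real.exp_add]; congr 1; rw [hs]; ring
    have h3 : Real.exp (361 / 33) ≤ 56500 :=
      exp_le_of (k := 11) (x := 2 / 33) (by norm_num) (by norm_num) (by norm_num)
    calc E ^ 2 * Real.exp (19 * E / 33)
        ≤ (361 * Real.exp (2 * s / 19)) * (56500 * Real.exp (19 * s / 33)) := by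
          rw [h2]; gcongr
      _ = 361 * 56500 * Real.exp (2 * s / 19 + 19 * s / 33) := by rw [Real.exp_add]; ring
      _ ≤ 361 * 56500 * v := by
          rw [hv]; gcongr; linarith
  have c3 : E * Real.exp (E / 3) ≤ 19 * 1100 * v := by
    have h2 : Real.exp (E / 3) = Real.exp (19 / 3) * Real.exp (s / 3) := by
      rw [← Real.exp_add]; congr 1; rw [hs]; ring
    have h3 : Real.exp (19 / 3) ≤ 1100 :=
      exp_le_of (k := 7) (x := 2 / 3) (by norm_num) (by norm_num) (by norm_num)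
    calc E * Real.exp (E / 3)
        ≤ (19 * Real.exp (s / 19)) * (1100 * Real.exp (s / 3)) := by
          rw [h2]; gcongr
      _ = 19 * 1100 * Real.exp (s / 19 + s / 3) := by rw [Real.exp_add]; ring
      _ ≤ 19 * 1100 * v := by
          rw [hv]; gcongr; linarith
  have c5 : E ^ 2 * Real.exp (-(E / 3)) ≤ 361 * v := by
    have h1 : E ^ 2 ≤ 361 * Real.exp (2 * s / 19) := by
      calc E ^ 2 ≤ (19 * Real.exp (s / 19)) ^ 2 := by gcongr
        _ = _ := by rw [mul_pow, hpow]; push_cast; ring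
    have h2 : Real.exp (-(E / 3)) ≤ 1 := Real.exp_le_one_iff.2 (by linarith)
    calc E ^ 2 * Real.exp (-(E / 3)) ≤ (361 * Real.exp (2 * s / 19)) * 1 := by gcongr
      _ ≤ 361 * v := by rw [mul_one, hv]; gcongr; linarith
  have hcosh : Real.exp E / 2 ≤ Real.cosh E := by
    rw [Real.cosh_eq]; have := Real.exp_pos (-E); linarith
  have hπ2 : 9.869 ≤ π ^ 2 := by nlinarith
  -- multiply by E^2/d
  have hR : (0.2544 * (89000000 * v - 1 - 19 * 1100 * v)) * d / E ^ 2
      ≤ 2 * 0.174 * (6 * π * (π * d / (81 * E)) * ((Real.cosh E - 1) / E - Real.exp (E / 3))) := by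
    have e5 : 2 * 0.174 * (6 * π * (π * d / (81 * E)) * ((Real.cosh E - 1) / E - Real.exp (E / 3)))
        = ((2.088 * π ^ 2 / 81) * (Real.cosh E - 1 - E * Real.exp (E / 3))) * d / E ^ 2 := by
      field_simp; ring
    rw [e5]
    have hc89 : 89000000 * v ≤ Real.cosh E := by linarith
    have h0544 : 0.2544 ≤ 2.088 * π ^ 2 / 81 := by linarith
    have hpos89 : 0 ≤ 89000000 * v - 1 - 19 * 1100 * v := by nlinarith
    gcongr
  have hLft : (27 / 4 * E / d) * Real.exp (3 / 65) * (Real.exp (E / 6 + E / (2 * d))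
          + 9 / 2 * (π * d / (81 * E)) * Real.exp (E / 6 + 9 * E / (8 * d)))
        + 12 * (π * d / (81 * E)) * (8 * E * Real.exp (-(E / 3)))
      ≤ (0.937 * (6859 * 796 * v) + 0.4907 * (361 * 56500 * v) + 3.73 * (361 * v)) * d / E ^ 2 := by
    have f1 : Real.exp (E / 6 + E / (2 * d)) ≤ Real.exp (23 * E / 66) := by
      apply Real.exp_le_exp.2
      have : E / (2 * d) ≤ 2 * E / 11 := by
        rw [div_le_div_iff₀ (by positivity) (by norm_num)]; nlinarith
      linarith
    have f2 : Real.exp (E / 6 + 9 * E / (8 * d)) ≤ Real.exp (19 * E / 33) := by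
      apply Real.exp_le_exp.2
      have : 9 * E / (8 * d) ≤ 9 * E / 22 := by
        rw [div_le_div_iff₀ (by positivity) (by norm_num)]; nlinarith
      linarith
    have f3 : Real.exp (3 / 65) ≤ 65 / 62 := by
      have h4 := Real.exp_bound_div_one_sub_of_interval (x := 3 / 65) (by norm_num) (by norm_num)
      norm_num at h4 ⊢
      exact h4
    rw [le_div_iff₀ (by positivity)]
    have g1 : (27 / 4 * E / d) * Real.exp (3 / 65) * Real.exp (E / 6 + E / (2 * d)) * E ^ 2
        ≤ 0.937 * (6859 * 796 * v) * d := by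
      calc (27 / 4 * E / d) * Real.exp (3 / 65) * Real.exp (E / 6 + E / (2 * d)) * E ^ 2
          ≤ (27 / 4 * E / d) * (65 / 62) * Real.exp (23 * E / 66) * E ^ 2 := by gcongr
        _ = (27 / 4 * (65 / 62) / d ^ 2) * (E ^ 3 * Real.exp (23 * E / 66)) * d := by field_simp
        _ ≤ (27 / 4 * (65 / 62) / 2.75 ^ 2) * (6859 * 796 * v) * d := by gcongr
        _ ≤ 0.937 * (6859 * 796 * v) * d := by gcongr; norm_num
    have g2 : (27 / 4 * E / d) * Real.exp (3 / 65) *
        (9 / 2 * (π * d / (81 * E)) * Real.exp (E / 6 + 9 * E / (8 * d))) * E ^ 2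
        ≤ 0.4907 * (361 * 56500 * v) * d := by
      calc (27 / 4 * E / d) * Real.exp (3 / 65) *
        (9 / 2 * (π * d / (81 * E)) * Real.exp (E / 6 + 9 * E / (8 * d))) * E ^ 2
          ≤ (27 / 4 * E / d) * (65 / 62) *
        (9 / 2 * (3.1416 * d / (81 * E)) * Real.exp (19 * E / 33)) * E ^ 2 := by gcongr
        _ = (27 / 4 * (65 / 62) * (9 / 2 * 3.1416 / 81)) * (1 / d) * (E ^ 2 * Real.exp (19 * E / 33)) * d := by
            field_simp
        _ ≤ (27 / 4 * (65 / 62) * (9 / 2 * 3.1416 / 81)) * (1 / 2.75) * (361 * 56500 * v) * d := by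
            gcongr
        _ ≤ 0.4907 * (361 * 56500 * v) * d := by gcongr; norm_num
    have g3 : 12 * (π * d / (81 * E)) * (8 * E * Real.exp (-(E / 3))) * E ^ 2
        ≤ 3.73 * (361 * v) * d := by
      calc 12 * (π * d / (81 * E)) * (8 * E * Real.exp (-(E / 3))) * E ^ 2
          = (96 * π / 81) * (E ^ 2 * Real.exp (-(E / 3))) * d := by field_simp; ring
        _ ≤ 3.73 * (361 * v) * d := by gcongr; linarith
    linarith
  refine lt_of_le_of_lt hLft (lt_of_lt_of_le ?_ hR)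
  gcongr
  nlinarith

/-- class 2 near `d = 3` for large `n` -/
theorem big3 {d : ℝ} {n : ℕ} (hd : 2.75 ≤ d) (hd3 : d ≤ 3) (hc3 : c 3 n = 0)
    (h : 247 ≤ d * (n - d / 12)) (hn : n % 3 = 2) : c d n ≤ 0 := by
  have hd0 : 0 < d := by linarith
  rcases eq_or_lt_of_le hd3 with h3 | h3
  · rw [h3, hc3]
  obtain ⟨E, y, p, hE⟩ := par_exists (n := n) (T := 19) hd0 hd3 (by norm_num) (by linarith)
  obtain ⟨m, rfl⟩ : ∃ m, n = 3 * m + 2 := ⟨n / 3, by omega⟩
  have hcos3 : Real.cos (PH 3 (3 * m + 2)) = 0 := by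
    rw [cos_PH2]; simp
  have h1 := V2 p (by linarith) (by linarith) hc3 hcos3
  have h2 := ineq2 hd hd3 hE
  rw [← p.hy] at h2
  have h4 := J_lower p
  rw [cos_PH2] at h1
  have hε : 0 < 3 - d := by linarith
  have hs : 0.174 * (3 - d) ≤ Real.sin ((3 - d) * π / 18) := by
    have hpi := Real.pi_gt_d4
    have hpi2 := Real.pi_lt_d2
    obtain ⟨x, hx⟩ : ∃ x : ℝ, x = (3 - d) * π / 18 := ⟨_, rfl⟩
    have hx0 : 0 < x := by rw [hx]; positivity
    have hx1 : x ≤ 0.05 := by rw [hx]; nlinarith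
    have h1 := Real.sin_gt_sub_cube hx0
    have h2 : 0.1745 * (3 - d) ≤ x := by rw [hx]; nlinarith
    have h3 : x * 0.999 ≤ x - x ^ 3 / 6 := by nlinarith [mul_nonneg hx0.le (sub_nonneg.2 hx1)]
    rw [← hx]
    linarith
  set Jr := (J (AA d) (BB d (3 * m + 2)) y).re with hJr
  set P := 6 * π * y * ((Real.cosh E - 1) / E - Real.exp (E / 3)) with hP
  set Er := (27 / 4 * E / d) * Real.exp (3 / 65) * (Real.exp (E / 6 + E / (2 * d))
          + 9 / 2 * y * Real.exp (E / 6 + 9 * E / (8 * d)))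
        + 12 * y * (8 * E * Real.exp (-(E / 3))) with hEr
  have hy := p.y_pos
  have hE0 := p.E_pos
  have hErpos : 0 < Er := by rw [hEr]; positivity
  have hPpos : 0 < P := by nlinarith
  have hJpos : 0 < Jr := lt_of_lt_of_le hPpos h4
  have h5 : (3 - d) * Er < 2 * Real.sin ((3 - d) * π / 18) * Jr := by
    calc (3 - d) * Er < (3 - d) * (2 * 0.174 * P) := by gcongr
      _ = 2 * (0.174 * (3 - d)) * P := by ring
      _ ≤ 2 * Real.sin ((3 - d) * π / 18) * Jr := by
          have hsn : 0 ≤ Real.sin ((3 - d) * π / 18) := le_trans (by positivity) hs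
          gcongr
  have h6 := (abs_le.1 h1).2
  have : c d (3 * m + 2) < 0 := by linarith
  exact this.le

end Pool.Agent.Lib.MP_067a7d_co
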