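import Pool.Agent.Lib.MP_067a7d_co.Sound

namespace Pool.Agent.Lib.MP_067a7d_co

open Finset

/-- starting digit of the packed sequence of `2 ^ 64 c_d(n)` -/
noncomputable def IA : ℕ := Nat.add OO (Nat.pow 2 64)

lemma IA_eq : (IA : ℝ) - (OO : ℝ) = 2 ^ 64 := by
  have : IA = OO + 2 ^ 64 := by
    unfold IA; rw [Nat.add_eq, Nat.pow_eq]
  rw [this]; push_cast; ring

noncomputable def exactRow (G P n : ℕ) : Bool :=
  Nat.beq (Nat.add (Nat.mul (Nat.succ n) (dg G (Nat.succ n))) (Nat.mul 3 (dg P (Nat.succ n))))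
    (Nat.mul OO (Nat.add (Nat.succ n) (Nat.mul 3 (dg S1 (Nat.succ n)))))

noncomputable def exactOK (G N : ℕ) : Bool :=
  cond (okNum G) (cond (Nat.beq (dg G 0) IA) (allB (fun n => exactRow G (Nat.mul G SS) n) N) false)
    false

noncomputable def G3 (N : ℕ) : ℕ := comp 3 1 (Nat.mul GO SS) IA N

/-- the test for the centre `3` -/
noncomputable def check3 (a b N : ℕ) (fl sg : ℕ → Bool) : Bool :=
  (fun G => cond (exactOK G N) (check 3 1 a b N OO G fl sg) false) (G3 N)

attribute [local irreducible] SS ON S1 OO AL BM GO dg dig IA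

lemma check_eq (p Q a b N init G : ℕ) (fl sg : ℕ → Bool) : check p Q a b N init G fl sg
    = checkWith p Q a b N init G fl sg (Aseq p Q G init N) (Pprev p Q G init N)
      (compU p Q a b (compV (Aseq p Q G init N 7) N) N) (compV (Aseq p Q G init N 7) N) := by
  unfold check
  rfl

lemma Pprev_zero (p Q G init N : ℕ) : Pprev p Q G init N 0 = G * SS := by
  have h : Pprev p Q G init N 0 = Nat.mul G SS := rfl
  rw [h, Nat.mul_eq]

lemma Pprev_succ (p Q G init N k : ℕ) :
    Pprev p Q G init N (k + 1) = Aseq p Q G init N k * SS := by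
  have h : Pprev p Q G init N (k + 1) = Nat.mul (Aseq p Q G init N k) SS := rfl
  rw [h, Nat.mul_eq]

lemma tv_GO {n : ℕ} (hn : n < 441) : tv GO n = 0 := by
  obtain ⟨-, -, -, h, -, -⟩ := base_facts
  unfold tv
  rw [h n hn, sub_self]

theorem caseA {p Q a b N : ℕ} {fl sg : ℕ → Bool} (hQ : 0 < Q) (hb : 0 < b) (hab : 2 * a ≤ b)
    (hN : N ≤ 440) (h : check p Q a b N IA GO fl sg = true) {d : ℝ}
    (hd : |d - (p : ℝ) / Q| ≤ (a : ℝ) / b) :
    ∀ n ≤ N, fl n = true → (sg n = true → 0 < c d n) ∧ (sg n = false → c d n < 0) := by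
  rw [check_eq] at h
  have main := check_sound hQ hb hab hN (Pprev_zero p Q GO IA N) (Pprev_succ p Q GO IA N) h hd
    (fun n => 2 ^ 64 * c d n) (by rw [IA_eq, c_zero, mul_one])
    (by
      intro n hn
      have e0 : ∑ q ∈ antidiagonal n, (s (q.1 + 1) : ℝ) * tv GO q.2 = 0 := by
        apply Finset.sum_eq_zero
        intro q hq
        have hq' := HasAntidiagonal.mem_antidiagonal.1 hq
        rw [tv_GO (by omega), mul_zero]
      rw [e0, sub_zero]
      have e1 := c_succ d n
      have e2 : ∑ q ∈ antidiagonal n, (s (q.1 + 1) : ℝ) * (2 ^ 64 * c d q.2)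
          = 2 ^ 64 * ∑ q ∈ antidiagonal n, (s (q.1 + 1) : ℝ) * c d q.2 := by
        rw [Finset.mul_sum]
        apply Finset.sum_congr rfl
        intro q _; ring
      rw [e2]
      have e3 : ((n : ℝ) + 1) * (2 ^ 64 * c d (n + 1)) = 2 ^ 64 * (((n : ℝ) + 1) * c d (n + 1)) := by
        ring
      rw [e3, e1]
      ring)
  intro n hn hf
  have h2 := main n hn hf
  refine ⟨fun hs => ?_, fun hs => ?_⟩
  · have := h2.1 hs
    exact (mul_pos_iff_of_pos_left (by positivity)).1 this
  · have := h2.2 hs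
    by_contra hcon
    push Not at hcon
    have : (0 : ℝ) ≤ 2 ^ 64 * c d n := by positivity
    linarith

lemma exact_sound {G N : ℕ} (hN : N ≤ 440) (h : exactOK G N = true) :
    ∀ n ≤ N, tv G n = 2 ^ 64 * c 3 n := by
  unfold exactOK at h
  rw [cond_false_iff, cond_false_iff, allB_iff, Nat.beq_eq] at h
  obtain ⟨hG, h0, hr⟩ := h
  intro n
  induction n using Nat.strong_induction_on with
  | _ n ih =>
    intro hn
    rcases Nat.eq_zero_or_pos n with hz | hz
    · subst hz
      unfold tv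
      rw [h0, IA_eq, c_zero, mul_one]
    obtain ⟨n, rfl⟩ : ∃ m, n = m + 1 := ⟨n - 1, by omega⟩
    have h1 := hr n (by omega)
    unfold exactRow at h1
    rw [Nat.beq_eq] at h1
    simp only [Nat.add_eq, Nat.mul_eq, Nat.succ_eq_add_one] at h1
    have h2 : ((((n + 1) * dg G (n + 1) + 3 * dg (G * SS) (n + 1) : ℕ)) : ℝ)
        = ((OO * ((n + 1) + 3 * dg S1 (n + 1)) : ℕ) : ℝ) := by rw [h1]
    push_cast at h2
    have h3 := conv_tv hG (show n < 440 by omega)
    have h4 : ∑ p ∈ antidiagonal n, (s (p.1 + 1) : ℝ) * tv G p.2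
        = 2 ^ 64 * ∑ p ∈ antidiagonal n, (s (p.1 + 1) : ℝ) * c 3 p.2 := by
      rw [Finset.mul_sum]
      apply Finset.sum_congr rfl
      intro q hq
      have hq' := HasAntidiagonal.mem_antidiagonal.1 hq
      rw [ih q.2 (by omega) (by omega)]; ring
    rw [h4] at h3
    have h5 := c_succ 3 n
    have h6 : (dg G (n + 1) : ℝ) = tv G (n + 1) + OO := by unfold tv; ring
    rw [h6] at h2
    have h7 : ((n : ℝ) + 1) * tv G (n + 1) = ((n : ℝ) + 1) * (2 ^ 64 * c 3 (n + 1)) := by
      linear_combination h2 - 3 * h3 - 2 ^ 64 * h5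
    exact mul_left_cancel₀ (by positivity) h7

theorem caseB {a b N : ℕ} {fl : ℕ → Bool} (hb : 0 < b) (hab : 2 * a ≤ b) (hN : N ≤ 440)
    (h : check3 a b N fl (fun _ => true) = true) {d : ℝ} (hd : |d - 3| ≤ (a : ℝ) / b)
    (hd3 : d < 3) : ∀ n ≤ N, fl n = true → c d n < c 3 n := by
  have h' : cond (exactOK (G3 N) N) (check 3 1 a b N OO (G3 N) fl (fun _ => true)) false = true := by
    unfold check3 at h
    exact h
  rw [cond_false_iff] at h'
  obtain ⟨hex, hc⟩ := h'
  generalize G3 N = G at *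
  have hG := exact_sound hN hex
  rw [check_eq] at hc
  have hx0 : d - 3 ≠ 0 := by intro h0; linarith
  have main := check_sound (by norm_num) hb hab hN (Pprev_zero 3 1 G OO N)
    (Pprev_succ 3 1 G OO N) hc hd
    (fun n => 2 ^ 64 * (c d n - c 3 n) / (d - 3))
    (by simp only [c_zero, sub_self, mul_zero, zero_div])
    (by
      intro n hn
      have e1 := c_succ d n
      have e2 := c_succ 3 n
      have e0 : ∑ q ∈ antidiagonal n, (s (q.1 + 1) : ℝ) * tv G q.2
          = 2 ^ 64 * ∑ q ∈ antidiagonal n, (s (q.1 + 1) : ℝ) * c 3 q.2 := by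
        rw [Finset.mul_sum]
        apply Finset.sum_congr rfl
        intro q hq
        have hq' := HasAntidiagonal.mem_antidiagonal.1 hq
        rw [hG q.2 (by omega)]; ring
      have e3 : ∑ q ∈ antidiagonal n, (s (q.1 + 1) : ℝ) * (2 ^ 64 * (c d q.2 - c 3 q.2) / (d - 3))
          = 2 ^ 64 * (∑ q ∈ antidiagonal n, (s (q.1 + 1) : ℝ) * c d q.2
            - ∑ q ∈ antidiagonal n, (s (q.1 + 1) : ℝ) * c 3 q.2) / (d - 3) := by
        rw [← Finset.sum_sub_distrib, Finset.mul_sum, Finset.sum_div]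
        apply Finset.sum_congr rfl
        intro q _; ring
      rw [e0, e3]
      field_simp
      push_cast
      linear_combination e1 - e2)
  intro n hn hf
  have h2 := (main n hn hf).1 rfl
  have h3 : d - 3 < 0 := by linarith
  by_contra hcon
  push Not at hcon
  have h4 : (0 : ℝ) ≤ 2 ^ 64 * (c d n - c 3 n) := mul_nonneg (by positivity) (by linarith)
  have h5 := div_nonpos_of_nonneg_of_nonpos h4 h3.le
  linarith

end Pool.Agent.Lib.MP_067a7d_co
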