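import Pool.Agent.Lib.MP_067a7d_co.Kron

namespace Pool.Agent.Lib.MP_067a7d_co

open Finset

/-- geometric packed number: `sum_{k=1}^{N/m} 2^(W m k)` -/
noncomputable def geo (N m : ℕ) : ℕ :=
  Nat.rec 0 (fun k acc => Nat.add acc (Nat.shiftLeft 1 (Nat.mul 128 (Nat.mul m (Nat.succ k)))))
    (Nat.div N m)

noncomputable def packS (N : ℕ) : ℕ :=
  Nat.rec 0 (fun m acc => cond (Nat.beq (Nat.mod (Nat.succ m) 3) 0) acc
    (Nat.add acc (Nat.mul (Nat.succ m) (geo N (Nat.succ m))))) N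

noncomputable def ones (N : ℕ) : ℕ :=
  Nat.rec 1 (fun k acc => Nat.add acc (Nat.shiftLeft 1 (Nat.mul 128 (Nat.succ k)))) N

noncomputable def SS : ℕ := packS 440
noncomputable def ON : ℕ := ones 440
noncomputable def S1 : ℕ := Nat.mul ON SS
noncomputable def OO : ℕ := Nat.pow 2 99
noncomputable def AL : ℕ := Nat.pow 2 100
noncomputable def BM : ℕ := Nat.pow 2 56448

noncomputable def dg (x n : ℕ) : ℕ := dig 128 x n

/-- packed constant sequence `OO` -/
noncomputable def GO : ℕ := Nat.mul OO ON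

noncomputable def okNum (A : ℕ) : Bool :=
  cond (Nat.ble (Nat.succ A) BM) (allB (fun n => Nat.ble (Nat.succ (dg A n)) AL) 441) false

noncomputable def baseCheck : Bool :=
  cond (Nat.ble (Nat.succ SS) BM) (cond (allB (fun n => Nat.beq (dg SS n) (sf n)) 441)
    (cond (allB (fun n => Nat.beq (dg ON n) 1) 441)
      (cond (allB (fun n => Nat.beq (dg GO n) OO) 441)
        (cond (okNum ON) (okNum GO) false) false) false) false) false

set_option maxRecDepth 1000000 in
theorem baseCheck_true : baseCheck = true := by decide +kernel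


/-- one packed Taylor coefficient sequence (no property of it is used) -/
noncomputable def comp (p Q Pm init N : ℕ) : ℕ :=
  Nat.rec init (fun n A => Nat.add A (Nat.shiftLeft
    (Nat.div (Nat.sub
        (Nat.mul OO (Nat.add (Nat.mul (Nat.succ n) Q) (Nat.mul (Nat.add p Q) (dg S1 (Nat.succ n)))))
        (Nat.add (Nat.mul p (dg (Nat.mul A SS) (Nat.succ n))) (Nat.mul Q (dg Pm (Nat.succ n)))))
      (Nat.mul (Nat.succ n) Q)) (Nat.mul 128 (Nat.succ n)))) N

noncomputable def Aseq (p Q G init N k : ℕ) : ℕ :=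
  Nat.rec (comp p Q (Nat.mul G SS) init N) (fun _ A => comp p Q (Nat.mul A SS) OO N) k

noncomputable def Pprev (p Q G init N k : ℕ) : ℕ :=
  Nat.rec (Nat.mul G SS) (fun k _ => Nat.mul (Aseq p Q G init N k) SS) k

noncomputable def absd (x : ℕ) : ℕ := Nat.add (Nat.sub x OO) (Nat.sub OO x)

noncomputable def compV (A N : ℕ) : ℕ :=
  Nat.rec 0 (fun n V => Nat.add V (Nat.shiftLeft (absd (dg A n)) (Nat.mul 128 n))) (Nat.succ N)

noncomputable def compU (p Q a b V N : ℕ) : ℕ :=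
  Nat.rec 0 (fun n U => Nat.add U (Nat.shiftLeft
    (Nat.add 3 (Nat.div (Nat.add
        (Nat.mul (Nat.mul (Nat.add (Nat.mul p b) (Nat.mul Q a)) (Nat.pow b 7)) (dg (Nat.mul U SS) (Nat.succ n)))
        (Nat.mul (Nat.mul Q (Nat.pow a 8)) (dg (Nat.mul V SS) (Nat.succ n))))
      (Nat.mul (Nat.mul (Nat.succ n) Q) (Nat.pow b 8)))) (Nat.mul 128 (Nat.succ n)))) N

/-- residual test for one Taylor coefficient -/
noncomputable def stepOK (p Q A Pk Pm n : ℕ) : Bool :=
  (fun X Y D => cond (Nat.ble X (Nat.add Y D)) (Nat.ble Y (Nat.add X D)) false)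
    (Nat.add (Nat.mul (Nat.mul (Nat.succ n) Q) (dg A (Nat.succ n)))
      (Nat.add (Nat.mul p (dg Pk (Nat.succ n))) (Nat.mul Q (dg Pm (Nat.succ n)))))
    (Nat.mul OO (Nat.add (Nat.mul (Nat.succ n) Q) (Nat.mul (Nat.add p Q) (dg S1 (Nat.succ n)))))
    (Nat.mul (Nat.succ n) Q)

noncomputable def uOK (p Q a b U PU PV n : ℕ) : Bool :=
  Nat.ble (Nat.add (Nat.add
        (Nat.mul (Nat.mul (Nat.add (Nat.mul p b) (Nat.mul Q a)) (Nat.pow b 7)) (dg PU (Nat.succ n)))
        (Nat.mul (Nat.mul Q (Nat.pow a 8)) (dg PV (Nat.succ n))))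
      (Nat.mul (Nat.mul (Nat.mul 2 (Nat.succ n)) Q) (Nat.pow b 8)))
    (Nat.mul (Nat.mul (Nat.mul (Nat.succ n) (dg U (Nat.succ n))) Q) (Nat.pow b 8))

noncomputable def sumB (f : ℕ → ℕ) (K : ℕ) : ℕ := Nat.rec 0 (fun k acc => Nat.add acc (f k)) K

noncomputable def Hr (a b : ℕ) (A : ℕ → ℕ) (U n : ℕ) : ℕ :=
  Nat.add (sumB (fun k => Nat.mul (Nat.mul (Nat.pow a (Nat.succ k)) (Nat.pow b (Nat.sub 6 k)))
    (absd (dg (A (Nat.succ k)) n))) 7) (Nat.mul (dg U n) (Nat.pow b 7))

noncomputable def signOK (a b : ℕ) (A : ℕ → ℕ) (U : ℕ) (fl sg : ℕ → Bool) (n : ℕ) : Bool :=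
  cond (fl n) (cond (sg n)
    (Nat.ble (Nat.succ (Nat.add (Nat.mul OO (Nat.pow b 7)) (Hr a b A U n)))
      (Nat.mul (dg (A 0) n) (Nat.pow b 7)))
    (Nat.ble (Nat.succ (Nat.add (Nat.mul (dg (A 0) n) (Nat.pow b 7)) (Hr a b A U n)))
      (Nat.mul OO (Nat.pow b 7)))) true

noncomputable def checkWith (p Q a b N init G : ℕ) (fl sg : ℕ → Bool) (A PP : ℕ → ℕ) (U V : ℕ) : Bool :=
  cond (okNum G) (cond (okNum U) (cond (okNum V)
    (cond (allB (fun k => okNum (A k)) 8)
      (cond (allB (fun k => allB (fun n => stepOK p Q (A k) (Nat.mul (A k) SS) (PP k) n) N) 8)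
        (cond (Nat.beq (dg (A 0) 0) init)
          (cond (allB (fun k => Nat.beq (dg (A (Nat.succ k)) 0) OO) 7)
            (cond (allB (fun n => Nat.ble (absd (dg (A 7) n)) (dg V n)) (Nat.succ N))
              (cond (allB (fun n => uOK p Q a b U (Nat.mul U SS) (Nat.mul V SS) n) N)
                (allB (fun n => signOK a b A U fl sg n) (Nat.succ N)) false) false) false) false)
        false) false) false) false) false

noncomputable def check (p Q a b N init G : ℕ) (fl sg : ℕ → Bool) : Bool :=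
  (fun A PP => (fun V => (fun U => checkWith p Q a b N init G fl sg A PP U V)
    (compU p Q a b V N)) (compV (A 7) N))
    (Aseq p Q G init N) (Pprev p Q G init N)

noncomputable def fl1 (n : ℕ) : Bool :=
  cond (Nat.beq n 3) false (cond (Nat.beq n 5) false (Nat.ble 1 n))
noncomputable def sg1 (n : ℕ) : Bool := Nat.beq (Nat.mod n 3) 0

end Pool.Agent.Lib.MP_067a7d_co
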