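import Pool.Agent.Lib.MP_067a7d_co.Minor

namespace Pool.Agent.Lib.MP_067a7d_co

open Complex Finset
open scoped Real

/-- integrand -/
noncomputable def H (d : ℝ) (n : ℕ) (y x : ℝ) : ℂ :=
  Complex.exp (d * L (qq (x + I * y)) - 2 * π * I * n * (x + I * y))

lemma im_xy (x y : ℝ) : ((x : ℂ) + I * y).im = y := by simp

lemma continuous_H (d : ℝ) (n : ℕ) {y : ℝ} (hy : 0 < y) : Continuous (H d n y) := by
  unfold H
  have h1 : Continuous fun x : ℝ => L (qq ((x : ℂ) + I * y)) := by
    rw [continuous_iff_continuousAt]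
    intro x
    have h2 : ContinuousAt (fun z => L (qq z)) ((x : ℂ) + I * y) :=
      (differentiableAt_Lqq (by rw [im_xy]; exact hy)).continuousAt
    exact ContinuousAt.comp (f := fun x : ℝ => (x : ℂ) + I * y) h2 (by fun_prop)
  fun_prop

lemma integral_unit (k : ℤ) (y : ℝ) (hk : k ≠ 0) :
    ∫ x in (0 : ℝ)..1, Complex.exp (2 * π * I * k * (x + I * y)) = 0 := by
  have h1 : ∀ x : ℝ, Complex.exp (2 * π * I * k * (x + I * y))
      = Complex.exp (2 * π * I * k * (I * y)) * Complex.exp ((2 * π * I * k) * x) := by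
    intro x; rw [← Complex.exp_add]; congr 1; ring
  simp only [h1]
  rw [intervalIntegral.integral_const_mul]
  have hne : (2 * π * I * k : ℂ) ≠ 0 := by
    have : (k : ℂ) ≠ 0 := by exact_mod_cast hk
    have hpi : (π : ℂ) ≠ 0 := by exact_mod_cast Real.pi_ne_zero
    simp [this]
  rw [integral_exp_mul_complex hne]
  have h2 : Complex.exp (2 * π * I * k * (1 : ℝ)) = 1 := by
    rw [Complex.exp_eq_one_iff]
    exact ⟨k, by push_cast; ring⟩
  rw [h2]
  simp

lemma coef_integral (d : ℝ) (n : ℕ) {y : ℝ} (hy : 0 < y) :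
    (c d n : ℂ) = ∫ x in (0 : ℝ)..1, H d n y x := by
  let Fm : ℕ → ℝ → ℂ := fun m x =>
    (c d m : ℂ) * Complex.exp (2 * π * I * ((m : ℤ) - (n : ℤ) : ℤ) * (x + I * y))
  have hnorm : ∀ (m : ℕ) (x : ℝ), ‖Fm m x‖
      = ‖(c d m : ℂ) * (Complex.exp (-(2 * π * y)) : ℂ) ^ m‖ * Real.exp (2 * π * n * y) := by
    intro m x
    simp only [Fm]
    rw [norm_mul, norm_mul, norm_pow, Complex.norm_exp, Complex.norm_exp,
      mul_assoc ‖(c d m : ℂ)‖ (Real.exp _ ^ m), ← Real.exp_nat_mul, ← Real.exp_add]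
    congr 2
    have h1 : (2 * π * I * ((m : ℤ) - (n : ℤ) : ℤ) * (x + I * y) : ℂ)
        = ((2 * π * ((m : ℝ) - n) : ℝ) : ℂ) * (I * (x + I * y)) := by push_cast; ring
    have h2 : (-(2 * π * y) : ℂ) = ((-(2 * π * y) : ℝ) : ℂ) := by push_cast; ring
    rw [h1, h2, Complex.re_ofReal_mul, Complex.ofReal_re]
    simp
    ring
  have hqlt : ‖(Complex.exp (-(2 * π * y)) : ℂ)‖ < 1 := by
    rw [Complex.norm_exp]
    have h2 : (-(2 * π * y) : ℂ) = ((-(2 * π * y) : ℝ) : ℂ) := by push_cast; ring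
    rw [h2, Complex.ofReal_re, Real.exp_lt_one_iff]
    have := Real.pi_pos
    have : 0 < 2 * π * y := by positivity
    linarith
  have hsum := (temp_c d).summable_norm hqlt
  have hlim : ∀ x : ℝ, HasSum (fun m => Fm m x) (H d n y x) := by
    intro x
    have hq : ‖qq ((x : ℂ) + I * y)‖ < 1 := norm_qq_lt (by rw [im_xy]; exact hy)
    have h1 := (hasSum_c d hq).mul_right (Complex.exp (-(2 * π * I * n * (x + I * y))))
    have h2 : Complex.exp (d * L (qq (x + I * y))) * Complex.exp (-(2 * π * I * n * (x + I * y)))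
        = H d n y x := by
      unfold H; rw [← Complex.exp_add]; rfl
    rw [h2] at h1
    have h3 : (fun m => Fm m x) = fun i => (c d i : ℂ) * qq (↑x + I * ↑y) ^ i *
        Complex.exp (-(2 * ↑π * I * ↑n * (↑x + I * ↑y))) := by
      ext m
      simp only [Fm]
      rw [mul_assoc (c d m : ℂ)]
      congr 1
      unfold qq
      rw [← Complex.exp_nat_mul, ← Complex.exp_add]
      congr 1
      push_cast; ring
    rw [h3]
    exact h1
  have hcont : ∀ m, Continuous (Fm m) := by
    intro m; simp only [Fm]; fun_prop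
  have key := intervalIntegral.hasSum_integral_of_dominated_convergence
    (μ := MeasureTheory.volume) (a := 0) (b := 1) (F := Fm) (f := H d n y)
    (fun m _ => ‖(c d m : ℂ) * (Complex.exp (-(2 * π * y)) : ℂ) ^ m‖ * Real.exp (2 * π * n * y))
    (fun m => (hcont m).aestronglyMeasurable)
    (fun m => Filter.Eventually.of_forall fun x _ => (hnorm m x).le)
    (Filter.Eventually.of_forall fun x _ => hsum.mul_right _)
    (by simp)
    (Filter.Eventually.of_forall fun x _ => hlim x)
  have hint : ∀ m, ∫ x in (0 : ℝ)..1, Fm m x = if m = n then (c d n : ℂ) else 0 := by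
    intro m
    simp only [Fm]
    rw [intervalIntegral.integral_const_mul]
    split_ifs with h
    · subst h; simp
    · rw [integral_unit _ y (by omega)]; simp
  simp only [hint] at key
  have h2 := hasSum_ite_eq n (c d n : ℂ)
  exact h2.unique key

lemma l_conj (n : ℕ) : (starRingEnd ℂ) (l n) = l n := by
  unfold l; simp

lemma L_conj (q : ℂ) : L ((starRingEnd ℂ) q) = (starRingEnd ℂ) (L q) := by
  unfold L
  rw [Complex.conj_tsum]
  apply tsum_congr
  intro n
  rw [map_mul, map_pow, l_conj]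

lemma H_symm (d : ℝ) (n : ℕ) (y x : ℝ) : H d n y (1 - x) = (starRingEnd ℂ) (H d n y x) := by
  unfold H
  rw [← Complex.exp_conj]
  have h1 : qq (((1 - x : ℝ) : ℂ) + I * y) = (starRingEnd ℂ) (qq (x + I * y)) := by
    have : (((1 - x : ℝ) : ℂ) + I * y) = (-(x : ℂ) + I * y) + 1 := by push_cast; ring
    rw [this, qq_add_one]
    unfold qq
    rw [← Complex.exp_conj]
    congr 1
    simp [map_ofNat]
    ring
  rw [h1, L_conj]
  have h2 : (2 * π * I * n * (((1 - x : ℝ) : ℂ) + I * y) : ℂ)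
      = 2 * π * I * n * (-(x : ℂ) + I * y) + n * (2 * π * I) := by push_cast; ring
  rw [h2, ← sub_sub, Complex.exp_sub, Complex.exp_nat_mul_two_pi_mul_I, div_one]
  congr 1
  simp [map_ofNat]
  ring

lemma coef_half (d : ℝ) (n : ℕ) {y : ℝ} (hy : 0 < y) :
    c d n = 2 * (∫ x in (0 : ℝ)..(1 / 2), H d n y x).re := by
  have h1 := coef_integral d n hy
  have hc := continuous_H d n hy
  have hi : ∀ a b : ℝ, IntervalIntegrable (H d n y) MeasureTheory.volume a b :=
    fun a b => hc.intervalIntegrable a b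
  rw [← intervalIntegral.integral_add_adjacent_intervals (hi 0 (1 / 2)) (hi (1 / 2) 1)] at h1
  have h2 : ∫ x in (1 / 2 : ℝ)..1, H d n y x
      = (starRingEnd ℂ) (∫ x in (0 : ℝ)..(1 / 2), H d n y x) := by
    rw [← intervalIntegral.intervalIntegral_conj]
    have h3 := intervalIntegral.integral_comp_sub_left (a := 0) (b := 1 / 2)
      (fun x => H d n y x) (1 : ℝ)
    rw [show (1 : ℝ) - 0 = 1 by ring, show (1 : ℝ) - 1 / 2 = 1 / 2 by norm_num] at h3
    rw [← h3]
    apply intervalIntegral.integral_congr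
    intro x _
    exact H_symm d n y x
  rw [h2, Complex.add_conj] at h1
  exact_mod_cast h1

end Pool.Agent.Lib.MP_067a7d_co
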