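import Pool.Agent.Lib.MP_067a7d_co.Basic

namespace Pool.Agent.Lib.MP_067a7d_co

open Finset

lemma geom_le_two {r : ℝ} (hr0 : 0 ≤ r) (hr : r ≤ 1 / 2) (K : ℕ) : ∑ k ∈ range K, r ^ k ≤ 2 := by
  have h : ∀ K : ℕ, ∑ k ∈ range K, r ^ k + 2 * r ^ K ≤ 2 := by
    intro K
    induction K with
    | zero => simp
    | succ K ih =>
      rw [Finset.sum_range_succ]
      have : r ^ (K + 1) ≤ r ^ K * (1 / 2) := by
        rw [pow_succ]; gcongr
      linarith
  have h1 := h K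
  have h2 : 0 ≤ r ^ K := by positivity
  linarith

/-- error propagation for truncated Taylor expansions -/
theorem err_bound {d x r : ℝ} {K N : ℕ} (hd : 0 ≤ d) (hxr : |x| ≤ r) (hr : r ≤ 1 / 2)
    (y g : ℕ → ℝ) (t tp : ℕ → ℕ → ℝ) (u : ℕ → ℝ)
    (htp0 : ∀ n, tp 0 n = g n) (htps : ∀ k n, tp (k + 1) n = t k n)
    (hy : ∀ n < N, ((n : ℝ) + 1) * y (n + 1) = -(d + x) * ∑ p ∈ antidiagonal n, (s (p.1 + 1) : ℝ) * y p.2
      - ∑ p ∈ antidiagonal n, (s (p.1 + 1) : ℝ) * g p.2)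
    (ht : ∀ n < N, ∀ k ≤ K, |((n : ℝ) + 1) * t k (n + 1) + ∑ p ∈ antidiagonal n,
      (s (p.1 + 1) : ℝ) * (d * t k p.2 + tp k p.2)| ≤ (n : ℝ) + 1)
    (h0 : |y 0 - ∑ k ∈ range (K + 1), x ^ k * t k 0| ≤ u 0)
    (hu : ∀ n < N, (d + r) * ∑ p ∈ antidiagonal n, (s (p.1 + 1) : ℝ) * u p.2
      + r ^ (K + 1) * ∑ p ∈ antidiagonal n, (s (p.1 + 1) : ℝ) * |t K p.2| + 2 * ((n : ℝ) + 1)
        ≤ ((n : ℝ) + 1) * u (n + 1)) :
    ∀ n ≤ N, |y n - ∑ k ∈ range (K + 1), x ^ k * t k n| ≤ u n := by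
  have hr0 : 0 ≤ r := (abs_nonneg x).trans hxr
  intro n
  induction n using Nat.strong_induction_on with
  | _ n ih =>
    intro hn
    rcases Nat.eq_zero_or_pos n with h | h
    · subst h; exact h0
    obtain ⟨n, rfl⟩ : ∃ m, n = m + 1 := ⟨n - 1, by omega⟩
    have hnN : n < N := by omega
    have hpos : (0 : ℝ) < (n : ℝ) + 1 := by positivity
    -- the residuals
    let θ : ℕ → ℝ := fun k => ((n : ℝ) + 1) * t k (n + 1) + ∑ p ∈ antidiagonal n,
      (s (p.1 + 1) : ℝ) * (d * t k p.2 + tp k p.2)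
    have hθ : ∀ k ≤ K, |θ k| ≤ (n : ℝ) + 1 := ht n hnN
    have hshift : ∀ m, ∑ k ∈ range (K + 1), x ^ k * tp k m
        = g m + x * (∑ k ∈ range (K + 1), x ^ k * t k m) - x ^ (K + 1) * t K m := by
      intro m
      rw [Finset.sum_range_succ' (fun k => x ^ k * tp k m), htp0, pow_zero, one_mul]
      rw [Finset.sum_range_succ (fun k => x ^ k * t k m)]
      have : ∑ k ∈ range K, x ^ (k + 1) * tp (k + 1) m = x * ∑ k ∈ range K, x ^ k * t k m := by
        rw [Finset.mul_sum]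
        apply Finset.sum_congr rfl
        intro k _
        rw [htps]; ring
      rw [this]; ring
    have key : ((n : ℝ) + 1) * (y (n + 1) - ∑ k ∈ range (K + 1), x ^ k * t k (n + 1))
        = -(d + x) * ∑ p ∈ antidiagonal n, (s (p.1 + 1) : ℝ) *
            (y p.2 - ∑ k ∈ range (K + 1), x ^ k * t k p.2)
          - x ^ (K + 1) * ∑ p ∈ antidiagonal n, (s (p.1 + 1) : ℝ) * t K p.2
          - ∑ k ∈ range (K + 1), x ^ k * θ k := by
      have e1 : ∑ k ∈ range (K + 1), x ^ k * θ k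
          = ((n : ℝ) + 1) * (∑ k ∈ range (K + 1), x ^ k * t k (n + 1))
            + ∑ p ∈ antidiagonal n, (s (p.1 + 1) : ℝ) *
              (d * (∑ k ∈ range (K + 1), x ^ k * t k p.2) + ∑ k ∈ range (K + 1), x ^ k * tp k p.2) := by
        have a1 : ∀ p ∈ antidiagonal n, (s (p.1 + 1) : ℝ) *
              (d * (∑ k ∈ range (K + 1), x ^ k * t k p.2) + ∑ k ∈ range (K + 1), x ^ k * tp k p.2)
            = ∑ k ∈ range (K + 1), x ^ k * ((s (p.1 + 1) : ℝ) * (d * t k p.2 + tp k p.2)) := by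
          intro p _
          rw [Finset.mul_sum, ← Finset.sum_add_distrib, Finset.mul_sum]
          apply Finset.sum_congr rfl
          intro k _; ring
        rw [Finset.sum_congr rfl a1, Finset.sum_comm, Finset.mul_sum, ← Finset.sum_add_distrib]
        apply Finset.sum_congr rfl
        intro k _
        simp only [θ]
        rw [mul_add, Finset.mul_sum]
        ring
      rw [e1, mul_sub, hy n hnN]
      simp only [hshift]
      have a2 : ∀ p ∈ antidiagonal n, (s (p.1 + 1) : ℝ) *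
              (d * (∑ k ∈ range (K + 1), x ^ k * t k p.2) +
                (g p.2 + x * (∑ k ∈ range (K + 1), x ^ k * t k p.2) - x ^ (K + 1) * t K p.2))
            = (d + x) * ((s (p.1 + 1) : ℝ) * ∑ k ∈ range (K + 1), x ^ k * t k p.2)
              + (s (p.1 + 1) : ℝ) * g p.2 - x ^ (K + 1) * ((s (p.1 + 1) : ℝ) * t K p.2) := by
        intro p _; ring
      rw [Finset.sum_congr rfl a2, Finset.sum_sub_distrib, Finset.sum_add_distrib,
        ← Finset.mul_sum, ← Finset.mul_sum]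
      have a3 : ∀ p ∈ antidiagonal n, (s (p.1 + 1) : ℝ) *
            (y p.2 - ∑ k ∈ range (K + 1), x ^ k * t k p.2)
            = (s (p.1 + 1) : ℝ) * y p.2 - (s (p.1 + 1) : ℝ) * ∑ k ∈ range (K + 1), x ^ k * t k p.2 := by
        intro p _; ring
      rw [Finset.sum_congr rfl a3, Finset.sum_sub_distrib]
      ring
    have hdx : |d + x| ≤ d + r := by
      calc |d + x| ≤ |d| + |x| := abs_add_le _ _
        _ ≤ d + r := by rw [abs_of_nonneg hd]; linarith
    have b1 : |∑ p ∈ antidiagonal n, (s (p.1 + 1) : ℝ) *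
            (y p.2 - ∑ k ∈ range (K + 1), x ^ k * t k p.2)|
        ≤ ∑ p ∈ antidiagonal n, (s (p.1 + 1) : ℝ) * u p.2 := by
      refine (Finset.abs_sum_le_sum_abs _ _).trans (Finset.sum_le_sum fun p hp => ?_)
      have hp' := HasAntidiagonal.mem_antidiagonal.1 hp
      rw [abs_mul, abs_of_nonneg (by positivity : (0 : ℝ) ≤ (s (p.1 + 1) : ℝ))]
      exact mul_le_mul_of_nonneg_left (ih p.2 (by omega) (by omega)) (by positivity)
    have b2 : |∑ p ∈ antidiagonal n, (s (p.1 + 1) : ℝ) * t K p.2|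
        ≤ ∑ p ∈ antidiagonal n, (s (p.1 + 1) : ℝ) * |t K p.2| := by
      refine (Finset.abs_sum_le_sum_abs _ _).trans (Finset.sum_le_sum fun p hp => ?_)
      rw [abs_mul, abs_of_nonneg (by positivity : (0 : ℝ) ≤ (s (p.1 + 1) : ℝ))]
    have b3 : |∑ k ∈ range (K + 1), x ^ k * θ k| ≤ 2 * ((n : ℝ) + 1) := by
      calc |∑ k ∈ range (K + 1), x ^ k * θ k| ≤ ∑ k ∈ range (K + 1), |x ^ k * θ k| :=
            Finset.abs_sum_le_sum_abs _ _
        _ ≤ ∑ k ∈ range (K + 1), r ^ k * ((n : ℝ) + 1) := by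
            apply Finset.sum_le_sum
            intro k hk
            rw [abs_mul, abs_pow]
            have := hθ k (by have := Finset.mem_range.1 hk; omega)
            gcongr
        _ = (∑ k ∈ range (K + 1), r ^ k) * ((n : ℝ) + 1) := by rw [Finset.sum_mul]
        _ ≤ 2 * ((n : ℝ) + 1) := by gcongr; exact geom_le_two hr0 hr _
    have hfin : ((n : ℝ) + 1) * |y (n + 1) - ∑ k ∈ range (K + 1), x ^ k * t k (n + 1)|
        ≤ ((n : ℝ) + 1) * u (n + 1) := by
      rw [← abs_of_pos hpos, ← abs_mul, abs_of_pos hpos, key]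
      refine le_trans ?_ (hu n hnN)
      have t1 : |-(d + x) * ∑ p ∈ antidiagonal n, (s (p.1 + 1) : ℝ) *
            (y p.2 - ∑ k ∈ range (K + 1), x ^ k * t k p.2)|
          ≤ (d + r) * ∑ p ∈ antidiagonal n, (s (p.1 + 1) : ℝ) * u p.2 := by
        rw [abs_mul, abs_neg]
        exact mul_le_mul hdx b1 (abs_nonneg _) (by linarith)
      have t2 : |x ^ (K + 1) * ∑ p ∈ antidiagonal n, (s (p.1 + 1) : ℝ) * t K p.2|
          ≤ r ^ (K + 1) * ∑ p ∈ antidiagonal n, (s (p.1 + 1) : ℝ) * |t K p.2| := by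
        rw [abs_mul, abs_pow]
        exact mul_le_mul (pow_le_pow_left₀ (abs_nonneg _) hxr _) b2 (abs_nonneg _) (by positivity)
      have t3 := abs_sub (-(d + x) * ∑ p ∈ antidiagonal n, (s (p.1 + 1) : ℝ) *
            (y p.2 - ∑ k ∈ range (K + 1), x ^ k * t k p.2)
          - x ^ (K + 1) * ∑ p ∈ antidiagonal n, (s (p.1 + 1) : ℝ) * t K p.2)
          (∑ k ∈ range (K + 1), x ^ k * θ k)
      have t4 := abs_sub (-(d + x) * ∑ p ∈ antidiagonal n, (s (p.1 + 1) : ℝ) *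
            (y p.2 - ∑ k ∈ range (K + 1), x ^ k * t k p.2))
          (x ^ (K + 1) * ∑ p ∈ antidiagonal n, (s (p.1 + 1) : ℝ) * t K p.2)
      linarith
    exact le_of_mul_le_mul_left hfin hpos

end Pool.Agent.Lib.MP_067a7d_co
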