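import Pool.Agent.Lib.MP_067a7d_co.Case

namespace Pool.Agent.Lib.MP_067a7d_co

set_option maxRecDepth 1000000 in
theorem ins3 : check 773 2000 19 500 284 IA GO fl1 sg1 = true := by decide +kernel

set_option maxRecDepth 1000000 in
theorem ins4 : check 471 1000 93 2000 233 IA GO fl1 sg1 = true := by decide +kernel

set_option maxRecDepth 1000000 in
theorem ins5 : check 287 500 113 2000 191 IA GO fl1 sg1 = true := by decide +kernel

set_option maxRecDepth 1000000 in
theorem ins6 : check 1399 2000 69 1000 157 IA GO fl1 sg1 = true := by decide +kernel

set_option maxRecDepth 1000000 in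
theorem ins7 : check 853 1000 169 2000 129 IA GO fl1 sg1 = true := by decide +kernel

set_option maxRecDepth 1000000 in
theorem ins8 : check 2081 2000 103 1000 106 IA GO fl1 sg1 = true := by decide +kernel

end Pool.Agent.Lib.MP_067a7d_co
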