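import Pool.Agent.Lib.MP_067a7d_co.Case

namespace Pool.Agent.Lib.MP_067a7d_co

/-- classes `0` and `1`, without `n = 3` -/
noncomputable def fl01 (n : ℕ) : Bool :=
  cond (Nat.beq n 3) false (cond (Nat.beq (Nat.mod n 3) 2) false (Nat.ble 1 n))

/-- class `2`, without `n = 5` -/
noncomputable def fl2 (n : ℕ) : Bool :=
  cond (Nat.beq n 5) false (Nat.beq (Nat.mod n 3) 2)

set_option maxRecDepth 1000000 in
theorem ins9 : check 223 100 23 100 50 IA GO fl01 sg1 = true := by decide +kernel

set_option maxRecDepth 1000000 in
theorem ins10 : check 549 200 57 200 41 IA GO fl01 sg1 = true := by decide +kernel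

set_option maxRecDepth 1000000 in
theorem ins11 : check 23 10 3 10 50 IA GO fl2 sg1 = true := by decide +kernel

set_option maxRecDepth 1000000 in
theorem ins12 : check 559 200 39 200 39 IA GO fl2 sg1 = true := by decide +kernel

set_option maxRecDepth 1000000 in
theorem ins13 : check 287 100 3 25 91 IA GO fl2 sg1 = true := by decide +kernel

set_option maxRecDepth 1000000 in
theorem ins14 : check3 1 10 90 fl2 (fun _ => true) = true := by decide +kernel

end Pool.Agent.Lib.MP_067a7d_co
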