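import Pool.Agent.Lib.MP_067a7d_co.Coef

namespace Pool.Agent.Lib.MP_067a7d_co

open Complex Finset
open scoped Real

/-- finite product -/
noncomputable def Q (q : ℂ) (n : ℕ) : ℂ := ∏ j ∈ range n, (1 - q ^ (j + 1))

lemma Q_succ (q : ℂ) (n : ℕ) : Q q (n + 1) = Q q n * (1 - q ^ (n + 1)) := by
  unfold Q; rw [Finset.prod_range_succ]

lemma Q_ne_zero {q : ℂ} (hq : ‖q‖ < 1) (n : ℕ) : Q q n ≠ 0 := by
  unfold Q
  rw [Finset.prod_ne_zero_iff]
  intro j _
  exact one_sub_pow_ne_zero hq j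

/-- reciprocal of the finite product, extended by zero -/
noncomputable def R (q : ℂ) : ℤ → ℂ
  | Int.ofNat n => 1 / Q q n
  | Int.negSucc _ => 0

lemma R_nat (q : ℂ) (n : ℕ) : R q (n : ℤ) = 1 / Q q n := rfl

lemma R_neg (q : ℂ) {n : ℤ} (hn : n < 0) : R q n = 0 := by
  cases n with
  | ofNat n => exfalso; simp at hn; omega
  | negSucc n => rfl

lemma R_rec {q : ℂ} (hq : ‖q‖ < 1) (n : ℤ) : R q (n - 1) = (1 - q ^ n) * R q n := by
  rcases lt_trichotomy n 0 with h | h | h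
  · rw [R_neg q h, R_neg q (by omega)]; simp
  · subst h; rw [R_neg q (by norm_num)]; simp
  · obtain ⟨m, rfl⟩ : ∃ m : ℕ, n = (m : ℤ) + 1 := ⟨(n - 1).toNat, by omega⟩
    rw [add_sub_cancel_right, R_nat]
    have h1 : R q ((m : ℤ) + 1) = 1 / Q q (m + 1) := by
      rw [← R_nat]; push_cast; rfl
    rw [h1, Q_succ]
    have h2 := Q_ne_zero hq m
    have h3 := one_sub_pow_ne_zero hq m
    have h4 : q ^ ((m : ℤ) + 1) = q ^ (m + 1) := by
      rw [← zpow_natCast]; push_cast; rfl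
    rw [h4]
    field_simp

/-- triangular numbers on the integers -/
def tri (m : ℤ) : ℤ := m * (m + 1) / 2

lemma tri_succ (m : ℤ) : tri (m + 1) = tri m + (m + 1) := by
  unfold tri
  rw [show (m + 1) * (m + 1 + 1) = m * (m + 1) + (m + 1) * 2 by ring,
    Int.add_mul_ediv_right _ _ (by norm_num)]

lemma tri_pred (m : ℤ) : tri (m - 1) = tri m - m := by
  have := tri_succ (m - 1)
  rw [sub_add_cancel] at this
  linarith

lemma two_tri (m : ℤ) : 2 * tri m = m * (m + 1) := by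
  unfold tri
  have h : (2 : ℤ) ∣ m * (m + 1) := (Int.even_mul_succ_self m).two_dvd
  exact Int.mul_ediv_cancel' h

lemma tri_nonneg (m : ℤ) : 0 ≤ tri m := by
  have := two_tri m
  rcases le_or_gt 0 m with h | h <;> nlinarith

/-- term of the finite sum -/
noncomputable def tm (q : ℂ) (N : ℕ) (m : ℤ) : ℂ :=
  (-1) ^ m * (2 * m + 1) * q ^ tri m * (R q (N - m) * R q (N + m + 1))

lemma tm_support (q : ℂ) (N : ℕ) (m : ℤ) (h : m ∉ Finset.Icc (-(N : ℤ) - 1) N) : tm q N m = 0 := by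
  rw [Finset.mem_Icc] at h
  unfold tm
  rcases lt_or_ge m (-(N : ℤ) - 1) with h1 | h1
  · rw [R_neg q (n := N + m + 1) (by omega)]; simp
  · rw [R_neg q (n := N - m) (by omega)]; simp

lemma summable_tm (q : ℂ) (N : ℕ) : Summable (tm q N) :=
  summable_of_ne_finset_zero (s := Finset.Icc (-(N : ℤ) - 1) N) (fun m hm => tm_support q N m hm)

/-- key rational identity -/
lemma tm_step {q : ℂ} (hq : ‖q‖ < 1) (hq0 : q ≠ 0) (N : ℕ) (m : ℤ) :
    (1 - q ^ (2 * N + 2)) * (1 - q ^ (2 * N + 3)) * tm q (N + 1) m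
      = (-1) ^ m * (2 * m + 1) * q ^ tri m * ((1 + q ^ (2 * N + 2)) * (R q (N - m) * R q (N + m + 1))
        + q ^ ((N : ℤ) + 1 - m) * (R q (N - (m - 1)) * R q (N + (m - 1) + 1))
        + q ^ ((N : ℤ) + 2 + m) * (R q (N - (m + 1)) * R q (N + (m + 1) + 1))) := by
  unfold tm
  have e1 : ((N + 1 : ℕ) : ℤ) - m = (N : ℤ) - m + 1 := by push_cast; ring
  have e2 : ((N + 1 : ℕ) : ℤ) + m + 1 = (N : ℤ) + m + 1 + 1 := by push_cast; ring
  rw [e1, e2]
  -- express everything through `r1 = R (a+1)`, `r2 = R (b+1)`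
  obtain ⟨a, ha⟩ : ∃ a : ℤ, a = (N : ℤ) - m := ⟨_, rfl⟩
  obtain ⟨b, hb⟩ : ∃ b : ℤ, b = (N : ℤ) + m + 1 := ⟨_, rfl⟩
  have f1 : (N : ℤ) - (m - 1) = a + 1 := by rw [ha]; ring
  have f2 : (N : ℤ) + (m - 1) + 1 = b - 1 := by rw [hb]; ring
  have f3 : (N : ℤ) - (m + 1) = a - 1 := by rw [ha]; ring
  have f4 : (N : ℤ) + (m + 1) + 1 = b + 1 := by rw [hb]; ring
  rw [f1, f2, f3, f4, ← ha, ← hb]
  have g1 : R q a = (1 - q ^ (a + 1)) * R q (a + 1) := by
    have := R_rec hq (a + 1); rwa [add_sub_cancel_right] at this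
  have g2 : R q b = (1 - q ^ (b + 1)) * R q (b + 1) := by
    have := R_rec hq (b + 1); rwa [add_sub_cancel_right] at this
  have g3 : R q (a - 1) = (1 - q ^ a) * R q a := R_rec hq a
  have g4 : R q (b - 1) = (1 - q ^ b) * R q b := R_rec hq b
  rw [g3, g4, g1, g2]
  have h1 : q ^ (a + 1) = q ^ a * q := zpow_add_one₀ hq0 a
  have h2 : q ^ (b + 1) = q ^ b * q := zpow_add_one₀ hq0 b
  have h3 : q ^ ((N : ℤ) + 1 - m) = q ^ a * q := by
    rw [← h1, ha]; congr 1 <;> ring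
  have h4 : q ^ ((N : ℤ) + 2 + m) = q ^ b * q := by
    rw [← h2, hb]; congr 1 <;> ring
  have h5 : q ^ (2 * N + 2) = q ^ a * q ^ b * q := by
    rw [← zpow_natCast, ← zpow_add₀ hq0, ← zpow_add_one₀ hq0, ha, hb]
    congr 1; push_cast; ring
  have h6 : q ^ (2 * N + 3) = q ^ a * q ^ b * q * q := by
    rw [← h5]; exact pow_succ q (2 * N + 2)
  rw [h3, h4, h5, h6, h1, h2]
  ring

/-- recursion of the finite sums -/
lemma T_rec {q : ℂ} (hq : ‖q‖ < 1) (hq0 : q ≠ 0) (N : ℕ) :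
    (1 - q ^ (2 * N + 2)) * (1 - q ^ (2 * N + 3)) * ∑' m, tm q (N + 1) m
      = (1 - q ^ (N + 1)) ^ 2 * ∑' m, tm q N m := by
  rw [← tsum_mul_left]
  simp only [tm_step hq hq0 N]
  let A : ℤ → ℂ := fun m => (-1) ^ m * (2 * m + 1) * q ^ tri m *
    ((1 + q ^ (2 * N + 2)) * (R q (N - m) * R q (N + m + 1)))
  let B : ℤ → ℂ := fun m => (-1) ^ m * (2 * m + 1) * q ^ tri m *
    (q ^ ((N : ℤ) + 1 - m) * (R q (N - (m - 1)) * R q (N + (m - 1) + 1)))
  let C : ℤ → ℂ := fun m => (-1) ^ m * (2 * m + 1) * q ^ tri m *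
    (q ^ ((N : ℤ) + 2 + m) * (R q (N - (m + 1)) * R q (N + (m + 1) + 1)))
  have hsplit : ∀ m : ℤ, (-1) ^ m * (2 * (m : ℂ) + 1) * q ^ tri m * ((1 + q ^ (2 * N + 2)) *
      (R q (N - m) * R q (N + m + 1))
        + q ^ ((N : ℤ) + 1 - m) * (R q (N - (m - 1)) * R q (N + (m - 1) + 1))
        + q ^ ((N : ℤ) + 2 + m) * (R q (N - (m + 1)) * R q (N + (m + 1) + 1)))
      = A m + B m + C m := by intro m; simp only [A, B, C]; ring
  simp only [hsplit]
  have hA' : ∀ m, A m = (1 + q ^ (2 * N + 2)) * tm q N m := by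
    intro m; simp only [A, tm]; ring
  -- shifted versions
  have hB' : ∀ m : ℤ, B (m + 1) = -q ^ (N + 1) * ((-1) ^ m * (2 * m + 3) * q ^ tri m *
      (R q (N - m) * R q (N + m + 1))) := by
    intro m
    simp only [B]
    rw [add_sub_cancel_right, zpow_add_one₀ (by norm_num : (-1 : ℂ) ≠ 0), tri_succ]
    have h1 : q ^ (tri m + (m + 1)) * q ^ ((N : ℤ) + 1 - (m + 1)) = q ^ tri m * q ^ (N + 1) := by
      rw [← zpow_add₀ hq0, ← zpow_natCast, ← zpow_add₀ hq0]; congr 1; push_cast; ring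
    calc (-1 : ℂ) ^ m * -1 * (2 * ((m + 1 : ℤ) : ℂ) + 1) * q ^ (tri m + (m + 1)) *
          (q ^ ((N : ℤ) + 1 - (m + 1)) * (R q (N - m) * R q (N + m + 1)))
        = (-1 : ℂ) ^ m * -1 * (2 * ((m + 1 : ℤ) : ℂ) + 1) * (q ^ (tri m + (m + 1)) *
          q ^ ((N : ℤ) + 1 - (m + 1))) * (R q (N - m) * R q (N + m + 1)) := by ring
      _ = _ := by rw [h1]; push_cast; ring
  have hC' : ∀ m : ℤ, C (m - 1) = -q ^ (N + 1) * ((-1) ^ m * (2 * m - 1) * q ^ tri m *
      (R q (N - m) * R q (N + m + 1))) := by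
    intro m
    simp only [C]
    rw [sub_add_cancel, zpow_sub_one₀ (by norm_num : (-1 : ℂ) ≠ 0), tri_pred]
    have h1 : q ^ (tri m - m) * q ^ ((N : ℤ) + 2 + (m - 1)) = q ^ tri m * q ^ (N + 1) := by
      rw [← zpow_add₀ hq0, ← zpow_natCast, ← zpow_add₀ hq0]; congr 1; push_cast; ring
    calc (-1 : ℂ) ^ m * (-1)⁻¹ * (2 * ((m - 1 : ℤ) : ℂ) + 1) * q ^ (tri m - m) *
          (q ^ ((N : ℤ) + 2 + (m - 1)) * (R q (N - m) * R q (N + m + 1)))
        = (-1 : ℂ) ^ m * (-1)⁻¹ * (2 * ((m - 1 : ℤ) : ℂ) + 1) * (q ^ (tri m - m) *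
          q ^ ((N : ℤ) + 2 + (m - 1))) * (R q (N - m) * R q (N + m + 1)) := by ring
      _ = _ := by rw [h1]; push_cast; norm_num; ring
  have hAs : Summable A := by
    have : A = fun m => (1 + q ^ (2 * N + 2)) * tm q N m := funext hA'
    rw [this]; exact (summable_tm q N).mul_left _
  have hzero : ∀ m : ℤ, m ∉ Finset.Icc (-(N : ℤ) - 1) N → (R q (N - m) * R q (N + m + 1)) = 0 := by
    intro m h
    rw [Finset.mem_Icc] at h
    rcases lt_or_ge m (-(N : ℤ) - 1) with h1 | h1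
    · rw [R_neg q (n := N + m + 1) (by omega)]; simp
    · rw [R_neg q (n := N - m) (by omega)]; simp
  have hBs' : Summable fun m => B (m + 1) := by
    simp only [hB']
    exact summable_of_ne_finset_zero (s := Finset.Icc (-(N : ℤ) - 1) N)
      (fun m hm => by rw [hzero m hm]; simp)
  have hCs' : Summable fun m => C (m - 1) := by
    simp only [hC']
    exact summable_of_ne_finset_zero (s := Finset.Icc (-(N : ℤ) - 1) N)
      (fun m hm => by rw [hzero m hm]; simp)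
  have hBs : Summable B := (Equiv.addRight (1 : ℤ)).summable_iff.1 hBs'
  have hCs : Summable C := (Equiv.subRight (1 : ℤ)).summable_iff.1 hCs'
  rw [(hAs.add hBs).tsum_add hCs, hAs.tsum_add hBs]
  have tB : ∑' m, B m = ∑' m, B (m + 1) := ((Equiv.addRight (1 : ℤ)).tsum_eq B).symm
  have tC : ∑' m, C m = ∑' m, C (m - 1) := ((Equiv.subRight (1 : ℤ)).tsum_eq C).symm
  rw [tB, tC, ← hAs.tsum_add hBs', ← (hAs.add hBs').tsum_add hCs', ← tsum_mul_left]
  apply tsum_congr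
  intro m
  rw [hA', hB', hC']
  unfold tm
  have : q ^ (2 * N + 2) = q ^ (N + 1) * q ^ (N + 1) := by rw [← pow_add]; congr 1; ring
  rw [this]
  ring

lemma T_zero {q : ℂ} (hq : ‖q‖ < 1) : (1 - q) * ∑' m, tm q 0 m = 2 := by
  have h1 : ∑' m, tm q 0 m = ∑ m ∈ ({-1, 0} : Finset ℤ), tm q 0 m := by
    apply tsum_eq_sum
    intro m hm
    apply tm_support
    intro h
    rw [Finset.mem_Icc] at h
    simp at hm h
    omega
  have hQ1 : Q q 1 = 1 - q := by simp [Q]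
  have h0 := one_sub_pow_ne_zero hq 0
  simp only [zero_add, pow_one] at h0
  have r1 : R q 1 = 1 / (1 - q) := by
    have := R_nat q 1; rw [hQ1] at this; exact_mod_cast this
  have r0 : R q 0 = 1 := by
    have := R_nat q 0; simpa [Q] using this
  rw [h1, Finset.sum_insert (by norm_num), Finset.sum_singleton]
  unfold tm
  have t1 : tri (-1) = 0 := by decide
  have t0 : tri 0 = 0 := by decide
  rw [t1, t0]
  norm_num
  rw [r1, r0]
  field_simp
  ring

lemma T_closed {q : ℂ} (hq : ‖q‖ < 1) (hq0 : q ≠ 0) (N : ℕ) :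
    Q q (2 * N + 1) * ∑' m, tm q N m = 2 * Q q N ^ 2 := by
  induction N with
  | zero =>
    have := T_zero hq
    simp only [mul_zero, zero_add]
    rw [show Q q 1 = 1 - q by simp [Q], this]
    simp [Q]
  | succ N ih =>
    have h1 := T_rec hq hq0 N
    rw [show 2 * (N + 1) + 1 = 2 * N + 1 + 1 + 1 by ring, Q_succ, Q_succ, Q_succ q N]
    calc Q q (2 * N + 1) * (1 - q ^ (2 * N + 1 + 1)) * (1 - q ^ (2 * N + 1 + 1 + 1)) *
          ∑' m, tm q (N + 1) m
        = Q q (2 * N + 1) * ((1 - q ^ (2 * N + 2)) * (1 - q ^ (2 * N + 3)) *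
          ∑' m, tm q (N + 1) m) := by ring
      _ = (1 - q ^ (N + 1)) ^ 2 * (Q q (2 * N + 1) * ∑' m, tm q N m) := by rw [h1]; ring
      _ = _ := by rw [ih]; ring


noncomputable def Pinf (q : ℂ) : ℂ := ∏' n : ℕ, (1 - q ^ (n + 1))

lemma Pinf_ne_zero {q : ℂ} (hq : ‖q‖ < 1) : Pinf q ≠ 0 := by
  unfold Pinf
  rw [← cexp_tsum_eq_tprod (one_sub_pow_ne_zero hq) (summable_log hq)]
  exact Complex.exp_ne_zero _

lemma tendsto_Q {q : ℂ} (hq : ‖q‖ < 1) :
    Filter.Tendsto (Q q) Filter.atTop (nhds (Pinf q)) :=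
  (ModularForm.multipliable_one_sub_pow hq).hasProd.tendsto_prod_nat

lemma tendsto_invQ {q : ℂ} (hq : ‖q‖ < 1) :
    Filter.Tendsto (fun n => 1 / Q q n) Filter.atTop (nhds (1 / Pinf q)) :=
  tendsto_const_nhds.div (tendsto_Q hq) (Pinf_ne_zero hq)

lemma R_bounded {q : ℂ} (hq : ‖q‖ < 1) : ∃ C : ℝ, ∀ n : ℤ, ‖R q n‖ ≤ C := by
  obtain ⟨C, hC⟩ := (Metric.isBounded_range_of_tendsto _ (tendsto_invQ hq)).exists_norm_le
  have hC0 : 0 ≤ C := le_trans (norm_nonneg _) (hC _ ⟨0, rfl⟩)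
  refine ⟨C, fun n => ?_⟩
  cases n with
  | ofNat n => exact hC _ ⟨n, rfl⟩
  | negSucc n => simpa [R] using hC0

lemma tendsto_R {q : ℂ} (hq : ‖q‖ < 1) (k : ℤ) :
    Filter.Tendsto (fun N : ℕ => R q ((N : ℤ) + k)) Filter.atTop (nhds (1 / Pinf q)) := by
  have h1 := tendsto_invQ hq
  have h2 : Filter.Tendsto (fun N : ℕ => ((N : ℤ) + k).toNat) Filter.atTop Filter.atTop := by
    apply Filter.tendsto_atTop.2
    intro b
    filter_upwards [Filter.eventually_ge_atTop (b + k.natAbs)] with N hN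
    omega
  refine (h1.comp h2).congr' ?_
  filter_upwards [Filter.eventually_ge_atTop k.natAbs] with N hN
  have h3 : (((((N : ℤ) + k).toNat : ℕ)) : ℤ) = (N : ℤ) + k := Int.toNat_of_nonneg (by omega)
  simp only [Function.comp]
  rw [← R_nat, h3]

lemma tri_ge (m : ℤ) : (m.natAbs : ℤ) - 1 ≤ tri m := by
  have := two_tri m
  rcases le_or_gt 0 m with h | h
  · have h1 : (m.natAbs : ℤ) = m := Int.natAbs_of_nonneg h
    rw [h1]
    rcases le_or_gt m 1 with h2 | h2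
    · have : m = 0 ∨ m = 1 := by omega
      rcases this with h3 | h3 <;> subst h3 <;> decide
    · nlinarith
  · have h1 : (m.natAbs : ℤ) = -m := by omega
    rw [h1]
    rcases le_or_gt (-2) m with h2 | h2
    · have : m = -1 ∨ m = -2 := by omega
      rcases this with h3 | h3 <;> subst h3 <;> decide
    · nlinarith

lemma norm_zpow_tri {q : ℂ} (hq : ‖q‖ < 1) (hq0 : q ≠ 0) (m : ℤ) :
    ‖q ^ tri m‖ ≤ ‖q‖ ^ m.natAbs / ‖q‖ := by
  have hn : 0 < ‖q‖ := norm_pos_iff.2 hq0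
  rw [norm_zpow, ← zpow_natCast, div_eq_mul_inv, ← zpow_sub_one₀ hn.ne']
  exact zpow_le_zpow_right_of_le_one₀ hn hq.le (tri_ge m)

/-- the theta series -/
noncomputable def th (q : ℂ) (m : ℤ) : ℂ := (-1) ^ m * (2 * m + 1) * q ^ tri m

lemma norm_th_le {q : ℂ} (hq : ‖q‖ < 1) (hq0 : q ≠ 0) (m : ℤ) :
    ‖th q m‖ ≤ (2 * (m.natAbs : ℝ) + 1) * ‖q‖ ^ m.natAbs / ‖q‖ := by
  unfold th
  rw [norm_mul, norm_mul, norm_zpow, norm_neg, norm_one, one_zpow, one_mul, mul_div_assoc]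
  have h1 : ‖(2 * (m : ℂ) + 1)‖ ≤ 2 * (m.natAbs : ℝ) + 1 := by
    have h2 : (2 * (m : ℂ) + 1) = ((2 * m + 1 : ℤ) : ℂ) := by push_cast; ring
    rw [h2, Complex.norm_intCast]
    have h3 : |2 * m + 1| ≤ 2 * (m.natAbs : ℤ) + 1 := by
      rw [abs_le]; constructor <;> omega
    rw [← Int.cast_abs]
    have h4 : ((|2 * m + 1| : ℤ) : ℝ) ≤ ((2 * (m.natAbs : ℤ) + 1 : ℤ) : ℝ) := Int.cast_le.2 h3
    refine h4.trans (le_of_eq ?_)
    push_cast
    simp
  gcongr
  exact norm_zpow_tri hq hq0 m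

lemma summable_bound {q : ℂ} (hq : ‖q‖ < 1) :
    Summable fun m : ℤ => (2 * (m.natAbs : ℝ) + 1) * ‖q‖ ^ m.natAbs / ‖q‖ := by
  have h1 : Summable fun n : ℕ => (2 * (n : ℝ) + 1) * ‖q‖ ^ n / ‖q‖ := by
    have a1 : Summable fun n : ℕ => (n : ℝ) ^ 1 * ‖q‖ ^ n :=
      summable_pow_mul_geometric_of_norm_lt_one 1 (by simpa using hq)
    have a2 : Summable fun n : ℕ => ‖q‖ ^ n := summable_geometric_of_lt_one (norm_nonneg _) hq
    refine (((a1.mul_left 2).add a2).div_const ‖q‖).congr (fun n => by ring)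
  apply Summable.of_nat_of_neg_add_one
  · simpa using h1
  · have h2 := (summable_nat_add_iff 1).2 h1
    refine h2.congr (fun n => ?_)
    have : (-((n : ℤ) + 1)).natAbs = n + 1 := by omega
    rw [this]

lemma summable_th {q : ℂ} (hq : ‖q‖ < 1) (hq0 : q ≠ 0) : Summable (th q) :=
  Summable.of_norm_bounded (summable_bound hq) (norm_th_le hq hq0)

/-- the Jacobi identity for the cube of the Euler product -/
lemma jacobi {q : ℂ} (hq : ‖q‖ < 1) (hq0 : q ≠ 0) : ∑' m, th q m = 2 * Pinf q ^ 3 := by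
  obtain ⟨C, hC⟩ := R_bounded hq
  have hC0 : 0 ≤ C := (norm_nonneg _).trans (hC 0)
  have hP := Pinf_ne_zero hq
  have hlim : Filter.Tendsto (fun N : ℕ => ∑' m, tm q N m) Filter.atTop
      (nhds (∑' m, th q m * (1 / Pinf q * (1 / Pinf q)))) := by
    apply tendsto_tsum_of_dominated_convergence
      (bound := fun m : ℤ => (2 * (m.natAbs : ℝ) + 1) * ‖q‖ ^ m.natAbs / ‖q‖ * (C * C))
    · exact (summable_bound hq).mul_right _
    · intro m
      unfold tm
      have h1 := tendsto_R hq (-m)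
      have h2 := tendsto_R hq (m + 1)
      have h3 := (h1.mul h2).const_mul (th q m)
      refine h3.congr (fun N => ?_)
      unfold th
      rw [← sub_eq_add_neg, ← add_assoc]
    · filter_upwards with N m
      unfold tm
      rw [norm_mul, norm_mul (R q _)]
      have := norm_th_le hq hq0 m
      unfold th at this
      gcongr
      · exact hC _
      · exact hC _
  have hQlim : Filter.Tendsto (fun N : ℕ => Q q (2 * N + 1)) Filter.atTop (nhds (Pinf q)) := by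
    refine (tendsto_Q hq).comp ?_
    apply Filter.tendsto_atTop.2
    intro b
    filter_upwards [Filter.eventually_ge_atTop b] with N hN
    omega
  have h1 := hQlim.mul hlim
  have h2 : Filter.Tendsto (fun N : ℕ => 2 * Q q N ^ 2) Filter.atTop (nhds (2 * Pinf q ^ 2)) :=
    ((tendsto_Q hq).pow 2).const_mul 2
  have h3 : (fun N : ℕ => Q q (2 * N + 1) * ∑' m, tm q N m) = fun N : ℕ => 2 * Q q N ^ 2 :=
    funext (fun N => T_closed hq hq0 N)
  rw [h3] at h1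
  have h4 := tendsto_nhds_unique h2 h1
  rw [tsum_mul_right] at h4
  field_simp at h4
  rw [← h4]

/-- primitive cube root of unity -/
noncomputable def om : ℂ := Complex.exp (2 * π * I / 3)

lemma om_cube : om ^ 3 = 1 := by
  unfold om
  rw [← Complex.exp_nat_mul]
  rw [show ((3 : ℕ) : ℂ) * (2 * π * I / 3) = 2 * π * I by push_cast; ring]
  exact Complex.exp_two_pi_mul_I

lemma om_ne_one : om ≠ 1 := by
  intro h
  unfold om at h
  rw [Complex.exp_eq_one_iff] at h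
  obtain ⟨n, hn⟩ := h
  have h2 : (2 * π * I : ℂ) ≠ 0 := by
    simp [Real.pi_ne_zero]
  have h3 : (2 * π * I : ℂ) * (3 * n - 1) = 0 := by
    linear_combination -3 * hn
  rcases mul_eq_zero.1 h3 with h | h
  · exact h2 h
  · have : (3 * n - 1 : ℤ) = 0 := by exact_mod_cast h
    omega

lemma om_sum : 1 + om + om ^ 2 = 0 := by
  have h1 : (om - 1) * (1 + om + om ^ 2) = 0 := by
    have := om_cube; linear_combination this
  rcases mul_eq_zero.1 h1 with h | h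
  · exact absurd (sub_eq_zero.1 h) om_ne_one
  · exact h

lemma om_ne_zero : om ≠ 0 := Complex.exp_ne_zero _

lemma tri_mod (m : ℤ) : tri m % 3 = 0 ∨ tri m % 3 = 1 := by
  have h1 := two_tri m
  have h2 : m % 3 = 0 ∨ m % 3 = 1 ∨ m % 3 = 2 := by omega
  rcases h2 with h | h | h
  · obtain ⟨k, rfl⟩ : ∃ k, m = 3 * k := ⟨m / 3, by omega⟩
    have : 2 * tri (3 * k) = 3 * (k * (3 * k + 1)) := by rw [h1]; ring
    generalize k * (3 * k + 1) = z at *
    omega
  · obtain ⟨k, rfl⟩ : ∃ k, m = 3 * k + 1 := ⟨m / 3, by omega⟩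
    have : 2 * tri (3 * k + 1) = 9 * (k * (k + 1)) + 2 := by rw [h1]; ring
    generalize k * (k + 1) = z at *
    omega
  · obtain ⟨k, rfl⟩ : ∃ k, m = 3 * k + 2 := ⟨m / 3, by omega⟩
    have : 2 * tri (3 * k + 2) = 3 * ((3 * k + 2) * (k + 1)) := by rw [h1]; ring
    generalize (3 * k + 2) * (k + 1) = z at *
    omega

lemma om_zpow_mod (t : ℤ) (h : t % 3 = 0 ∨ t % 3 = 1) :
    1 + om * om ^ t + om ^ 2 * (om ^ 2) ^ t = 0 := by
  have h3 : om ^ (3 : ℤ) = 1 := by exact_mod_cast om_cube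
  have hs := om_sum
  have hc := om_cube
  rcases h with h | h
  · obtain ⟨k, rfl⟩ : ∃ k, t = 3 * k := ⟨t / 3, by omega⟩
    have e1 : om ^ (3 * k) = 1 := by rw [zpow_mul, h3, one_zpow]
    have e2 : (om ^ 2) ^ (3 * k) = 1 := by
      rw [← zpow_natCast, ← zpow_mul, mul_comm, zpow_mul, e1, one_zpow]
    rw [e1, e2]; linear_combination hs
  · obtain ⟨k, rfl⟩ : ∃ k, t = 3 * k + 1 := ⟨t / 3, by omega⟩
    have e1 : om ^ (3 * k + 1) = om := by
      rw [zpow_add₀ om_ne_zero, zpow_mul, h3, one_zpow, one_mul, zpow_one]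
    have e2 : (om ^ 2) ^ (3 * k + 1) = om ^ 2 := by
      rw [← zpow_natCast, ← zpow_mul, mul_comm, zpow_mul, e1]
    rw [e1, e2]; linear_combination hs + om * hc

lemma Pinf_mod {q : ℂ} (hq : ‖q‖ < 1) (hq0 : q ≠ 0) :
    Pinf q ^ 3 + om * Pinf (om * q) ^ 3 + om ^ 2 * Pinf (om ^ 2 * q) ^ 3 = 0 := by
  have hno : ‖om‖ = 1 := by
    have := congrArg norm om_cube
    rw [norm_pow, norm_one] at this
    exact (pow_eq_one_iff_of_nonneg (norm_nonneg _) (by norm_num)).1 this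
  have hq1 : ‖om * q‖ < 1 := by rw [norm_mul, hno, one_mul]; exact hq
  have hq2 : ‖om ^ 2 * q‖ < 1 := by rw [norm_mul, norm_pow, hno]; simpa using hq
  have h0 := jacobi hq hq0
  have h1 := jacobi hq1 (mul_ne_zero om_ne_zero hq0)
  have h2 := jacobi hq2 (mul_ne_zero (pow_ne_zero 2 om_ne_zero) hq0)
  have s0 := summable_th hq hq0
  have s1 := summable_th hq1 (mul_ne_zero om_ne_zero hq0)
  have s2 := summable_th hq2 (mul_ne_zero (pow_ne_zero 2 om_ne_zero) hq0)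
  have key : ∑' m, (th q m + om * th (om * q) m + om ^ 2 * th (om ^ 2 * q) m) = 0 := by
    have : ∀ m : ℤ, th q m + om * th (om * q) m + om ^ 2 * th (om ^ 2 * q) m = 0 := by
      intro m
      unfold th
      rw [mul_zpow, mul_zpow]
      have h := om_zpow_mod (tri m) (tri_mod m)
      linear_combination ((-1) ^ m * (2 * (m : ℂ) + 1) * q ^ tri m) * h
    simp [this]
  rw [(s0.add (s1.mul_left _)).tsum_add (s2.mul_left _), s0.tsum_add (s1.mul_left _),
    tsum_mul_left, tsum_mul_left, h0, h1, h2] at key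
  linear_combination key / 2

lemma exp3L {q : ℂ} (hq : ‖q‖ < 1) : Complex.exp (3 * L q) = Pinf q ^ 3 / Pinf (q ^ 3) ^ 3 := by
  have hq3 : ‖q ^ 3‖ < 1 := by
    rw [norm_pow]; exact pow_lt_one₀ (norm_nonneg _) hq (by norm_num)
  have h1 := exp_L_mul hq
  have h2 := Pinf_ne_zero hq3
  have h3 : Complex.exp (3 * L q) = Complex.exp (L q) ^ 3 := by
    rw [← Complex.exp_nat_mul]; norm_num
  unfold Pinf at *
  rw [h3, ← h1]
  field_simp

/-- the coefficients of the cube vanish in the class `2 mod 3` -/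
theorem c3_zero {n : ℕ} (hn : n % 3 = 2) : c 3 n = 0 := by
  have h1 := coef_integral 3 n (y := 1) one_pos
  have hc := continuous_H 3 n (y := 1) one_pos
  have hi : ∀ a b : ℝ, IntervalIntegrable (H 3 n 1) MeasureTheory.volume a b :=
    fun a b => hc.intervalIntegrable a b
  rw [← intervalIntegral.integral_add_adjacent_intervals (hi 0 (1 / 3)) (hi (1 / 3) 1),
    ← intervalIntegral.integral_add_adjacent_intervals (hi (1 / 3) (2 / 3)) (hi (2 / 3) 1)] at h1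
  have e1 : ∫ x in (1 / 3 : ℝ)..(2 / 3), H 3 n 1 x = ∫ x in (0 : ℝ)..(1 / 3), H 3 n 1 (1 / 3 + x) := by
    rw [intervalIntegral.integral_comp_add_left (fun x => H 3 n 1 x)]; norm_num
  have e2 : ∫ x in (2 / 3 : ℝ)..1, H 3 n 1 x = ∫ x in (0 : ℝ)..(1 / 3), H 3 n 1 (2 / 3 + x) := by
    rw [intervalIntegral.integral_comp_add_left (fun x => H 3 n 1 x)]; norm_num
  have hi1 : IntervalIntegrable (fun x => H 3 n 1 (1 / 3 + x)) MeasureTheory.volume 0 (1 / 3) :=
    (hc.comp (by fun_prop)).intervalIntegrable _ _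
  have hi2 : IntervalIntegrable (fun x => H 3 n 1 (2 / 3 + x)) MeasureTheory.volume 0 (1 / 3) :=
    (hc.comp (by fun_prop)).intervalIntegrable _ _
  rw [e1, e2, ← intervalIntegral.integral_add hi1 hi2, ← intervalIntegral.integral_add (hi 0 (1 / 3))
    (hi1.add hi2)] at h1
  have hz : ∀ x : ℝ, H 3 n 1 x + (H 3 n 1 (1 / 3 + x) + H 3 n 1 (2 / 3 + x)) = 0 := by
    intro x
    obtain ⟨m, rfl⟩ : ∃ m, n = 3 * m + 2 := ⟨n / 3, by omega⟩
    have hq : ‖qq ((x : ℂ) + I * (1 : ℝ))‖ < 1 := norm_qq_lt (by rw [im_xy]; norm_num)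
    have hq0 : qq ((x : ℂ) + I * (1 : ℝ)) ≠ 0 := Complex.exp_ne_zero _
    have a1 : qq (((1 / 3 + x : ℝ) : ℂ) + I * (1 : ℝ)) = om * qq ((x : ℂ) + I * (1 : ℝ)) := by
      unfold qq om
      rw [← Complex.exp_add]; congr 1; push_cast; ring
    have a2 : qq (((2 / 3 + x : ℝ) : ℂ) + I * (1 : ℝ)) = om ^ 2 * qq ((x : ℂ) + I * (1 : ℝ)) := by
      unfold qq om
      rw [← Complex.exp_nat_mul, ← Complex.exp_add]; congr 1; push_cast; ring
    have hq1 : ‖om * qq ((x : ℂ) + I * (1 : ℝ))‖ < 1 := by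
      rw [← a1]; exact norm_qq_lt (by rw [im_xy]; norm_num)
    have hq2 : ‖om ^ 2 * qq ((x : ℂ) + I * (1 : ℝ))‖ < 1 := by
      rw [← a2]; exact norm_qq_lt (by rw [im_xy]; norm_num)
    unfold H
    rw [a1, a2, Complex.exp_sub, Complex.exp_sub, Complex.exp_sub]
    have b1 : Complex.exp (2 * π * I * ((3 * m + 2 : ℕ) : ℂ) * (((1 / 3 + x : ℝ) : ℂ) + I * (1 : ℝ)))
        = om ^ 2 * Complex.exp (2 * π * I * ((3 * m + 2 : ℕ) : ℂ) * ((x : ℂ) + I * (1 : ℝ))) := by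
      have : (2 * π * I * ((3 * m + 2 : ℕ) : ℂ) * (((1 / 3 + x : ℝ) : ℂ) + I * (1 : ℝ)))
          = m * (2 * π * I) + ((2 : ℕ) * (2 * π * I / 3) +
            2 * π * I * ((3 * m + 2 : ℕ) : ℂ) * ((x : ℂ) + I * (1 : ℝ))) := by
        push_cast; ring
      rw [this, Complex.exp_add, Complex.exp_nat_mul_two_pi_mul_I, one_mul, Complex.exp_add,
        Complex.exp_nat_mul]
      rfl
    have b2 : Complex.exp (2 * π * I * ((3 * m + 2 : ℕ) : ℂ) * (((2 / 3 + x : ℝ) : ℂ) + I * (1 : ℝ)))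
        = om * Complex.exp (2 * π * I * ((3 * m + 2 : ℕ) : ℂ) * ((x : ℂ) + I * (1 : ℝ))) := by
      have : (2 * π * I * ((3 * m + 2 : ℕ) : ℂ) * (((2 / 3 + x : ℝ) : ℂ) + I * (1 : ℝ)))
          = ((2 * m + 1 : ℕ) : ℂ) * (2 * π * I) + (2 * π * I / 3 +
            2 * π * I * ((3 * m + 2 : ℕ) : ℂ) * ((x : ℂ) + I * (1 : ℝ))) := by
        push_cast; ring
      rw [this, Complex.exp_add, Complex.exp_nat_mul_two_pi_mul_I, one_mul, Complex.exp_add]
      rfl
    rw [b1, b2]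
    have h3c : ((3 : ℝ) : ℂ) = 3 := by norm_num
    rw [h3c, exp3L hq, exp3L hq1, exp3L hq2]
    have hP := Pinf_mod hq hq0
    obtain ⟨q, hqd⟩ : ∃ q, q = qq ((x : ℂ) + I * (1 : ℝ)) := ⟨_, rfl⟩
    rw [← hqd] at hP ⊢
    have d1 : (om * q) ^ 3 = q ^ 3 := by rw [mul_pow, om_cube, one_mul]
    have d2 : (om ^ 2 * q) ^ 3 = q ^ 3 := by
      rw [mul_pow, ← pow_mul, mul_comm 2 3, pow_mul, om_cube, one_pow, one_mul]
    rw [d1, d2]
    have hom := om_ne_zero
    have hX : Complex.exp (2 * π * I * ((3 * m + 2 : ℕ) : ℂ) * ((x : ℂ) + I * (1 : ℝ))) ≠ 0 :=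
      Complex.exp_ne_zero _
    have hq3 : ‖q ^ 3‖ < 1 := by
      rw [norm_pow, hqd]; exact pow_lt_one₀ (norm_nonneg _) hq (by norm_num)
    have hP3 := Pinf_ne_zero hq3
    generalize Complex.exp (2 * π * I * ((3 * m + 2 : ℕ) : ℂ) * ((x : ℂ) + I * (1 : ℝ))) = X at *
    generalize Pinf (q ^ 3) = Y at *
    generalize Pinf q = p0 at *
    generalize Pinf (om * q) = p1 at *
    generalize Pinf (om ^ 2 * q) = p2 at *
    have hc := om_cube
    have e : p0 ^ 3 / Y ^ 3 / X + (p1 ^ 3 / Y ^ 3 / (om ^ 2 * X) + p2 ^ 3 / Y ^ 3 / (om * X))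
        = (om ^ 2 * p0 ^ 3 + p1 ^ 3 + om * p2 ^ 3) / (om ^ 2 * X * Y ^ 3) := by
      field_simp
      ring
    rw [e]
    have f : om ^ 2 * p0 ^ 3 + p1 ^ 3 + om * p2 ^ 3 = 0 := by
      have : om ^ 2 * p0 ^ 3 + p1 ^ 3 + om * p2 ^ 3
          = om ^ 2 * (p0 ^ 3 + om * p1 ^ 3 + om ^ 2 * p2 ^ 3) := by
        linear_combination (-(p1 ^ 3) - om * p2 ^ 3) * hc
      rw [this, hP, mul_zero]
    rw [f, zero_div]
  simp only [hz] at h1
  simp at h1
  exact_mod_cast h1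

end Pool.Agent.Lib.MP_067a7d_co
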