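import Pool.Agent.Lib.MP_067a7d_co.Basic

namespace Pool.Agent.Lib.MP_067a7d_co

open Finset

lemma s_vals : s 1 = 1 ∧ s 2 = 3 ∧ s 3 = 1 ∧ s 4 = 7 ∧ s 5 = 6 := by
  refine ⟨?_, ?_, ?_, ?_, ?_⟩ <;> decide

lemma c1 (d : ℝ) : c d 1 = -d := by
  obtain ⟨h1, h2, h3, h4, h5⟩ := s_vals
  have h := c_succ d 0
  rw [Finset.Nat.sum_antidiagonal_eq_sum_range_succ_mk] at h
  simp only [Finset.sum_range_succ, Finset.sum_range_zero, Nat.sub_self, c_zero, zero_add,
    h1] at h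
  push_cast at h
  linarith

lemma c2 (d : ℝ) : c d 2 = d * (d - 3) / 2 := by
  obtain ⟨h1, h2, h3, h4, h5⟩ := s_vals
  have h := c_succ d 1
  rw [Finset.Nat.sum_antidiagonal_eq_sum_range_succ_mk] at h
  simp only [Finset.sum_range_succ, Finset.sum_range_zero, Nat.sub_self, Nat.sub_zero, c_zero,
    zero_add, h1, c1, Nat.reduceAdd, h2] at h
  push_cast at h
  linarith

lemma c3 (d : ℝ) : c d 3 = -(d * (d ^ 2 - 9 * d + 2)) / 6 := by
  obtain ⟨h1, h2, h3, h4, h5⟩ := s_vals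
  have h := c_succ d 2
  rw [Finset.Nat.sum_antidiagonal_eq_sum_range_succ_mk] at h
  simp only [Finset.sum_range_succ, Finset.sum_range_zero, Nat.sub_self, Nat.sub_zero, c_zero,
    zero_add, h1, c1, Nat.reduceAdd, Nat.reduceSub, h2, h3, c2] at h
  push_cast at h
  linarith

lemma c4 (d : ℝ) : 4 * c d 4 = -d * (c d 3 + 3 * c d 2 + c d 1 + 7) := by
  obtain ⟨h1, h2, h3, h4, h5⟩ := s_vals
  have h := c_succ d 3
  rw [Finset.Nat.sum_antidiagonal_eq_sum_range_succ_mk] at h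
  simp only [Finset.sum_range_succ, Finset.sum_range_zero, Nat.sub_self, Nat.sub_zero, c_zero,
    zero_add, h1, Nat.reduceAdd, Nat.reduceSub, h2, h3, h4] at h
  push_cast at h
  linarith

lemma c5 (d : ℝ) : c d 5 = -(d * (d - 1) * (d - 2) * (d - 3) * (d - 24)) / 120 := by
  obtain ⟨h1, h2, h3, h4, h5⟩ := s_vals
  have h := c_succ d 4
  rw [Finset.Nat.sum_antidiagonal_eq_sum_range_succ_mk] at h
  simp only [Finset.sum_range_succ, Finset.sum_range_zero, Nat.sub_self, Nat.sub_zero, c_zero,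
    zero_add, h1, Nat.reduceAdd, Nat.reduceSub, h2, h3, h4, h5] at h
  push_cast at h
  have k4 := c4 d
  rw [c1, c2, c3] at k4
  rw [c1, c2, c3] at h
  linear_combination (1 / 5) * h - (d / 20) * k4

lemma dom_low {d : ℝ} (hd : (9 - √73) / 2 ≤ d) : 0.2279 ≤ d := by
  have h : √73 ≤ 8.5441 := by
    rw [Real.sqrt_le_left (by norm_num)]; norm_num
  norm_num at h ⊢
  linarith

lemma c3_nonneg {d : ℝ} (h1 : (9 - √73) / 2 ≤ d) (h2 : d ≤ 3) : 0 ≤ c d 3 := by
  rw [c3]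
  have h0 := dom_low h1
  have hs : √73 ^ 2 = 73 := Real.sq_sqrt (by norm_num)
  have hs0 : (0 : ℝ) ≤ √73 := Real.sqrt_nonneg _
  have h3 : (d - (9 - √73) / 2) * (d - (9 + √73) / 2) ≤ 0 := by
    apply mul_nonpos_of_nonneg_of_nonpos
    · linarith
    · linarith
  have h4 : d ^ 2 - 9 * d + 2 ≤ 0 := by nlinarith
  have h5 : d * (d ^ 2 - 9 * d + 2) ≤ 0 := by
    apply mul_nonpos_of_nonneg_of_nonpos _ h4
    norm_num at h0; linarith
  linarith

lemma c5_nonpos {d : ℝ} (h0 : 0 ≤ d) (h : d ≤ 1 ∨ (2 ≤ d ∧ d ≤ 3)) : c d 5 ≤ 0 := by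
  rw [c5]
  have : 0 ≤ d * (d - 1) * (d - 2) * (d - 3) * (d - 24) := by
    rcases h with h | ⟨h1, h2⟩
    · have e : d * (d - 1) * (d - 2) * (d - 3) * (d - 24)
          = d * (1 - d) * (2 - d) * (3 - d) * (24 - d) := by ring
      rw [e]
      have a1 : 0 ≤ 1 - d := by linarith
      have a2 : 0 ≤ 2 - d := by linarith
      have a3 : 0 ≤ 3 - d := by linarith
      have a4 : 0 ≤ 24 - d := by linarith
      positivity
    · have e : d * (d - 1) * (d - 2) * (d - 3) * (d - 24)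
          = d * (d - 1) * (d - 2) * (3 - d) * (24 - d) := by ring
      rw [e]
      have a1 : 0 ≤ d - 1 := by linarith
      have a2 : 0 ≤ d - 2 := by linarith
      have a3 : 0 ≤ 3 - d := by linarith
      have a4 : 0 ≤ 24 - d := by linarith
      positivity
  linarith

end Pool.Agent.Lib.MP_067a7d_co
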