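import Pool.Agent.Lib.MP_067a7d_co.Inst1
import Pool.Agent.Lib.MP_067a7d_co.Inst2
import Pool.Agent.Lib.MP_067a7d_co.Inst3
import Pool.Agent.Lib.MP_067a7d_co.Small
import Pool.Agent.Lib.MP_067a7d_co.Big
import Pool.Agent.Lib.MP_067a7d_co.Big3
import Pool.Agent.Lib.MP_067a7d_co.Jacobi

namespace Pool.Agent.Lib.MP_067a7d_co

open Finset

lemma sg1_true {n : ℕ} (h : n % 3 = 0) : sg1 n = true := by
  unfold sg1; rw [Nat.beq_eq]; exact h

lemma sg1_false {n : ℕ} (h : n % 3 ≠ 0) : sg1 n = false := by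
  rw [← Bool.not_eq_true]
  unfold sg1; rw [Nat.beq_eq]; exact h

lemma fl1_true {n : ℕ} (h1 : 1 ≤ n) (h3 : n ≠ 3) (h5 : n ≠ 5) : fl1 n = true := by
  unfold fl1
  have e3 : Nat.beq n 3 = false := by rw [← Bool.not_eq_true, Nat.beq_eq]; exact h3
  have e5 : Nat.beq n 5 = false := by rw [← Bool.not_eq_true, Nat.beq_eq]; exact h5
  rw [e3, e5]
  simp only [cond_false]
  rw [Nat.ble_eq]; exact h1

lemma fl01_true {n : ℕ} (h1 : 1 ≤ n) (h3 : n ≠ 3) (h2 : n % 3 ≠ 2) : fl01 n = true := by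
  unfold fl01
  have e3 : Nat.beq n 3 = false := by rw [← Bool.not_eq_true, Nat.beq_eq]; exact h3
  have e5 : Nat.beq (Nat.mod n 3) 2 = false := by rw [← Bool.not_eq_true, Nat.beq_eq]; exact h2
  rw [e3, e5]
  simp only [cond_false]
  rw [Nat.ble_eq]; exact h1

lemma fl2_true {n : ℕ} (h5 : n ≠ 5) (h2 : n % 3 = 2) : fl2 n = true := by
  unfold fl2
  have e3 : Nat.beq n 5 = false := by rw [← Bool.not_eq_true, Nat.beq_eq]; exact h5
  rw [e3]
  simp only [cond_false]
  rw [Nat.beq_eq]; exact h2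

lemma small1 {p Q a b N : ℕ} (hQ : 0 < Q) (hb : 0 < b) (hab : 2 * a ≤ b) (hN : N ≤ 440)
    (h : check p Q a b N IA GO fl1 sg1 = true) {d : ℝ}
    (hd1 : (p : ℝ) / Q - (a : ℝ) / b ≤ d) (hd2 : d ≤ (p : ℝ) / Q + (a : ℝ) / b)
    {n : ℕ} (hn : n ≤ N) (h1 : 1 ≤ n) (h3 : n ≠ 3) (h5 : n ≠ 5) :
    (n % 3 = 0 → 0 < c d n) ∧ (n % 3 ≠ 0 → c d n < 0) := by
  have hd : |d - (p : ℝ) / Q| ≤ (a : ℝ) / b := by
    rw [abs_le]; constructor <;> linarith
  have := caseA hQ hb hab hN h hd n hn (fl1_true h1 h3 h5)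
  exact ⟨fun h => this.1 (sg1_true h), fun h => this.2 (sg1_false h)⟩

/-- thresholds -/
lemma le_of_small {d lo : ℝ} {n N : ℕ} {T : ℝ} (hlo : lo ≤ d) (hlo0 : 0 ≤ lo)
    (h : (n : ℝ) * d < T) (hT : T ≤ (N + 1) * lo) : n ≤ N := by
  by_contra hcon
  push Not at hcon
  have h1 : ((N : ℝ) + 1) ≤ n := by exact_mod_cast hcon
  have h2 : ((N : ℝ) + 1) * lo ≤ n * d := by
    apply mul_le_mul h1 hlo hlo0 (by positivity)
  linarith

lemma low_signs {d : ℝ} (hd1 : 0.2279 ≤ d) (hd2 : d ≤ 1) {n : ℕ} (h1 : 1 ≤ n) (h3 : n ≠ 3)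
    (h5 : n ≠ 5) : (n % 3 = 0 → 0 < c d n) ∧ (n % 3 ≠ 0 → c d n < 0) := by
  by_cases hbig : 98.6 ≤ (n : ℝ) * d
  · have hh : 98.5 ≤ d * (n - d / 12) := by
      norm_num at hbig hd1 ⊢
      nlinarith
    have b1 := big01 hd1 (by linarith) hh
    refine ⟨b1.1, fun h => ?_⟩
    rcases (show n % 3 = 1 ∨ n % 3 = 2 by omega) with h' | h'
    · exact b1.2 h'
    · exact big2 (Or.inl ⟨hd1, hd2⟩) hh h'
  push Not at hbig
  norm_num at hd1 hbig
  by_cases g1 : d ≤ 0.2815
  · norm_num at g1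
    have hn : n ≤ 434 := le_of_small (lo := 0.2279) (by norm_num; linarith) (by norm_num) hbig
      (by norm_num)
    exact small1 (by norm_num) (by norm_num) (by norm_num) (by norm_num) ins1
      (by norm_num; linarith) (by norm_num; linarith) hn h1 h3 h5
  norm_num at g1
  by_cases g2 : d ≤ 0.3485
  · norm_num at g2
    have hn : n ≤ 351 := le_of_small (lo := 0.2815) (by norm_num; linarith) (by norm_num) hbig
      (by norm_num)
    exact small1 (by norm_num) (by norm_num) (by norm_num) (by norm_num) ins2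
      (by norm_num; linarith) (by norm_num; linarith) hn h1 h3 h5
  norm_num at g2
  by_cases g3 : d ≤ 0.4245
  · norm_num at g3
    have hn : n ≤ 284 := le_of_small (lo := 0.3485) (by norm_num; linarith) (by norm_num) hbig
      (by norm_num)
    exact small1 (by norm_num) (by norm_num) (by norm_num) (by norm_num) ins3
      (by norm_num; linarith) (by norm_num; linarith) hn h1 h3 h5
  norm_num at g3
  by_cases g4 : d ≤ 0.5175
  · norm_num at g4
    have hn : n ≤ 233 := le_of_small (lo := 0.4245) (by norm_num; linarith) (by norm_num) hbig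
      (by norm_num)
    exact small1 (by norm_num) (by norm_num) (by norm_num) (by norm_num) ins4
      (by norm_num; linarith) (by norm_num; linarith) hn h1 h3 h5
  norm_num at g4
  by_cases g5 : d ≤ 0.6305
  · norm_num at g5
    have hn : n ≤ 191 := le_of_small (lo := 0.5175) (by norm_num; linarith) (by norm_num) hbig
      (by norm_num)
    exact small1 (by norm_num) (by norm_num) (by norm_num) (by norm_num) ins5
      (by norm_num; linarith) (by norm_num; linarith) hn h1 h3 h5
  norm_num at g5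
  by_cases g6 : d ≤ 0.7685
  · norm_num at g6
    have hn : n ≤ 157 := le_of_small (lo := 0.6305) (by norm_num; linarith) (by norm_num) hbig
      (by norm_num)
    exact small1 (by norm_num) (by norm_num) (by norm_num) (by norm_num) ins6
      (by norm_num; linarith) (by norm_num; linarith) hn h1 h3 h5
  norm_num at g6
  by_cases g7 : d ≤ 0.9375
  · norm_num at g7
    have hn : n ≤ 129 := le_of_small (lo := 0.7685) (by norm_num; linarith) (by norm_num) hbig
      (by norm_num)
    exact small1 (by norm_num) (by norm_num) (by norm_num) (by norm_num) ins7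
      (by norm_num; linarith) (by norm_num; linarith) hn h1 h3 h5
  norm_num at g7
  have hn : n ≤ 106 := le_of_small (lo := 0.9375) (by norm_num; linarith) (by norm_num) hbig
    (by norm_num)
  exact small1 (by norm_num) (by norm_num) (by norm_num) (by norm_num) ins8
    (by norm_num; linarith) (by norm_num; linarith) hn h1 h3 h5

lemma small01 {p Q a b N : ℕ} (hQ : 0 < Q) (hb : 0 < b) (hab : 2 * a ≤ b) (hN : N ≤ 440)
    (h : check p Q a b N IA GO fl01 sg1 = true) {d : ℝ}
    (hd1 : (p : ℝ) / Q - (a : ℝ) / b ≤ d) (hd2 : d ≤ (p : ℝ) / Q + (a : ℝ) / b)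
    {n : ℕ} (hn : n ≤ N) (h1 : 1 ≤ n) (h3 : n ≠ 3) :
    (n % 3 = 0 → 0 < c d n) ∧ (n % 3 = 1 → c d n < 0) := by
  have hd : |d - (p : ℝ) / Q| ≤ (a : ℝ) / b := by
    rw [abs_le]; constructor <;> linarith
  have := caseA hQ hb hab hN h hd n hn
  exact ⟨fun h => (this (fl01_true h1 h3 (by omega))).1 (sg1_true h),
    fun h => (this (fl01_true h1 h3 (by omega))).2 (sg1_false (by omega))⟩

lemma small2 {p Q a b N : ℕ} (hQ : 0 < Q) (hb : 0 < b) (hab : 2 * a ≤ b) (hN : N ≤ 440)
    (h : check p Q a b N IA GO fl2 sg1 = true) {d : ℝ}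
    (hd1 : (p : ℝ) / Q - (a : ℝ) / b ≤ d) (hd2 : d ≤ (p : ℝ) / Q + (a : ℝ) / b)
    {n : ℕ} (hn : n ≤ N) (h5 : n ≠ 5) (h2 : n % 3 = 2) : c d n < 0 := by
  have hd : |d - (p : ℝ) / Q| ≤ (a : ℝ) / b := by
    rw [abs_le]; constructor <;> linarith
  exact (caseA hQ hb hab hN h hd n hn (fl2_true h5 h2)).2 (sg1_false (by omega))

lemma high01 {d : ℝ} (hd1 : 2 ≤ d) (hd2 : d ≤ 3) {n : ℕ} (h1 : 1 ≤ n) (h3 : n ≠ 3) :
    (n % 3 = 0 → 0 < c d n) ∧ (n % 3 = 1 → c d n < 0) := by
  by_cases hbig : 99.25 ≤ (n : ℝ) * d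
  · have hh : 98.5 ≤ d * (n - d / 12) := by
      norm_num at hbig ⊢
      nlinarith
    exact big01 (by norm_num; linarith) hd2 hh
  push Not at hbig
  norm_num at hbig
  by_cases g1 : d ≤ 2.46
  · norm_num at g1
    have hn : n ≤ 50 := le_of_small (lo := 2) hd1 (by norm_num) hbig (by norm_num)
    exact small01 (by norm_num) (by norm_num) (by norm_num) (by norm_num) ins9
      (by norm_num; linarith) (by norm_num; linarith) hn h1 h3
  norm_num at g1
  have hn : n ≤ 41 := le_of_small (lo := 2.46) (by norm_num; linarith) (by norm_num) hbig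
    (by norm_num)
  exact small01 (by norm_num) (by norm_num) (by norm_num) (by norm_num) ins10
    (by norm_num; linarith) (by norm_num; linarith) hn h1 h3

lemma high2 {d : ℝ} (hd1 : 2 ≤ d) (hd2 : d ≤ 3) {n : ℕ} (h5 : n ≠ 5) (h2 : n % 3 = 2) :
    c d n ≤ 0 := by
  have hc3 : c 3 n = 0 := c3_zero h2
  by_cases g0 : d ≤ 2.75
  · norm_num at g0
    by_cases hbig : 99.25 ≤ (n : ℝ) * d
    · have hh : 98.5 ≤ d * (n - d / 12) := by
        norm_num at hbig ⊢
        nlinarith
      exact (big2 (Or.inr ⟨hd1, by norm_num; linarith⟩) hh h2).le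
    push Not at hbig
    norm_num at hbig
    by_cases g1 : d ≤ 2.6
    · norm_num at g1
      have hn : n ≤ 50 := le_of_small (lo := 2) hd1 (by norm_num) hbig (by norm_num)
      exact (small2 (by norm_num) (by norm_num) (by norm_num) (by norm_num) ins11
        (by norm_num; linarith) (by norm_num; linarith) hn h5 h2).le
    norm_num at g1
    have hn : n ≤ 39 := le_of_small (lo := 2.6) (by norm_num; linarith) (by norm_num) hbig
      (by norm_num)
    exact (small2 (by norm_num) (by norm_num) (by norm_num) (by norm_num) ins12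
      (by norm_num; linarith) (by norm_num; linarith) hn h5 h2).le
  norm_num at g0
  by_cases hbig : 247.75 ≤ (n : ℝ) * d
  · have hh : 247 ≤ d * (n - d / 12) := by
      norm_num at hbig ⊢
      nlinarith
    exact big3 (by norm_num; linarith) hd2 hc3 hh h2
  push Not at hbig
  norm_num at hbig
  by_cases g1 : d ≤ 2.99
  · norm_num at g1
    have hn : n ≤ 91 := le_of_small (lo := 2.75) (by norm_num; linarith) (by norm_num) hbig
      (by norm_num)
    exact (small2 (by norm_num) (by norm_num) (by norm_num) (by norm_num) ins13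
      (by norm_num; linarith) (by norm_num; linarith) hn h5 h2).le
  norm_num at g1
  rcases eq_or_lt_of_le hd2 with h3 | h3
  · rw [h3, hc3]
  have hn : n ≤ 90 := le_of_small (lo := 2.9) (by norm_num; linarith) (by norm_num) hbig
    (by norm_num)
  have hd : |d - 3| ≤ ((1 : ℕ) : ℝ) / ((10 : ℕ) : ℝ) := by
    norm_num
    rw [abs_le]; constructor <;> linarith
  have := caseB (by norm_num) (by norm_num) (by norm_num) ins14 hd h3 n hn (fl2_true h5 h2)
  linarith

theorem signs {d : ℝ} (hd : d ∈ Set.Icc ((9 - √73) / 2) 1 ∪ Set.Icc 2 3) (n : ℕ) :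
    (n % 3 = 0 → 0 ≤ c d n) ∧ (n % 3 ≠ 0 → c d n ≤ 0) := by
  have hlow : (9 - √73) / 2 ≤ d := by
    rcases hd with h | h
    · exact h.1
    · have h73 : (0 : ℝ) ≤ √73 := Real.sqrt_nonneg _
      have h6 : (8 : ℝ) ≤ √73 := by
        rw [Real.le_sqrt' (by norm_num)]; norm_num
      have := h.1
      linarith
  have hd3 : d ≤ 3 := by
    rcases hd with h | h
    · linarith [h.2]
    · exact h.2
  have h0 := dom_low hlow
  have h0' : 0 ≤ d := by norm_num at h0; linarith
  rcases Nat.eq_zero_or_pos n with hn | hn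
  · subst hn
    rw [c_zero]
    exact ⟨fun _ => zero_le_one, fun h => absurd rfl h⟩
  by_cases h3 : n = 3
  · subst h3
    exact ⟨fun _ => c3_nonneg hlow hd3, fun h => absurd rfl h⟩
  by_cases h5 : n = 5
  · subst h5
    refine ⟨fun h => absurd h (by norm_num), fun _ => c5_nonpos h0' ?_⟩
    rcases hd with h | h
    · exact Or.inl h.2
    · exact Or.inr ⟨h.1, h.2⟩
  rcases hd with h | h
  · have := low_signs h0 h.2 hn h3 h5
    exact ⟨fun h => (this.1 h).le, fun h => (this.2 h).le⟩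
  · have := high01 h.1 h.2 hn h3
    refine ⟨fun h => (this.1 h).le, fun h' => ?_⟩
    rcases (show n % 3 = 1 ∨ n % 3 = 2 by omega) with h'' | h''
    · exact (this.2 h'').le
    · exact high2 h.1 h.2 h5 h''

end Pool.Agent.Lib.MP_067a7d_co
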