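import Pool.Agent.Lib.MP_067a7d_co.Case

namespace Pool.Agent.Lib.MP_067a7d_co

set_option maxRecDepth 1000000 in
theorem ins1 : check 509 2000 27 1000 434 IA GO fl1 sg1 = true := by decide +kernel

set_option maxRecDepth 1000000 in
theorem ins2 : check 63 200 67 2000 351 IA GO fl1 sg1 = true := by decide +kernel

end Pool.Agent.Lib.MP_067a7d_co
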