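import Pool.Agent.Lib.MP_067a7d_co.FinMath

namespace Pool.Agent.Lib.MP_067a7d_co

open Finset

/-- base `2^W` digit -/
noncomputable def dig (W x n : ℕ) : ℕ := Nat.mod (Nat.shiftRight x (Nat.mul W n)) (Nat.pow 2 W)

lemma dig_eq (W x n : ℕ) : dig W x n = x / (2 ^ W) ^ n % 2 ^ W := by
  have h : dig W x n = (x >>> (W * n)) % 2 ^ W := rfl
  rw [h, Nat.shiftRight_eq_div_pow, pow_mul]

lemma dig_lt (W x n : ℕ) : dig W x n < 2 ^ W := by
  rw [dig_eq]; exact Nat.mod_lt _ (by positivity)

/-- digit extraction from a sum -/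
lemma digit_sum {B : ℕ} (hB : 0 < B) (M : ℕ) : ∀ (n : ℕ) (cf : ℕ → ℕ) (r : ℕ), n < M →
    (∀ i < M, cf i < B) → (∑ i ∈ range M, cf i * B ^ i + B ^ M * r) / B ^ n % B = cf n := by
  induction M with
  | zero => intro n cf r hn; omega
  | succ M ih =>
    intro n cf r hn hc
    have hsplit : ∑ i ∈ range (M + 1), cf i * B ^ i + B ^ (M + 1) * r
        = cf 0 + B * (∑ i ∈ range M, cf (i + 1) * B ^ i + B ^ M * r) := by
      rw [Finset.sum_range_succ', mul_add, Finset.mul_sum]
      have : ∀ i ∈ range M, cf (i + 1) * B ^ (i + 1) = B * (cf (i + 1) * B ^ i) := by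
        intro i _; ring
      rw [Finset.sum_congr rfl this]
      ring
    rw [hsplit]
    cases n with
    | zero =>
      rw [pow_zero, Nat.div_one, Nat.add_mul_mod_self_left]
      exact Nat.mod_eq_of_lt (hc 0 (by omega))
    | succ n =>
      rw [pow_succ', ← Nat.div_div_eq_div_mul, Nat.add_mul_div_left _ _ hB,
        Nat.div_eq_of_lt (hc 0 (by omega)), zero_add]
      exact ih n (fun i => cf (i + 1)) r (by omega) (fun i hi => hc (i + 1) (by omega))

/-- representation by digits -/
lemma rep_digits {B : ℕ} (hB : 0 < B) : ∀ (M x : ℕ), x < B ^ M →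
    x = ∑ i ∈ range M, (x / B ^ i % B) * B ^ i := by
  intro M
  induction M with
  | zero => intro x hx; simp at hx; simp [hx]
  | succ M ih =>
    intro x hx
    have h1 : x / B < B ^ M := by
      rw [Nat.div_lt_iff_lt_mul hB, ← pow_succ]; exact hx
    have h2 := ih (x / B) h1
    rw [Finset.sum_range_succ']
    have h3 : ∀ i ∈ range M, x / B ^ (i + 1) % B * B ^ (i + 1)
        = B * (x / B / B ^ i % B * B ^ i) := by
      intro i _
      rw [Nat.div_div_eq_div_mul, ← pow_succ']
      ring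
    rw [Finset.sum_congr rfl h3, ← Finset.mul_sum, ← h2]
    simp only [pow_zero, Nat.div_one, mul_one]
    exact (Nat.div_add_mod x B).symm

/-- digits of a product with bounded convolution -/
lemma digit_mul {B : ℕ} (hB : 0 < B) (M : ℕ) (f g : ℕ → ℕ)
    (hconv : ∀ n < M, ∑ p ∈ antidiagonal n, f p.1 * g p.2 < B) :
    ∀ n < M, ((∑ i ∈ range M, f i * B ^ i) * (∑ j ∈ range M, g j * B ^ j)) / B ^ n % B
      = ∑ p ∈ antidiagonal n, f p.1 * g p.2 := by
  intro n hn
  have h1 : ∑ m ∈ range M, ∑ k ∈ range (m + 1), f k * g (m - k) * B ^ m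
      = ∑ m ∈ range M, ∑ k ∈ range (M - m), f m * g k * B ^ (m + k) := by
    rw [← Finset.sum_range_diag_flip M (fun m k => f m * g k * B ^ (m + k))]
    apply Finset.sum_congr rfl
    intro m _
    apply Finset.sum_congr rfl
    intro k hk
    have := Finset.mem_range.1 hk
    rw [show k + (m - k) = m by omega]
  have h2 : ∀ m ∈ range M, ∃ r, ∑ k ∈ range M, f m * g k * B ^ (m + k)
      = ∑ k ∈ range (M - m), f m * g k * B ^ (m + k) + B ^ M * r := by
    intro m hm
    have hm' := Finset.mem_range.1 hm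
    refine ⟨∑ k ∈ range m, f m * g (M - m + k) * B ^ k, ?_⟩
    rw [Finset.mul_sum]
    have h3 := Finset.sum_range_add (fun k => f m * g k * B ^ (m + k)) (M - m) m
    rw [show M - m + m = M by omega] at h3
    rw [h3]
    congr 1
    apply Finset.sum_congr rfl
    intro k _
    have : m + (M - m + k) = M + k := by omega
    rw [this, pow_add]; ring
  choose! r hr using h2
  have h4 : (∑ i ∈ range M, f i * B ^ i) * (∑ j ∈ range M, g j * B ^ j)
      = ∑ i ∈ range M, (∑ p ∈ antidiagonal i, f p.1 * g p.2) * B ^ i + B ^ M * ∑ m ∈ range M, r m := by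
    rw [Finset.sum_mul_sum]
    have h5 : ∀ i ∈ range M, ∑ j ∈ range M, f i * B ^ i * (g j * B ^ j)
        = ∑ k ∈ range (M - i), f i * g k * B ^ (i + k) + B ^ M * r i := by
      intro i hi
      rw [← hr i hi]
      apply Finset.sum_congr rfl
      intro j _
      rw [pow_add]; ring
    rw [Finset.sum_congr rfl h5, Finset.sum_add_distrib, ← Finset.mul_sum, ← h1]
    congr 1
    apply Finset.sum_congr rfl
    intro i _
    rw [Finset.Nat.sum_antidiagonal_eq_sum_range_succ_mk, Finset.sum_mul]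
  rw [h4]
  exact digit_sum hB M n (fun i => ∑ p ∈ antidiagonal i, f p.1 * g p.2) _ hn hconv

/-- bounded iteration -/
noncomputable def allB (f : ℕ → Bool) (N : ℕ) : Bool :=
  Nat.rec true (fun n r => cond (f n) r false) N

lemma allB_iff (f : ℕ → Bool) (N : ℕ) : allB f N = true ↔ ∀ n < N, f n = true := by
  induction N with
  | zero => simp [allB]
  | succ N ih =>
    have h : allB f (N + 1) = cond (f N) (allB f N) false := rfl
    rw [h]
    constructor
    · intro h1 n hn
      cases hf : f N with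
      | false => rw [hf] at h1; simp at h1
      | true =>
        rw [hf] at h1
        simp only [cond_true] at h1
        rcases Nat.lt_succ_iff_lt_or_eq.1 hn with h2 | h2
        · exact ih.1 h1 n h2
        · rw [h2]; exact hf
    · intro h1
      rw [h1 N (Nat.lt_succ_self N)]
      simp only [cond_true]
      exact ih.2 (fun n hn => h1 n (by omega))

/-- divisor sum, kernel friendly -/
noncomputable def sf (n : ℕ) : ℕ :=
  Nat.rec 0 (fun m acc => cond (Nat.beq (Nat.mod n (m + 1)) 0)
    (cond (Nat.beq (Nat.mod (m + 1) 3) 0) acc (Nat.add acc (m + 1))) acc) n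

lemma sf_eq (n : ℕ) : sf n = s n := by
  have h : ∀ M : ℕ, (Nat.rec 0 (fun m acc => cond (Nat.beq (Nat.mod n (m + 1)) 0)
    (cond (Nat.beq (Nat.mod (m + 1) 3) 0) acc (Nat.add acc (m + 1))) acc) M : ℕ)
      = ∑ m ∈ range M, if (m + 1) ∣ n ∧ ¬ 3 ∣ (m + 1) then m + 1 else 0 := by
    intro M
    induction M with
    | zero => simp
    | succ M ih =>
      rw [Finset.sum_range_succ, ← ih]
      simp only
      generalize (Nat.rec 0 (fun m acc => cond (Nat.beq (Nat.mod n (m + 1)) 0)
        (cond (Nat.beq (Nat.mod (m + 1) 3) 0) acc (Nat.add acc (m + 1))) acc) M : ℕ) = X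
      have e1 : Nat.beq (Nat.mod n (M + 1)) 0 = decide ((M + 1) ∣ n) := by
        rw [Bool.eq_iff_iff, decide_eq_true_iff, Nat.beq_eq, Nat.dvd_iff_mod_eq_zero]
        rfl
      have e2 : Nat.beq (Nat.mod (M + 1) 3) 0 = decide (3 ∣ (M + 1)) := by
        rw [Bool.eq_iff_iff, decide_eq_true_iff, Nat.beq_eq, Nat.dvd_iff_mod_eq_zero]
        rfl
      rw [e1, e2]
      by_cases h1 : (M + 1) ∣ n
      · by_cases h2 : 3 ∣ (M + 1)
        · simp [h1, h2]
        · simp [h1, h2]
      · simp [h1]
  unfold sf s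
  rw [h n]
  rw [Finset.sum_filter, Nat.divisors, Finset.sum_filter, Finset.sum_Ico_eq_sum_range]
  rw [show n + 1 - 1 = n by omega]
  apply Finset.sum_congr rfl
  intro m _
  rw [add_comm 1 m]
  by_cases h1 : (m + 1) ∣ n
  · by_cases h2 : 3 ∣ (m + 1)
    · simp [h1, h2]
    · simp [h1, h2]
  · simp [h1]

end Pool.Agent.Lib.MP_067a7d_co
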