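import Pool.Agent.Lib.MP_067a7d_co.Arcs

namespace Pool.Agent.Lib.MP_067a7d_co

open Complex Finset
open scoped Real

noncomputable def AA (d : ℝ) : ℝ := π * d / 54
noncomputable def BB (d : ℝ) (n : ℕ) : ℝ := 2 * π * n - π * d / 6
noncomputable def PH (d : ℝ) (n : ℕ) : ℝ := π * d / 18 + 2 * π * n / 3

/-- the point near the cusp after transformation -/
noncomputable def Lp (y θ : ℝ) : ℂ := L (qq (-1 / 3 + I / (9 * (y - I * θ))))

lemma re_w {y : ℝ} (hy : 0 < y) (θ : ℝ) : 0 < ((y : ℂ) - I * θ).re := by simp; exact hy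

lemma H_arc (d : ℝ) (n : ℕ) {y : ℝ} (hy : 0 < y) (θ : ℝ) :
    H d n y (1 / 3 + θ) = Complex.exp (-(PH d n * I)) *
      (Complex.exp (AA d / (y - I * θ) + BB d n * (y - I * θ)) * Complex.exp (d * Lp y θ)) := by
  have hre := re_w hy θ
  have hst := star hre
  have hw0 : ((y : ℂ) - I * θ) ≠ 0 := by intro h; rw [h] at hre; simp at hre
  unfold DD at hst
  have e1 : (((1 / 3 + θ : ℝ) : ℂ) + I * y) = 1 / 3 + I * ((y : ℂ) - I * θ) := by
    push_cast
    have : I * ((y : ℂ) - I * θ) = I * y - (I * I) * θ := by ring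
    rw [this, Complex.I_mul_I]; ring
  unfold H Lp AA BB PH
  rw [e1, ← Complex.exp_add, ← Complex.exp_add]
  congr 1
  have h2 : L (qq (1 / 3 + I * ((y : ℂ) - I * θ)))
      = L (qq (-1 / 3 + I / (9 * ((y : ℂ) - I * θ)))) - π * I / 18
        - π * ((y : ℂ) - I * θ) / 6 + π / (54 * ((y : ℂ) - I * θ)) := by
    linear_combination hst
  rw [h2]
  generalize L (qq (-1 / 3 + I / (9 * ((y : ℂ) - I * θ)))) = X
  push_cast
  generalize hW : (y : ℂ) - I * θ = w at *
  field_simp
  have hI : I ^ 2 = -1 := Complex.I_sq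
  ring_nf
  rw [hI]
  ring

lemma rho_ge {y θ : ℝ} (hy : 0 < y) (hθ : θ ^ 2 ≤ 8 * y ^ 2) :
    1 / (9 * y) ≤ (((y : ℂ) - I * θ)⁻¹).re := by
  rw [Complex.inv_re]
  have h1 : Complex.normSq ((y : ℂ) - I * θ) = y ^ 2 + θ ^ 2 := by
    rw [Complex.normSq_apply]; simp; ring
  have h2 : ((y : ℂ) - I * θ).re = y := by simp
  rw [h1, h2, div_le_div_iff₀ (by positivity) (by positivity)]
  nlinarith

lemma exp_small {y ρ : ℝ} (hy : 0 < y) (hy2 : y ≤ 1 / 50) (hρ : 1 / (9 * y) ≤ ρ) :
    Real.exp (-(2 * π / 9 * ρ)) ≤ 1 / 10 := by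
  rw [Real.exp_neg, show (1 / 10 : ℝ) = 10⁻¹ by norm_num]
  apply inv_anti₀ (by norm_num : (0 : ℝ) < 10)
  have hpi := Real.pi_gt_d2
  have h1 : 50 / 9 ≤ ρ := by
    refine le_trans ?_ hρ
    rw [div_le_div_iff₀ (by norm_num) (by positivity)]
    linarith
  have h2 : (3 : ℝ) ≤ 2 * π / 9 * ρ := by nlinarith
  have h3 : (10 : ℝ) ≤ Real.exp 3 := by
    have he := Real.exp_one_gt_d9
    have : Real.exp 3 = Real.exp 1 ^ 3 := by rw [← Real.exp_nat_mul]; norm_num
    rw [this]
    have h5 : (2.7182818283 : ℝ) ^ 3 ≤ Real.exp 1 ^ 3 := by gcongr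
    refine le_trans (by norm_num) h5
  exact h3.trans (Real.exp_le_exp.2 h2)

lemma Lp_bound {y θ : ℝ} (hy : 0 < y) (hy2 : y ≤ 1 / 50) (hθ : θ ^ 2 ≤ 8 * y ^ 2) :
    ‖Lp y θ‖ ≤ 5 / 4 * Real.exp (-(2 * π / 9 * (((y : ℂ) - I * θ)⁻¹).re)) := by
  have hρ := rho_ge hy hθ
  have hs := exp_small hy hy2 hρ
  unfold Lp
  have him : 0 < (-1 / 3 + I / (9 * ((y : ℂ) - I * θ))).im := im_two (re_w hy θ)
  have hlt := norm_qq_lt him
  have hnorm : ‖qq (-1 / 3 + I / (9 * ((y : ℂ) - I * θ)))‖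
      = Real.exp (-(2 * π / 9 * (((y : ℂ) - I * θ)⁻¹).re)) := by
    rw [norm_qq, im_two_eq]; congr 1; ring
  refine (norm_L_le hlt).trans ?_
  rw [hnorm]
  generalize Real.exp (-(2 * π / 9 * (((y : ℂ) - I * θ)⁻¹).re)) = x at *
  have hx0 : 0 ≤ x := by rw [← hnorm]; exact norm_nonneg _
  rw [div_le_iff₀ (by have : 0 < 1 - x := by linarith
                      positivity)]
  nlinarith [mul_nonneg hx0 (sub_nonneg.2 hs), mul_nonneg hx0 hx0]

lemma norm_main (A B y θ : ℝ) :
    ‖Complex.exp (A / (y - I * θ) + B * (y - I * θ))‖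
      = Real.exp (A * (((y : ℂ) - I * θ)⁻¹).re + B * y) := by
  rw [Complex.norm_exp]
  congr 1
  rw [Complex.add_re, div_eq_mul_inv, Complex.re_ofReal_mul, Complex.re_ofReal_mul]
  simp

lemma R_bound {d : ℝ} (hd : 0 < d) (hd3 : d ≤ 3) (B : ℝ) {y θ : ℝ} (hy : 0 < y) (hy2 : y ≤ 1 / 50)
    (hθ : θ ^ 2 ≤ 8 * y ^ 2) :
    ‖Complex.exp (AA d / (y - I * θ) + B * (y - I * θ)) * (Complex.exp (d * Lp y θ) - 1)‖
      ≤ 5 / 2 * d * Real.exp (B * y + (AA d - 2 * π / 9) / (9 * y)) := by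
  have hρ := rho_ge hy hθ
  have hs := exp_small hy hy2 hρ
  have hL := Lp_bound hy hy2 hθ
  rw [norm_mul, norm_main]
  generalize (((y : ℂ) - I * θ)⁻¹).re = ρ at *
  have hnd : ‖(d : ℂ) * Lp y θ‖ ≤ d * (5 / 4 * Real.exp (-(2 * π / 9 * ρ))) := by
    rw [norm_mul, Complex.norm_real, Real.norm_of_nonneg hd.le]
    gcongr
  have hx0 : 0 ≤ Real.exp (-(2 * π / 9 * ρ)) := (Real.exp_pos _).le
  have h1 : ‖(d : ℂ) * Lp y θ‖ ≤ 1 := by
    refine hnd.trans ?_
    nlinarith
  have h2 := Complex.norm_exp_sub_one_le h1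
  have hpi := Real.pi_gt_d2
  have hpi2 := Real.pi_lt_d2
  have hA : AA d - 2 * π / 9 ≤ 0 := by unfold AA; nlinarith
  calc Real.exp (AA d * ρ + B * y) * ‖Complex.exp (d * Lp y θ) - 1‖
      ≤ Real.exp (AA d * ρ + B * y) * (2 * (d * (5 / 4 * Real.exp (-(2 * π / 9 * ρ))))) := by
        gcongr
        exact h2.trans (by linarith)
    _ = 5 / 2 * d * (Real.exp (AA d * ρ + B * y) * Real.exp (-(2 * π / 9 * ρ))) := by ring
    _ = 5 / 2 * d * Real.exp (B * y + (AA d - 2 * π / 9) * ρ) := by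
        rw [← Real.exp_add]; congr 2; ring
    _ ≤ _ := by
        have : (AA d - 2 * π / 9) * ρ ≤ (AA d - 2 * π / 9) / (9 * y) := by
          rw [div_eq_mul_inv]
          exact mul_le_mul_of_nonpos_left (by rw [← one_div]; exact hρ) hA
        gcongr

lemma norm_H (d : ℝ) (n : ℕ) (y x : ℝ) :
    ‖H d n y x‖ = Real.exp (d * (L (qq (x + I * y))).re + 2 * π * n * y) := by
  unfold H
  rw [Complex.norm_exp]
  congr 1
  have h1 : (2 * π * I * n * ((x : ℂ) + I * y) : ℂ) = ((2 * π * n : ℝ) : ℂ) * (I * (x + I * y)) := by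
    push_cast; ring
  rw [Complex.sub_re, h1, Complex.re_ofReal_mul, Complex.re_ofReal_mul]
  simp


lemma continuous_main (A B : ℝ) {y : ℝ} (hy : 0 < y) :
    Continuous fun θ : ℝ => Complex.exp (A / ((y : ℂ) - I * θ) + B * ((y : ℂ) - I * θ)) := by
  have hne : ∀ θ : ℝ, ((y : ℂ) - I * θ) ≠ 0 := by
    intro θ h
    have hre := re_w hy θ
    rw [h] at hre; simp at hre
  have hc : Continuous fun θ : ℝ => (y : ℂ) - I * θ := by fun_prop
  exact ((continuous_const.div hc hne).add (continuous_const.mul hc)).cexp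

lemma continuous_Lp {y : ℝ} (hy : 0 < y) : Continuous fun θ : ℝ => Lp y θ := by
  unfold Lp
  rw [continuous_iff_continuousAt]
  intro θ
  have hne : (9 * ((y : ℂ) - I * θ)) ≠ 0 := by
    intro h
    have hre := re_w hy θ
    rcases mul_eq_zero.1 h with h | h
    · norm_num at h
    · rw [h] at hre; simp at hre
  have h2 : ContinuousAt (fun z => L (qq z)) (-1 / 3 + I / (9 * ((y : ℂ) - I * θ))) :=
    (differentiableAt_Lqq (im_two (re_w hy θ))).continuousAt
  refine ContinuousAt.comp (f := fun θ : ℝ => (-1 / 3 + I / (9 * ((y : ℂ) - I * θ)) : ℂ)) h2 ?_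
  exact continuousAt_const.add (continuousAt_const.div (by fun_prop) hne)

/-- the parameters -/
structure Par (d : ℝ) (n : ℕ) (E y : ℝ) : Prop where
  hd : 0 < d
  hd3 : d ≤ 3
  hE : 9 ≤ E
  hEE : E ^ 2 = 4 * AA d * BB d n
  hy : y = π * d / (81 * E)

namespace Par

variable {d : ℝ} {n : ℕ} {E y : ℝ}

lemma E_pos (p : Par d n E y) : 0 < E := by linarith [p.hE]

lemma y_pos (p : Par d n E y) : 0 < y := by
  rw [p.hy]; have := p.hd; have := p.E_pos; positivity

lemma y_le (p : Par d n E y) : y ≤ 1 / 50 := by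
  rw [p.hy, div_le_div_iff₀ (by have := p.E_pos; positivity) (by norm_num)]
  have := Real.pi_lt_d2
  have := Real.pi_pos
  nlinarith [p.hE, p.hd3, p.hd]

lemma AA_pos (p : Par d n E y) : 0 < AA d := by
  unfold AA; have := p.hd; positivity

lemma AA_y (p : Par d n E y) : AA d / (9 * y) = E / 6 := by
  have h1 := p.E_pos
  have h2 := p.hd
  have h3 := Real.pi_pos
  rw [p.hy]; unfold AA
  field_simp
  norm_num

lemma BB_y (p : Par d n E y) : BB d n * y = E / 6 := by
  have h1 := p.E_pos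
  have h2 := p.AA_pos
  have h3 : y = 2 * AA d / (3 * E) := by
    rw [p.hy]; unfold AA; field_simp; ring
  have h4 : 4 * AA d * (BB d n * y) = 4 * AA d * (E / 6) := by
    calc 4 * AA d * (BB d n * y) = (4 * AA d * BB d n) * y := by ring
      _ = E ^ 2 * y := by rw [← p.hEE]
      _ = 4 * AA d * (E / 6) := by rw [h3]; field_simp; ring
  exact mul_left_cancel₀ (by positivity) h4

lemma BB_pos (p : Par d n E y) : 0 < BB d n := by
  have h1 := p.BB_y
  have h2 := p.y_pos
  have h3 := p.E_pos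
  by_contra h
  push Not at h
  have : BB d n * y ≤ 0 := mul_nonpos_of_nonpos_of_nonneg h h2.le
  linarith

lemma pi_y (p : Par d n E y) (k : ℝ) (hk : 0 < k) : π / (k * y) = 81 * E / (k * d) := by
  have h1 := p.E_pos
  have h2 := p.hd
  have h3 := Real.pi_pos
  rw [p.hy]; field_simp

end Par

/-- main estimate, first form -/
theorem V1 {d : ℝ} {n : ℕ} {E y : ℝ} (p : Par d n E y) :
    |c d n - 2 * Real.cos (PH d n) * (J (AA d) (BB d n) y).re|
      ≤ Real.exp (d / 65) * (Real.exp (E / 3) + 9 / 2 * y * Real.exp (13 * E / 24))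
        + 29 * y * d * Real.exp (E / 3 - 2 * E / d) := by
  have hd := p.hd
  have hE := p.E_pos
  have hy := p.y_pos
  have hy2 := p.y_le
  have hpi := Real.pi_pos
  set A := AA d with hA
  set B := BB d n with hB
  have hBy : B * y = E / 6 := p.BB_y
  have hAy : A / (9 * y) = E / 6 := p.AA_y
  -- minor arcs
  have hM1 : ∀ x : ℝ, 0 ≤ x → x ≤ 1 / 2 → 8 * y ^ 2 ≤ (x - 1 / 3) ^ 2 →
      5 / 4 * y ^ 2 ≤ (x - 1 / 6) ^ 2 → ‖H d n y x‖ ≤ Real.exp (d / 65) * Real.exp (E / 3) := by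
    intro x hx0 hx1 h1 h2
    have hr := reL_far hx0 hx1 hy hy2 h1 h2
    rw [p.pi_y 486 (by norm_num)] at hr
    rw [norm_H, ← Real.exp_add]
    apply Real.exp_le_exp.2
    have h3 : max (1 / 2 : ℝ) (81 * E / (486 * d)) = E / (6 * d) := by
      rw [max_eq_right]
      · field_simp; norm_num
      · rw [div_le_div_iff₀ (by norm_num) (by positivity)]
        nlinarith [p.hE, p.hd3]
    rw [h3] at hr
    have h4 : d * (L (qq (↑x + I * ↑y))).re ≤ d * (-(π * y / 6) + 1 / 65 + E / (6 * d)) := by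
      gcongr
    have h5 : d * (-(π * y / 6) + 1 / 65 + E / (6 * d)) + 2 * π * n * y
        = B * y + d / 65 + E / 6 := by
      rw [hB]; unfold BB; field_simp; ring
    rw [hBy] at h5
    linarith
  have hM2 : ∀ x : ℝ, (x - 1 / 6) ^ 2 ≤ 2 * y ^ 2 →
      ‖H d n y x‖ ≤ Real.exp (d / 65) * Real.exp (13 * E / 24) := by
    intro x h2
    have hr := reL_near hy hy2 h2
    rw [p.pi_y 216 (by norm_num)] at hr
    rw [norm_H, ← Real.exp_add]
    apply Real.exp_le_exp.2
    have h3 : max (1 / 2 : ℝ) (81 * E / (216 * d)) = 3 * E / (8 * d) := by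
      rw [max_eq_right]
      · field_simp; norm_num
      · rw [div_le_div_iff₀ (by norm_num) (by positivity)]
        nlinarith [p.hE, p.hd3]
    rw [h3] at hr
    have h4 : d * (L (qq (↑x + I * ↑y))).re ≤ d * (-(π * y / 6) + 1 / 65 + 3 * E / (8 * d)) := by
      gcongr
    have h5 : d * (-(π * y / 6) + 1 / 65 + 3 * E / (8 * d)) + 2 * π * n * y
        = B * y + d / 65 + 3 * E / 8 := by
      rw [hB]; unfold BB; field_simp; ring
    rw [hBy] at h5
    linarith
  have hrest := rest_bound (continuous_H d n hy) hy hy2 (by positivity) hM1 hM2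
  have hcoef := coef_half d n hy
  -- main arc
  have harc : ∫ θ in (-(Real.sqrt 8 * y))..(Real.sqrt 8 * y), H d n y (1 / 3 + θ)
      = Complex.exp (-(PH d n * I)) * (J A B y +
        ∫ θ in (-(Real.sqrt 8 * y))..(Real.sqrt 8 * y),
          Complex.exp (A / (y - I * θ) + B * (y - I * θ)) * (Complex.exp (d * Lp y θ) - 1)) := by
    have hcm := continuous_main A B hy
    have hcL := continuous_Lp hy
    have hc2 : Continuous fun θ : ℝ => Complex.exp (A / (y - I * θ) + B * (y - I * θ)) *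
        (Complex.exp (d * Lp y θ) - 1) :=
      hcm.mul ((continuous_const.mul hcL).cexp.sub continuous_const)
    unfold J
    rw [← intervalIntegral.integral_add (hcm.intervalIntegrable _ _)
      (hc2.intervalIntegrable _ _), ← intervalIntegral.integral_const_mul]
    apply intervalIntegral.integral_congr
    intro θ _
    simp only
    rw [H_arc d n hy θ]
    ring
  have hR : ‖∫ θ in (-(Real.sqrt 8 * y))..(Real.sqrt 8 * y),
          Complex.exp (A / (y - I * θ) + B * (y - I * θ)) * (Complex.exp (d * Lp y θ) - 1)‖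
      ≤ 5 / 2 * d * Real.exp (E / 3 - 2 * E / d) * (29 / 5 * y) := by
    have hs8 : Real.sqrt 8 ≤ 2.9 := by
      rw [Real.sqrt_le_left (by norm_num)]; norm_num
    have hs8' : 0 ≤ Real.sqrt 8 := Real.sqrt_nonneg _
    have hb : ∀ θ ∈ Set.uIoc (-(Real.sqrt 8 * y)) (Real.sqrt 8 * y),
        ‖Complex.exp (A / (y - I * θ) + B * (y - I * θ)) * (Complex.exp (d * Lp y θ) - 1)‖
          ≤ 5 / 2 * d * Real.exp (E / 3 - 2 * E / d) := by
      intro θ hθ
      rw [Set.uIoc_of_le (by have : 0 ≤ Real.sqrt 8 * y := by positivity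
                             linarith)] at hθ
      have hθ2 : θ ^ 2 ≤ 8 * y ^ 2 := by
        have h8 : (Real.sqrt 8 * y) ^ 2 = 8 * y ^ 2 := by
          rw [mul_pow, Real.sq_sqrt (by norm_num)]
        rw [← h8]
        exact sq_le_sq' hθ.1.le hθ.2
      have h1 := R_bound hd p.hd3 B hy hy2 hθ2
      refine h1.trans (le_of_eq ?_)
      congr 2
      rw [hBy, sub_div, hAy]
      have : 2 * π / 9 / (9 * y) = 2 * E / d := by
        rw [div_div, show (9 : ℝ) * (9 * y) = 81 * y by ring, mul_div_assoc,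
          p.pi_y 81 (by norm_num)]
        field_simp
      rw [this]; ring
    have h2 := intervalIntegral.norm_integral_le_of_norm_le_const hb
    refine h2.trans ?_
    have h3 : |Real.sqrt 8 * y - -(Real.sqrt 8 * y)| ≤ 29 / 5 * y := by
      rw [sub_neg_eq_add, abs_of_nonneg (by positivity)]
      nlinarith
    gcongr
  set R := ∫ θ in (-(Real.sqrt 8 * y))..(Real.sqrt 8 * y),
          Complex.exp (A / (y - I * θ) + B * (y - I * θ)) * (Complex.exp (d * Lp y θ) - 1) with hRdef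
  have hJre : J A B y = ((J A B y).re : ℂ) := by
    have := J_real A B y
    exact (Complex.conj_eq_iff_re.1 this).symm
  have hmainre : (Complex.exp (-(PH d n * I)) * J A B y).re = Real.cos (PH d n) * (J A B y).re := by
    rw [hJre, Complex.re_mul_ofReal]
    congr 1
    have : (-(PH d n * I) : ℂ) = ((-PH d n : ℝ) : ℂ) * I := by push_cast; ring
    rw [this, Complex.exp_ofReal_mul_I_re, Real.cos_neg]
  have hunit : ‖Complex.exp (-(PH d n * I))‖ = 1 := by
    have : (-(PH d n * I) : ℂ) = ((-PH d n : ℝ) : ℂ) * I := by push_cast; ring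
    rw [this, Complex.norm_exp_ofReal_mul_I]
  set T := (∫ x in (0 : ℝ)..(1 / 2), H d n y x) with hT
  set Z := ∫ θ in (-(Real.sqrt 8 * y))..(Real.sqrt 8 * y), H d n y (1 / 3 + θ) with hZ
  have hdecomp : c d n - 2 * Real.cos (PH d n) * (J A B y).re
      = 2 * (T - Z).re + 2 * (Complex.exp (-(PH d n * I)) * R).re := by
    have : T = (T - Z) + (Complex.exp (-(PH d n * I)) * J A B y + Complex.exp (-(PH d n * I)) * R) := by
      rw [← mul_add, ← harc]; ring
    have h2 : T.re = (T - Z).re + (Real.cos (PH d n) * (J A B y).re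
        + (Complex.exp (-(PH d n * I)) * R).re) := by
      conv_lhs => rw [this]
      rw [Complex.add_re, Complex.add_re, hmainre]
    rw [hcoef, h2]; ring
  rw [hdecomp]
  have b1 : |(T - Z).re| ≤ ‖T - Z‖ := Complex.abs_re_le_norm _
  have b2 : |(Complex.exp (-(PH d n * I)) * R).re| ≤ ‖R‖ := by
    refine (Complex.abs_re_le_norm _).trans ?_
    rw [norm_mul, hunit, one_mul]
  calc |2 * (T - Z).re + 2 * (Complex.exp (-(PH d n * I)) * R).re|
      ≤ |2 * (T - Z).re| + |2 * (Complex.exp (-(PH d n * I)) * R).re| := abs_add_le _ _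
    _ = 2 * |(T - Z).re| + 2 * |(Complex.exp (-(PH d n * I)) * R).re| := by
        rw [abs_mul, abs_mul]; norm_num
    _ ≤ 2 * (Real.exp (d / 65) * Real.exp (E / 3) / 2
        + 9 / 4 * y * (Real.exp (d / 65) * Real.exp (13 * E / 24)))
        + 2 * (5 / 2 * d * Real.exp (E / 3 - 2 * E / d) * (29 / 5 * y)) := by
        have := b1.trans hrest
        have := b2.trans hR
        linarith
    _ = _ := by ring

/-- lower bound for the main term -/
lemma J_lower {d : ℝ} {n : ℕ} {E y : ℝ} (p : Par d n E y) :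
    6 * π * y * ((Real.cosh E - 1) / E - Real.exp (E / 3)) ≤ (J (AA d) (BB d n) y).re := by
  have hd := p.hd
  have hE := p.E_pos
  have hy := p.y_pos
  have hpi := Real.pi_pos
  have h1 := J_bound p.AA_pos.le p.BB_pos.le hy
  rw [p.AA_y, p.BB_y, show E / 6 + E / 6 = E / 3 by ring] at h1
  have h2 : |(J (AA d) (BB d n) y - 2 * π * S (AA d) (BB d n)).re|
      ≤ 6 * π * y * Real.exp (E / 3) := (Complex.abs_re_le_norm _).trans h1
  have h3 : (J (AA d) (BB d n) y - 2 * π * S (AA d) (BB d n)).re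
      = (J (AA d) (BB d n) y).re - 2 * π * S (AA d) (BB d n) := by
    rw [Complex.sub_re]
    congr 1
    have : (2 * π * S (AA d) (BB d n) : ℂ) = ((2 * π * S (AA d) (BB d n) : ℝ) : ℂ) := by
      push_cast; ring
    rw [this, Complex.ofReal_re]
  rw [h3] at h2
  have h4 := S_lower hE (show 0 < 3 * y by positivity)
  have e1 : 3 * y * E / 2 = AA d := by
    have := p.AA_y
    field_simp at this
    linarith
  have e2 : E / (2 * (3 * y)) = BB d n := by
    have := p.BB_y
    field_simp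
    linarith
  rw [e1, e2] at h4
  have h5 := (abs_le.1 h2).1
  have h6 : 2 * π * (3 * y * ((Real.cosh E - 1) / E)) ≤ 2 * π * S (AA d) (BB d n) := by gcongr
  nlinarith

end Pool.Agent.Lib.MP_067a7d_co
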