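import Pool.Agent.Lib.MP_067a7d_co.Transf

namespace Pool.Agent.Lib.MP_067a7d_co

open Complex Finset
open scoped Real MatrixGroups Modular

/-- logarithm of `|eta|` -/
noncomputable def lgeta (z : ℂ) : ℝ := Real.log ‖ModularForm.eta z‖

open scoped ModularForm in
open SlashInvariantForm in
lemma lgeta_smul (g : SL(2, ℤ)) (z : UpperHalfPlane) :
    lgeta (g • z : UpperHalfPlane) + 1 / 4 * Real.log (g • z).im
      = lgeta z + 1 / 4 * Real.log z.im := by
  have h1 : (ModularForm.discriminant ∣[(12 : ℤ)] g) z = ModularForm.discriminant z := by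
    rw [slash_action_generators_SL2Z ModularForm.discriminant_S_invariant
      ModularForm.discriminant_T_invariant g]
  rw [ModularForm.SL_slash_apply] at h1
  have hz := eta_ne_zero' z.2
  have hgz := eta_ne_zero' (g • z).2
  have hden : UpperHalfPlane.denom g z ≠ 0 := UpperHalfPlane.denom_ne_zero _ _
  have h2 := ModularGroup.im_smul_eq_div_normSq g z
  unfold ModularForm.discriminant at h1
  have h3 : ‖ModularForm.eta (g • z : UpperHalfPlane)‖ ^ 24
      = ‖ModularForm.eta z‖ ^ 24 * ‖UpperHalfPlane.denom g z‖ ^ 12 := by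
    have h4 := congrArg norm h1
    rw [norm_mul, norm_pow, norm_pow, norm_zpow] at h4
    rw [← h4]
    have hd' : ‖UpperHalfPlane.denom g z‖ ≠ 0 := norm_ne_zero_iff.2 hden
    rw [zpow_neg]
    field_simp
  have h5 := congrArg Real.log h3
  have hzn : ‖ModularForm.eta z‖ ≠ 0 := norm_ne_zero_iff.2 hz
  have hd' : ‖UpperHalfPlane.denom g z‖ ≠ 0 := norm_ne_zero_iff.2 hden
  rw [Real.log_mul (pow_ne_zero _ hzn) (pow_ne_zero _ hd'), Real.log_pow, Real.log_pow,
    Real.log_pow] at h5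
  have h6 : Real.log (g • z).im = Real.log z.im - 2 * Real.log ‖UpperHalfPlane.denom g z‖ := by
    rw [h2, Complex.normSq_eq_norm_sq, Real.log_div z.im_pos.ne' (pow_ne_zero _ hd'), Real.log_pow]
    norm_num
  unfold lgeta
  rw [h6]
  push_cast at h5
  linarith

lemma normSq_denom_ge {z : UpperHalfPlane} (hz : z ∈ 𝒟) (g : SL(2, ℤ)) :
    1 ≤ Complex.normSq (UpperHalfPlane.denom g z) := by
  obtain ⟨h1, h2⟩ := hz
  have hdet : (g 0 0) * (g 1 1) - (g 0 1) * (g 1 0) = 1 := by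
    have := g.det_coe
    rwa [Matrix.det_fin_two] at this
  have hne : g 1 0 ≠ 0 ∨ g 1 1 ≠ 0 := by
    by_contra h
    push Not at h
    rw [h.1, h.2] at hdet
    simp at hdet
  have hden : UpperHalfPlane.denom g z = (g 1 0 : ℂ) * z + (g 1 1 : ℂ) :=
    ModularGroup.denom_apply g z
  rw [hden]
  generalize g 1 0 = c at *
  generalize g 1 1 = d at *
  have hns : Complex.normSq ((c : ℂ) * z + (d : ℂ))
      = (c : ℝ) ^ 2 * Complex.normSq z + 2 * c * d * z.re + (d : ℝ) ^ 2 := by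
    rw [Complex.normSq_apply, Complex.normSq_apply]
    simp
    ring
  rw [hns]
  have hx := abs_le.1 h2
  have hint : (1 : ℤ) ≤ c ^ 2 - |c * d| + d ^ 2 := by
    have h3 : 0 ≤ |c * d| := abs_nonneg _
    rw [abs_mul]
    have hc := sq_abs c
    have hd := sq_abs d
    rw [← hc, ← hd]
    have hc0 := abs_nonneg c
    have hd0 := abs_nonneg d
    rcases hne with h | h
    · have h4 : 1 ≤ |c| := Int.one_le_abs h
      nlinarith [sq_nonneg (2 * |d| - |c|), sq_nonneg (|c| - |d|)]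
    · have h4 : 1 ≤ |d| := Int.one_le_abs h
      nlinarith [sq_nonneg (2 * |c| - |d|), sq_nonneg (|c| - |d|)]
  have hreal : (1 : ℝ) ≤ (c : ℝ) ^ 2 - |(c : ℝ) * d| + (d : ℝ) ^ 2 := by exact_mod_cast hint
  have hcd : -|(c : ℝ) * d| ≤ 2 * c * d * z.re := by
    have h4 : |2 * (c : ℝ) * d * z.re| ≤ |(c : ℝ) * d| := by
      rw [show 2 * (c : ℝ) * d * z.re = (c * d) * (2 * z.re) by ring, abs_mul]
      have h5 : |2 * z.re| ≤ 1 := by rw [abs_le]; constructor <;> linarith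
      calc |(c : ℝ) * d| * |2 * z.re| ≤ |(c : ℝ) * d| * 1 := by gcongr
        _ = _ := mul_one _
    have := (abs_le.1 h4).1
    linarith
  have hc2 : (c : ℝ) ^ 2 ≤ (c : ℝ) ^ 2 * Complex.normSq z := by
    nlinarith [sq_nonneg (c : ℝ)]
  linarith

lemma im_smul_le {z : UpperHalfPlane} (hz : z ∈ 𝒟) (g : SL(2, ℤ)) : (g • z).im ≤ z.im := by
  rw [ModularGroup.im_smul_eq_div_normSq]
  exact div_le_self z.im_pos.le (normSq_denom_ge hz g)

/-- reduction: a point of the fundamental domain with maximal imaginary part -/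
lemma exists_reduced (z : UpperHalfPlane) : ∃ g : SL(2, ℤ), g • z ∈ 𝒟 ∧
    ∀ c d : ℤ, IsCoprime c d → z.im / Complex.normSq ((c : ℂ) * z + d) ≤ (g • z).im := by
  obtain ⟨g, hg⟩ := ModularGroup.exists_smul_mem_fd z
  refine ⟨g, hg, fun c d hcd => ?_⟩
  obtain ⟨h, -, hh⟩ := ModularGroup.bottom_row_surj (R := ℤ)
    (show (![c, d] : Fin 2 → ℤ) ∈ {cd : Fin 2 → ℤ | IsCoprime (cd 0) (cd 1)} by simpa using hcd)
  have h10 : h 1 0 = c := by have := congrFun hh 0; simpa using this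
  have h11 : h 1 1 = d := by have := congrFun hh 1; simpa using this
  have h1 := ModularGroup.im_smul_eq_div_normSq h z
  rw [ModularGroup.denom_apply, h10, h11] at h1
  rw [← h1]
  have h2 : h • z = (h * g⁻¹) • (g • z) := by
    rw [← mul_smul]; simp
  rw [h2]
  exact im_smul_le hg _


lemma norm_tsum_log_le {q : ℂ} (hq : ‖q‖ ≤ 1 / 200) :
    ‖∑' n : ℕ, log (1 - q ^ (n + 1))‖ ≤ 1 / 130 := by
  have hq1 : ‖q‖ < 1 := by linarith
  have hb : ∀ n : ℕ, ‖log (1 - q ^ (n + 1))‖ ≤ 3 / 2 * ‖q‖ ^ (n + 1) := by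
    intro n
    have h1 : ‖-q ^ (n + 1)‖ ≤ 1 / 2 := by
      rw [norm_neg, norm_pow]
      calc ‖q‖ ^ (n + 1) ≤ ‖q‖ ^ 1 := pow_le_pow_of_le_one (norm_nonneg _) hq1.le (by omega)
        _ ≤ 1 / 2 := by rw [pow_one]; linarith
    have h2 := Complex.norm_log_one_add_half_le_self h1
    rw [← sub_eq_add_neg, norm_neg, norm_pow] at h2
    exact h2
  have hgeo : Summable fun n : ℕ => 3 / 2 * ‖q‖ ^ (n + 1) :=
    (((summable_nat_add_iff 1).2 (summable_geometric_of_lt_one (norm_nonneg q) hq1))).mul_left _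
  refine (norm_tsum_le_tsum_norm (Summable.of_nonneg_of_le (fun n => norm_nonneg _) hb hgeo)).trans ?_
  refine ((Summable.of_nonneg_of_le (fun n => norm_nonneg _) hb hgeo).tsum_le_tsum hb hgeo).trans ?_
  have hval : ∑' n : ℕ, 3 / 2 * ‖q‖ ^ (n + 1) = 3 / 2 * (‖q‖ / (1 - ‖q‖)) := by
    rw [tsum_mul_left]
    congr 1
    have : ∀ n : ℕ, ‖q‖ ^ (n + 1) = ‖q‖ * ‖q‖ ^ n := fun n => by rw [pow_succ]; ring
    simp only [this]
    rw [tsum_mul_left, tsum_geometric_of_lt_one (norm_nonneg _) hq1]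
    rfl
  rw [hval]
  have h3 : ‖q‖ / (1 - ‖q‖) ≤ 1 / 199 := by
    rw [div_le_div_iff₀ (by linarith) (by norm_num)]
    linarith
  linarith

lemma norm_qq_fd {z : ℂ} (h : 3 ≤ 4 * z.im ^ 2) (h0 : 0 < z.im) : ‖qq z‖ ≤ 1 / 200 := by
  rw [norm_qq, Real.exp_neg, show (1 / 200 : ℝ) = 200⁻¹ by norm_num]
  apply inv_anti₀ (by norm_num : (0 : ℝ) < 200)
  have him : 0.866 ≤ z.im := by
    by_contra hcon
    push Not at hcon
    nlinarith
  have hpi := Real.pi_gt_d2
  have h1 : (5.4 : ℝ) ≤ 2 * π * z.im := by nlinarith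
  have h2 : (200 : ℝ) ≤ Real.exp 5.4 := by
    have he := Real.exp_one_gt_d9
    have h3 : Real.exp 5.4 = Real.exp 1 ^ 5 * Real.exp 0.4 := by
      rw [← Real.exp_nat_mul, ← Real.exp_add]; norm_num
    have h4 : (1.4 : ℝ) ≤ Real.exp 0.4 := by
      have := Real.add_one_le_exp (0.4 : ℝ); linarith
    rw [h3]
    have h5 : (2.7182818283 : ℝ) ^ 5 ≤ Real.exp 1 ^ 5 := by gcongr
    calc (200 : ℝ) ≤ (2.7182818283 : ℝ) ^ 5 * 1.4 := by norm_num
      _ ≤ _ := by gcongr
  exact h2.trans (Real.exp_le_exp.2 h1)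

lemma lgeta_fd {z : ℂ} (h : 3 ≤ 4 * z.im ^ 2) (h0 : 0 < z.im) :
    |lgeta z + π * z.im / 12| ≤ 1 / 130 := by
  have hq := norm_qq_fd h h0
  have hq1 : ‖qq z‖ < 1 := by linarith
  have h1 : ∀ n : ℕ, ModularForm.eta_q n z = (qq z) ^ (n + 1) := fun n => by
    rw [ModularForm.eta_q, qq_eq_qParam]
  have h2 : ModularForm.eta z = Function.Periodic.qParam 24 z *
      Complex.exp (∑' n : ℕ, log (1 - qq z ^ (n + 1))) := by
    unfold ModularForm.eta
    simp only [h1]
    rw [cexp_tsum_eq_tprod (one_sub_pow_ne_zero hq1) (summable_log hq1)]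
  have h3 : ‖Function.Periodic.qParam 24 z‖ = Real.exp (-(π * z.im / 12)) := by
    unfold Function.Periodic.qParam
    rw [Complex.norm_exp]
    congr 1
    have : (2 * π * I * z / ((24 : ℝ) : ℂ)) = ((2 * π / 24 : ℝ) : ℂ) * (I * z) := by
      push_cast; ring
    rw [this, Complex.re_ofReal_mul]
    simp
    ring
  unfold lgeta
  rw [h2, norm_mul, h3, Complex.norm_exp, ← Real.exp_add, Real.log_exp]
  have h4 := norm_tsum_log_le hq
  have h5 := Complex.abs_re_le_norm (∑' n : ℕ, log (1 - qq z ^ (n + 1)))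
  rw [show -(π * z.im / 12) + (∑' n : ℕ, log (1 - qq z ^ (n + 1))).re + π * z.im / 12
    = (∑' n : ℕ, log (1 - qq z ^ (n + 1))).re by ring]
  exact h5.trans h4


lemma psi_ineq {t u : ℝ} (ht : 1 ≤ t) (hu : 0.866 ≤ u) :
    1 / 4 * Real.log t - π * u / 36 * (t - 3) ≤ max (1 / 2) (π * u / 18) := by
  have hpi := Real.pi_gt_d2
  set v : ℝ := π * u / 9 with hv
  have hv1 : 0.302 ≤ v := by rw [hv]; nlinarith
  have e1 : π * u / 36 = v / 4 := by rw [hv]; ring
  have e2 : π * u / 18 = v / 2 := by rw [hv]; ring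
  rw [e1, e2]
  have ht0 : 0 < t := by linarith
  rcases le_or_gt 1 v with h | h
  · refine le_trans ?_ (le_max_right _ _)
    have h1 : Real.log t ≤ t - 1 := Real.log_le_sub_one_of_pos ht0
    nlinarith
  · refine le_trans ?_ (le_max_left _ _)
    have hv0 : 0 < v := by linarith
    have h1 : Real.log (v * t) ≤ v * t - 1 := Real.log_le_sub_one_of_pos (by positivity)
    rw [Real.log_mul hv0.ne' ht0.ne'] at h1
    obtain ⟨r, hr0, hr⟩ : ∃ r : ℝ, 0 < r ∧ r ^ 2 = v := ⟨Real.sqrt v, Real.sqrt_pos.2 hv0,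
      Real.sq_sqrt hv0.le⟩
    have hr1 : r < 1 := by nlinarith
    have hr2 : 0.54 ≤ r := by
      by_contra hcon
      push Not at hcon
      nlinarith
    have h2 : -Real.log v ≤ 2 * (1 / r - 1) := by
      rw [← hr, Real.log_pow]
      have h3 : Real.log (1 / r) ≤ 1 / r - 1 := Real.log_le_sub_one_of_pos (by positivity)
      rw [one_div, Real.log_inv] at h3
      rw [one_div]
      push_cast
      linarith
    have h4 : 2 * (1 / r - 1) ≤ 3 - 3 * v := by
      rw [← hr]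
      have h5 : 2 * (1 / r) ≤ 5 - 3 * r ^ 2 := by
        rw [mul_one_div, div_le_iff₀ hr0]
        have : (r - 1) * (3 * r ^ 2 + 3 * r - 2) ≤ 0 :=
          mul_nonpos_of_nonpos_of_nonneg (by linarith) (by nlinarith)
        nlinarith
      linarith
    nlinarith

lemma psi_ineq3 {t u : ℝ} (ht : 3 ≤ t) (hu : 0.866 ≤ u) :
    1 / 4 * Real.log t - π * u / 36 * (t - 3) ≤ 1 / 2 := by
  have hpi := Real.pi_gt_d2
  set v : ℝ := π * u / 9 with hv
  have hv1 : 0.302 ≤ v := by rw [hv]; nlinarith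
  have e1 : π * u / 36 = v / 4 := by rw [hv]; ring
  rw [e1]
  have h1 : Real.log (t / 4) ≤ t / 4 - 1 := Real.log_le_sub_one_of_pos (by positivity)
  rw [Real.log_div (by linarith) (by norm_num)] at h1
  have h2 : Real.log 4 ≤ 1.4 := by
    rw [show (4 : ℝ) = 2 ^ 2 by norm_num, Real.log_pow]
    have := Real.log_two_lt_d9
    push_cast
    linarith
  nlinarith

/-- three times a point of the upper half-plane -/
noncomputable def three (z : UpperHalfPlane) : UpperHalfPlane :=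
  ⟨3 * z, by
    have := z.im_pos
    simp
    exact this⟩

lemma three_coe (z : UpperHalfPlane) : (three z : ℂ) = 3 * z := rfl

lemma three_im (z : UpperHalfPlane) : (three z).im = 3 * z.im := by
  change (3 * (z : ℂ)).im = 3 * z.im
  simp

/-- minor arc bound -/
lemma minor {τ : ℂ} (h : 0 < τ.im) : ∃ c d : ℤ, IsCoprime c d ∧ ¬ (3 ∣ d) ∧
    (L (qq τ)).re + π * τ.im / 6 ≤ 1 / 65 +
      max (1 / 2) (π / 18 * (3 * τ.im / Complex.normSq (3 * c * τ + d))) := by
  obtain ⟨z, hz⟩ : ∃ z : UpperHalfPlane, (z : ℂ) = τ := ⟨⟨τ, h⟩, rfl⟩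
  have hzim : z.im = τ.im := by rw [← hz]; rfl
  obtain ⟨g1, hg1, hmax1⟩ := exists_reduced z
  obtain ⟨g2, hg2, -⟩ := exists_reduced (three z)
  set Y1 := (g1 • z).im with hY1
  set Y2 := (g2 • three z).im with hY2
  have hY1pos : 0 < Y1 := (g1 • z).im_pos
  have hY2pos : 0 < Y2 := (g2 • three z).im_pos
  have hfd1 := ModularGroup.three_le_four_mul_im_sq_of_mem_fd hg1
  have hfd2 := ModularGroup.three_le_four_mul_im_sq_of_mem_fd hg2
  have hY2ge : 0.866 ≤ Y2 := by
    by_contra hcon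
    push Not at hcon
    have : (g2 • three z).im = Y2 := rfl
    rw [this] at hfd2
    nlinarith
  -- log |f|
  have hf : (L (qq τ)).re + π * τ.im / 6 = lgeta τ - lgeta (3 * τ) := by
    have h3 : 0 < (3 * τ).im := by simp; exact h
    have h1 := eta_ratio h
    unfold lgeta
    rw [h1, norm_mul, Real.log_mul (by simp) (norm_ne_zero_iff.2 (eta_ne_zero' h3)),
      Complex.norm_exp, Real.log_exp]
    have : (L (qq τ) - π * I * τ / 6).re = (L (qq τ)).re + π * τ.im / 6 := by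
      have h6 : (π * I * τ / 6 : ℂ) = ((π / 6 : ℝ) : ℂ) * (I * τ) := by push_cast; ring
      rw [Complex.sub_re, h6, Complex.re_ofReal_mul]
      simp
      ring
    rw [this]; ring
  have e1 := lgeta_smul g1 z
  have e2 := lgeta_smul g2 (three z)
  rw [three_im, three_coe] at e2
  rw [hz] at e1 e2
  rw [hzim] at e1 e2
  have b1 := abs_le.1 (lgeta_fd (z := (g1 • z : UpperHalfPlane)) hfd1 hY1pos)
  have b2 := abs_le.1 (lgeta_fd (z := (g2 • three z : UpperHalfPlane)) hfd2 hY2pos)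
  have c1 : ((g1 • z : UpperHalfPlane) : ℂ).im = Y1 := rfl
  have c2 : ((g2 • three z : UpperHalfPlane) : ℂ).im = Y2 := rfl
  rw [c1] at b1
  rw [c2] at b2
  have hlog3 : Real.log (3 * τ.im) = Real.log 3 + Real.log τ.im :=
    Real.log_mul (by norm_num) h.ne'
  have hlogt : Real.log (3 * Y1 / Y2) = Real.log 3 + Real.log Y1 - Real.log Y2 := by
    rw [Real.log_div (by positivity) hY2pos.ne', Real.log_mul (by norm_num) hY1pos.ne']
  have hmain : lgeta τ - lgeta (3 * τ) ≤ 1 / 65 +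
      (1 / 4 * Real.log (3 * Y1 / Y2) - π * Y2 / 36 * (3 * Y1 / Y2 - 3)) := by
    have h1 : π * Y2 / 36 * (3 * Y1 / Y2 - 3) = π * Y1 / 12 - π * Y2 / 12 := by
      field_simp
      ring
    rw [h1, hlogt]
    rw [hlog3] at e2
    linarith [b1.1, b1.2, b2.1, b2.2]
  rw [hf]
  -- bottom row of g2
  have hcop : IsCoprime (g2 1 0) (g2 1 1) := ModularGroup.bottom_row_coprime g2
  have hY2eq : Y2 = 3 * τ.im / Complex.normSq (3 * (g2 1 0 : ℂ) * τ + (g2 1 1 : ℂ)) := by
    rw [hY2, ModularGroup.im_smul_eq_div_normSq, ModularGroup.denom_apply, three_im, three_coe,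
      hz, hzim]
    congr 2
    ring
  by_cases h3d : (3 : ℤ) ∣ g2 1 1
  · -- then `Y1 ≥ 3 Y2`
    refine ⟨0, 1, isCoprime_zero_left.2 isUnit_one, by norm_num, ?_⟩
    obtain ⟨d', hd'⟩ := h3d
    have hcop' : IsCoprime (g2 1 0) d' := by
      rw [hd'] at hcop
      exact hcop.of_mul_right_right
    have h1 := hmax1 _ _ hcop'
    rw [hz, hzim] at h1
    have h2 : Y2 = 1 / 3 * (τ.im / Complex.normSq ((g2 1 0 : ℂ) * τ + (d' : ℂ))) := by
      rw [hY2eq, hd']
      have : (3 * (g2 1 0 : ℂ) * τ + ((3 * d' : ℤ) : ℂ)) = 3 * ((g2 1 0 : ℂ) * τ + (d' : ℂ)) := by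
        push_cast; ring
      rw [this, Complex.normSq_mul]
      have h9 : Complex.normSq 3 = 9 := by
        have : (3 : ℂ) = ((3 : ℝ) : ℂ) := by norm_num
        rw [this, Complex.normSq_ofReal]; norm_num
      rw [h9]
      rw [show (9 : ℝ) * Complex.normSq ((g2 1 0 : ℂ) * τ + (d' : ℂ))
        = 3 * (3 * Complex.normSq ((g2 1 0 : ℂ) * τ + (d' : ℂ))) by ring]
      rw [mul_div_mul_left _ _ (by norm_num : (3 : ℝ) ≠ 0), ← div_div, one_div]
      ring
    have h3 : 3 * Y2 ≤ Y1 := by rw [h2]; linarith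
    have h4 : 3 ≤ 3 * Y1 / Y2 := by
      rw [le_div_iff₀ hY2pos]; linarith
    have h5 := psi_ineq3 h4 hY2ge
    refine hmain.trans ?_
    gcongr
    exact h5.trans (le_max_left _ _)
  · refine ⟨g2 1 0, g2 1 1, hcop, h3d, ?_⟩
    rw [← hY2eq]
    have hcop' : IsCoprime (3 * g2 1 0) (g2 1 1) := by
      refine IsCoprime.mul_left ?_ hcop
      exact ((Int.prime_three.coprime_iff_not_dvd).2 h3d)
    have h1 := hmax1 _ _ hcop'
    rw [hz, hzim] at h1
    have h2 : Y2 / 3 ≤ Y1 := by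
      rw [hY2eq]
      refine le_trans (le_of_eq ?_) h1
      push_cast
      ring
    have h4 : 1 ≤ 3 * Y1 / Y2 := by
      rw [le_div_iff₀ hY2pos]; linarith
    have h5 := psi_ineq h4 hY2ge
    refine hmain.trans ?_
    gcongr
    refine h5.trans (le_of_eq ?_)
    congr 1
    ring

end Pool.Agent.Lib.MP_067a7d_co
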