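import Pool.Agent.Lib.MP_067a7d_co.Series

namespace Pool.Agent.Lib.MP_067a7d_co

open Complex Finset
open scoped Real

lemma one_sub_pow_ne_zero {q : ℂ} (hq : ‖q‖ < 1) (n : ℕ) : 1 - q ^ (n + 1) ≠ 0 := by
  intro h
  have h1 : q ^ (n + 1) = 1 := (sub_eq_zero.1 h).symm
  have h2 : ‖q‖ ^ (n + 1) < 1 := pow_lt_one₀ (norm_nonneg _) hq (Nat.succ_ne_zero n)
  rw [← norm_pow, h1] at h2
  simp at h2

lemma summable_log {q : ℂ} (hq : ‖q‖ < 1) : Summable fun n : ℕ => log (1 - q ^ (n + 1)) := by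
  have h : Summable fun n : ℕ => -q ^ (n + 1) := by
    have h0 : Summable fun n : ℕ => q ^ n := summable_geometric_of_norm_lt_one hq
    exact ((summable_nat_add_iff 1).2 h0).neg
  have := Complex.summable_log_one_add_of_summable h
  simpa [sub_eq_add_neg] using this

/-- the double family -/
noncomputable def F (q : ℂ) (x : ℕ+ × ℕ+) : ℂ :=
  if 3 ∣ (x.1 : ℕ) then 0 else q ^ ((x.1 : ℕ) * (x.2 : ℕ)) / (x.2 : ℂ)

lemma summable_F {q : ℂ} (hq : ‖q‖ < 1) : Summable (F q) := by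
  have h := summable_prod_mul_pow (𝕜 := ℝ) 0 (r := ‖q‖) (by simpa using hq)
  refine Summable.of_norm_bounded h (fun x => ?_)
  unfold F
  split_ifs
  · simp
  · rw [norm_div, norm_pow]
    have : (1 : ℝ) ≤ ‖((x.2 : ℕ) : ℂ)‖ := by
      rw [Complex.norm_natCast]; exact_mod_cast x.2.pos
    simp only [pow_zero, one_mul]
    exact div_le_self (by positivity) this

lemma tsum_F_log {q : ℂ} (hq : ‖q‖ < 1) :
    ∑' x, F q x = -∑' n : ℕ, (if 3 ∣ (n + 1) then 0 else log (1 - q ^ (n + 1))) := by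
  rw [(summable_F hq).tsum_prod, ← tsum_neg, ← tsum_pnat_eq_tsum_succ
    (f := fun n => -(if 3 ∣ n then 0 else log (1 - q ^ n)))]
  apply tsum_congr
  intro m
  unfold F
  split_ifs with h
  · simp [h]
  · have hm : ‖q ^ (m : ℕ)‖ < 1 := by
      rw [norm_pow]; exact pow_lt_one₀ (norm_nonneg _) hq m.ne_zero
    have h1 := (hasSum_taylorSeries_neg_log' hm).tsum_eq
    rw [← h1]
    have h2 := tsum_pnat_eq_tsum_succ (f := fun n : ℕ => (q ^ (m : ℕ)) ^ n / (n : ℂ))
    simp only [Nat.cast_add, Nat.cast_one] at h2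
    rw [← h2]
    apply tsum_congr
    intro k
    simp [h, pow_mul]

lemma tsum_F_L {q : ℂ} (hq : ‖q‖ < 1) : ∑' x, F q x = -L q := by
  have hsg0 : Summable (F q ∘ sigmaAntidiagonalEquivProd) :=
    (sigmaAntidiagonalEquivProd.summable_iff (f := F q)).2 (summable_F hq)
  have hsg : Summable fun x => F q (sigmaAntidiagonalEquivProd x) := hsg0
  rw [← sigmaAntidiagonalEquivProd.tsum_eq (F q), hsg.tsum_sigma]
  have hL : L q = ∑' n : ℕ+, l n * q ^ (n : ℕ) := by
    unfold L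
    rw [← tsum_zero_pnat_eq_tsum_nat (temp_l.summable hq)]
    simp [l_zero]
  rw [hL, ← tsum_neg]
  apply tsum_congr
  intro n
  rw [tsum_fintype]
  have h1 : ∀ x : (n : ℕ).divisorsAntidiagonal,
      F q (sigmaAntidiagonalEquivProd ⟨n, x⟩) =
        (fun y : ℕ × ℕ => if 3 ∣ y.1 then 0 else q ^ (n : ℕ) / (y.2 : ℂ)) x := by
    intro x
    have hx := (Nat.mem_divisorsAntidiagonal.1 x.2).1
    simp only [F, sigmaAntidiagonalEquivProd, divisorsAntidiagonalFactors, Equiv.coe_fn_mk,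
      PNat.mk_coe]
    simp only [hx]
  rw [Finset.sum_congr rfl (fun x _ => h1 x),
    Finset.sum_coe_sort (n : ℕ).divisorsAntidiagonal
      (fun y : ℕ × ℕ => if 3 ∣ y.1 then 0 else q ^ (n : ℕ) / (y.2 : ℂ)),
    Nat.sum_divisorsAntidiagonal (fun x y => if 3 ∣ x then (0 : ℂ) else q ^ (n : ℕ) / (y : ℂ))]
  unfold l s
  rw [neg_div, neg_mul, neg_neg]
  push_cast
  rw [Finset.sum_filter, Finset.sum_div, Finset.sum_mul]
  apply Finset.sum_congr rfl
  intro m hm
  have hmd := Nat.dvd_of_mem_divisors hm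
  have hm0 : (m : ℂ) ≠ 0 := by
    have := Nat.pos_of_mem_divisors hm
    exact_mod_cast this.ne'
  have hn0 : ((n : ℕ) : ℂ) ≠ 0 := by exact_mod_cast n.ne_zero
  rw [Nat.cast_div hmd hm0]
  by_cases h3 : 3 ∣ m
  · simp [h3]
  · simp only [h3, if_false, not_false_eq_true, if_true]
    field_simp

lemma L_eq_tsum_log {q : ℂ} (hq : ‖q‖ < 1) :
    L q = ∑' n : ℕ, (if 3 ∣ (n + 1) then 0 else log (1 - q ^ (n + 1))) := by
  have h1 := tsum_F_log hq
  rw [tsum_F_L hq] at h1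
  exact neg_injective h1

lemma tsum_residue3 {f : ℕ → ℂ} (hf : Summable f) :
    ∑' n, f n = ∑' k, f (3 * k) + ∑' k, f (3 * k + 1) + ∑' k, f (3 * k + 2) := by
  rw [Nat.sumByResidueClasses hf 3]
  have : (Finset.univ : Finset (ZMod 3)) = {0, 1, 2} := by decide
  rw [this, Finset.sum_insert (by decide), Finset.sum_insert (by decide), Finset.sum_singleton,
    ← add_assoc]
  have h0 : (0 : ZMod 3).val = 0 := rfl
  have h1 : (1 : ZMod 3).val = 1 := rfl
  have h2 : (2 : ZMod 3).val = 2 := rfl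
  rw [h0, h1, h2]
  congr 1
  · congr 1
    · apply tsum_congr; intro k; congr 1; omega
    · apply tsum_congr; intro k; congr 1; omega
  · apply tsum_congr; intro k; congr 1; omega

lemma inj3 (i : ℕ) : Function.Injective fun k : ℕ => 3 * k + i := by
  intro a b h; simp at h; omega

lemma L_eq_sum_two {q : ℂ} (hq : ‖q‖ < 1) :
    L q = ∑' k : ℕ, (log (1 - q ^ (3 * k + 1)) + log (1 - q ^ (3 * k + 2))) := by
  rw [L_eq_tsum_log hq]
  have hs : Summable fun n : ℕ => (if 3 ∣ (n + 1) then 0 else log (1 - q ^ (n + 1))) := by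
    refine Summable.of_norm_bounded (summable_log hq).norm (fun n => ?_)
    split_ifs
    · simp
    · exact le_refl _
  rw [tsum_residue3 hs]
  have e1 : ∀ k : ℕ, (if 3 ∣ (3 * k + 1) then 0 else log (1 - q ^ (3 * k + 1)))
      = log (1 - q ^ (3 * k + 1)) := fun k => by rw [if_neg (by omega)]
  have e2 : ∀ k : ℕ, (if 3 ∣ (3 * k + 1 + 1) then 0 else log (1 - q ^ (3 * k + 1 + 1)))
      = log (1 - q ^ (3 * k + 2)) := fun k => by rw [if_neg (by omega)]
  have e3 : ∀ k : ℕ, (if 3 ∣ (3 * k + 2 + 1) then 0 else log (1 - q ^ (3 * k + 2 + 1)))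
      = 0 := fun k => by rw [if_pos (by omega)]
  simp only [e1, e2, e3, tsum_zero, add_zero]
  rw [Summable.tsum_add]
  · exact (summable_log hq).comp_injective (inj3 0)
  · exact (summable_log hq).comp_injective (inj3 1)

lemma summable_two {q : ℂ} (hq : ‖q‖ < 1) :
    Summable fun k : ℕ => (log (1 - q ^ (3 * k + 1)) + log (1 - q ^ (3 * k + 2))) :=
  ((summable_log hq).comp_injective (inj3 0)).add ((summable_log hq).comp_injective (inj3 1))

/-- `exp L = P(q)/P(q^3)` -/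
lemma exp_L_mul {q : ℂ} (hq : ‖q‖ < 1) :
    Complex.exp (L q) * ∏' n : ℕ, (1 - (q ^ 3) ^ (n + 1)) = ∏' n : ℕ, (1 - q ^ (n + 1)) := by
  have hq3 : ‖q ^ 3‖ < 1 := by
    rw [norm_pow]; exact pow_lt_one₀ (norm_nonneg _) hq (by norm_num)
  rw [← cexp_tsum_eq_tprod (one_sub_pow_ne_zero hq3) (summable_log hq3),
    ← cexp_tsum_eq_tprod (one_sub_pow_ne_zero hq) (summable_log hq), ← Complex.exp_add,
    tsum_residue3 (summable_log hq), L_eq_sum_two hq]
  have hs1 : Summable fun k : ℕ => log (1 - q ^ (3 * k + 1)) :=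
    (summable_log hq).comp_injective (inj3 0)
  have hs2 : Summable fun k : ℕ => log (1 - q ^ (3 * k + 2)) :=
    (summable_log hq).comp_injective (inj3 1)
  rw [hs1.tsum_add hs2]
  congr 1
  have : ∀ k : ℕ, (q ^ 3) ^ (k + 1) = q ^ (3 * k + 2 + 1) := fun k => by rw [← pow_mul]; ring_nf
  simp only [this]

/-- real version of the product -/
lemma rpow_prod {q : ℝ} (hq : |q| < 1) (d : ℝ) :
    (((∏' k : ℕ, (1 - q ^ (3 * k + 1)) * (1 - q ^ (3 * k + 2))) ^ d : ℝ) : ℂ)
      = Complex.exp (d * L q) := by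
  have hqc : ‖(q : ℂ)‖ < 1 := by rw [Complex.norm_real]; exact hq
  have hpos : ∀ n : ℕ, 0 < 1 - q ^ (n + 1) := by
    intro n
    have h1 : |q ^ (n + 1)| < 1 := by
      rw [abs_pow]; exact pow_lt_one₀ (abs_nonneg _) hq (Nat.succ_ne_zero n)
    linarith [(abs_lt.1 h1).2]
  have hlog : ∀ n : ℕ, Complex.log (1 - (q : ℂ) ^ (n + 1)) = ((Real.log (1 - q ^ (n + 1)) : ℝ) : ℂ) := by
    intro n
    rw [Complex.ofReal_log (hpos n).le]; push_cast; rfl
  have hterm : ∀ k : ℕ, (Complex.log (1 - (q : ℂ) ^ (3 * k + 1)) + Complex.log (1 - (q : ℂ) ^ (3 * k + 2)))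
      = ((Real.log ((1 - q ^ (3 * k + 1)) * (1 - q ^ (3 * k + 2))) : ℝ) : ℂ) := by
    intro k
    rw [hlog (3 * k), hlog (3 * k + 1), Real.log_mul (hpos (3 * k)).ne' (hpos (3 * k + 1)).ne']
    push_cast; rfl
  have hsumR : Summable fun k : ℕ => Real.log ((1 - q ^ (3 * k + 1)) * (1 - q ^ (3 * k + 2))) := by
    have := summable_two hqc
    simp only [hterm] at this
    exact Complex.summable_ofReal.1 this
  have hprod := Real.rexp_tsum_eq_tprod
    (fun k : ℕ => mul_pos (hpos (3 * k)) (hpos (3 * k + 1))) hsumR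
  rw [L_eq_sum_two hqc]
  simp only [hterm]
  rw [← Complex.ofReal_tsum, ← Complex.ofReal_mul, ← Complex.ofReal_exp]
  congr 1
  rw [← hprod, ← Real.exp_mul, mul_comm]

/-- power series expansion in real form -/
lemma hasSum_real (d : ℝ) {q : ℝ} (hq : |q| < 1) :
    HasSum (fun n => c d n * q ^ n)
      ((∏' k : ℕ, (1 - q ^ (3 * k + 1)) * (1 - q ^ (3 * k + 2))) ^ d) := by
  have hqc : ‖(q : ℂ)‖ < 1 := by rw [Complex.norm_real]; exact hq
  have h := hasSum_c d hqc
  rw [← rpow_prod hq d] at h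
  have h2 : (fun n => (c d n : ℂ) * (q : ℂ) ^ n) = fun n => ((c d n * q ^ n : ℝ) : ℂ) := by
    ext n; push_cast; rfl
  rw [h2] at h
  exact Complex.hasSum_ofReal.1 h

end Pool.Agent.Lib.MP_067a7d_co
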