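import Pool.Agent.Lib.MP_067a7d_co.Basic

namespace Pool.Agent.Lib.MP_067a7d_co

open Complex Finset
open scoped Real

/-- coefficient sequences of power series converging on the unit disc -/
def Temp (a : ℕ → ℂ) : Prop := ∀ r : ℝ, 0 < r → r < 1 → ∃ M : ℝ, ∀ n, ‖a n‖ * r ^ n ≤ M

lemma Temp.summable_norm {a : ℕ → ℂ} (ha : Temp a) {q : ℂ} (hq : ‖q‖ < 1) :
    Summable fun n => ‖a n * q ^ n‖ := by
  obtain ⟨r, hr1, hr2⟩ := exists_between hq
  have hr0 : 0 < r := lt_of_le_of_lt (norm_nonneg _) hr1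
  obtain ⟨M, hM⟩ := ha r hr0 hr2
  have hg : Summable fun n : ℕ => M * (‖q‖ / r) ^ n :=
    (summable_geometric_of_lt_one (by positivity) ((div_lt_one hr0).2 hr1)).mul_left M
  refine Summable.of_nonneg_of_le (fun n => norm_nonneg _) (fun n => ?_) hg
  rw [norm_mul, norm_pow, div_pow]
  have : ‖a n‖ * ‖q‖ ^ n = (‖a n‖ * r ^ n) * (‖q‖ ^ n / r ^ n) := by
    field_simp
  rw [this]
  exact mul_le_mul_of_nonneg_right (hM n) (by positivity)

lemma Temp.summable {a : ℕ → ℂ} (ha : Temp a) {q : ℂ} (hq : ‖q‖ < 1) :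
    Summable fun n => a n * q ^ n := (ha.summable_norm hq).of_norm

lemma Temp.deriv {a : ℕ → ℂ} (ha : Temp a) : Temp fun n => ((n : ℂ) + 1) * a (n + 1) := by
  intro r hr0 hr1
  obtain ⟨t, ht1, ht2⟩ := exists_between hr1
  have ht0 : 0 < t := hr0.trans ht1
  obtain ⟨M, hM⟩ := ha t ht0 ht2
  -- (n+1) r^n ≤ C t^(n+1)
  have hlim : Summable fun n : ℕ => ((n : ℝ)) ^ 1 * (r / t) ^ n :=
    summable_pow_mul_geometric_of_norm_lt_one 1 (by
      rw [Real.norm_of_nonneg (by positivity)]; exact (div_lt_one ht0).2 ht1)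
  have hlim2 : Summable fun n : ℕ => ((n : ℝ) + 1) * (r / t) ^ n := by
    have h0 : Summable fun n : ℕ => (r / t) ^ n :=
      summable_geometric_of_lt_one (by positivity) ((div_lt_one ht0).2 ht1)
    refine (hlim.add h0).congr (fun n => by ring)
  refine ⟨M * (∑' n : ℕ, ((n : ℝ) + 1) * (r / t) ^ n) / t, fun n => ?_⟩
  have h1 : ((n : ℝ) + 1) * (r / t) ^ n ≤ ∑' n : ℕ, ((n : ℝ) + 1) * (r / t) ^ n :=
    hlim2.le_tsum n (fun m _ => by positivity)
  have h2 := hM (n + 1)
  have h3 : ‖((n : ℂ) + 1) * a (n + 1)‖ = ((n : ℝ) + 1) * ‖a (n + 1)‖ := by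
    rw [norm_mul]
    congr 1
    have : ((n : ℂ) + 1) = ((n + 1 : ℕ) : ℂ) := by push_cast; ring
    rw [this, Complex.norm_natCast]; push_cast; ring
  rw [h3]
  have h4 : ((n : ℝ) + 1) * ‖a (n + 1)‖ * r ^ n
      = (‖a (n + 1)‖ * t ^ (n + 1)) * (((n : ℝ) + 1) * (r / t) ^ n) / t := by
    rw [div_pow, pow_succ]; field_simp
  rw [h4]
  have hM0 : 0 ≤ ‖a (n + 1)‖ * t ^ (n + 1) := by positivity
  gcongr
  exact hM0.trans h2

lemma Temp.hasDerivAt {a : ℕ → ℂ} (ha : Temp a) {q : ℂ} (hq : ‖q‖ < 1) :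
    HasDerivAt (fun z => ∑' n, a n * z ^ n) (∑' n : ℕ, (((n : ℂ) + 1) * a (n + 1)) * q ^ n) q := by
  obtain ⟨r, hr1, hr2⟩ := exists_between hq
  have hr0 : 0 < r := lt_of_le_of_lt (norm_nonneg _) hr1
  have hsum' := (ha.deriv).summable_norm (q := (r : ℂ)) (by
    rw [Complex.norm_real, Real.norm_of_nonneg hr0.le]; exact hr2)
  -- bound function on index n of the derivative
  let u : ℕ → ℝ := fun n => ‖(n : ℂ) * a n‖ * r ^ (n - 1)
  have hu : Summable u := by
    rw [← summable_nat_add_iff 1]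
    refine hsum'.congr (fun n => ?_)
    simp only [u, Nat.add_sub_cancel, norm_mul, norm_pow, Complex.norm_real,
      Real.norm_of_nonneg hr0.le]
    push_cast
    ring
  have key := hasDerivAt_tsum_of_isPreconnected (u := u) (g := fun n z => a n * z ^ n)
    (g' := fun n z => a n * ((n : ℂ) * z ^ (n - 1))) (t := Metric.ball (0 : ℂ) r) (y₀ := 0) (y := q)
    hu Metric.isOpen_ball (convex_ball _ _).isPreconnected
    (fun n y _ => (hasDerivAt_pow n y).const_mul (a n))
    (fun n y hy => by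
      simp only [u, norm_mul, norm_pow]
      have hy' : ‖y‖ ≤ r := by simpa using (mem_ball_zero_iff.1 hy).le
      calc ‖a n‖ * (‖(n : ℂ)‖ * ‖y‖ ^ (n - 1)) ≤ ‖a n‖ * (‖(n : ℂ)‖ * r ^ (n - 1)) := by gcongr
        _ = ‖(n : ℂ)‖ * ‖a n‖ * r ^ (n - 1) := by ring)
    (Metric.mem_ball_self hr0)
    (ha.summable (by simp))
    (by simpa using hr1)
  have h1 : (∑' n : ℕ, a n * ((n : ℂ) * q ^ (n - 1)))
      = ∑' n : ℕ, (((n : ℂ) + 1) * a (n + 1)) * q ^ n := by
    have hs : Summable fun n : ℕ => a n * ((n : ℂ) * q ^ (n - 1)) := by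
      rw [← summable_nat_add_iff 1]
      refine ((ha.deriv).summable hq).congr (fun n => ?_)
      simp only [Nat.add_sub_cancel]; push_cast; ring
    rw [hs.tsum_eq_zero_add]
    simp only [Nat.cast_zero, zero_mul, mul_zero, zero_add, Nat.add_sub_cancel]
    apply tsum_congr
    intro n; push_cast; ring
  rw [h1] at key
  exact key

lemma Temp.continuousOn {a : ℕ → ℂ} (ha : Temp a) :
    ContinuousOn (fun z => ∑' n, a n * z ^ n) (Metric.ball (0 : ℂ) 1) := fun q hq =>
  ((ha.hasDerivAt (by simpa using hq)).continuousAt).continuousWithinAt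

/-- log-derivative coefficients -/
lemma temp_s : Temp fun n => (s (n + 1) : ℂ) := by
  intro r hr0 hr1
  have hlim : Summable fun n : ℕ => ((n : ℝ)) ^ 2 * r ^ n :=
    summable_pow_mul_geometric_of_norm_lt_one 2 (by
      rw [Real.norm_of_nonneg (by positivity)]; exact hr1)
  refine ⟨(∑' n : ℕ, ((n : ℝ)) ^ 2 * r ^ n) / r, fun n => ?_⟩
  have h1 : (((n + 1 : ℕ) : ℝ)) ^ 2 * r ^ (n + 1) ≤ ∑' n : ℕ, ((n : ℝ)) ^ 2 * r ^ n :=
    hlim.le_tsum (n + 1) (fun m _ => by positivity)
  rw [le_div_iff₀ hr0, Complex.norm_natCast]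
  have h2 : (s (n + 1) : ℝ) ≤ ((n + 1 : ℕ) : ℝ) ^ 2 := by exact_mod_cast s_le_sq (n + 1)
  calc (s (n + 1) : ℝ) * r ^ n * r = (s (n + 1) : ℝ) * r ^ (n + 1) := by ring
    _ ≤ (((n + 1 : ℕ) : ℝ)) ^ 2 * r ^ (n + 1) := by gcongr
    _ ≤ _ := h1

/-- coefficients of the logarithm of the product -/
noncomputable def l (n : ℕ) : ℂ := -(s n : ℂ) / n

lemma l_zero : l 0 = 0 := by simp [l]

lemma l_succ (n : ℕ) : ((n : ℂ) + 1) * l (n + 1) = -(s (n + 1) : ℂ) := by
  unfold l
  have : ((n : ℂ) + 1) ≠ 0 := by exact_mod_cast Nat.succ_ne_zero n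
  push_cast
  field_simp

lemma temp_l : Temp l := by
  intro r hr0 hr1
  obtain ⟨M, hM⟩ := temp_s r hr0 hr1
  refine ⟨M, fun n => ?_⟩
  have hM0 : 0 ≤ M := le_trans (by positivity) (hM 0)
  cases n with
  | zero => simpa [l_zero] using hM0
  | succ n =>
    have h1 := hM n
    have h2 : ‖l (n + 1)‖ ≤ ‖(s (n + 1) : ℂ)‖ := by
      unfold l
      rw [norm_div, norm_neg, Complex.norm_natCast, Complex.norm_natCast]
      apply div_le_self (by positivity)
      push_cast; linarith [Nat.cast_nonneg (α := ℝ) n]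
    calc ‖l (n + 1)‖ * r ^ (n + 1) ≤ ‖(s (n + 1) : ℂ)‖ * r ^ n := by
          apply mul_le_mul h2 (pow_le_pow_of_le_one hr0.le hr1.le (Nat.le_succ n)) (by positivity)
            (by positivity)
      _ ≤ M := h1

/-- logarithm of the product -/
noncomputable def L (q : ℂ) : ℂ := ∑' n, l n * q ^ n

lemma L_zero : L 0 = 0 := by
  unfold L
  rw [tsum_eq_single 0]
  · simp [l_zero]
  · intro n hn; simp [hn]

lemma L_hasDerivAt {q : ℂ} (hq : ‖q‖ < 1) :
    HasDerivAt L (-∑' n : ℕ, (s (n + 1) : ℂ) * q ^ n) q := by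
  have h := temp_l.hasDerivAt hq
  have h2 : (∑' n : ℕ, (((n : ℂ) + 1) * l (n + 1)) * q ^ n)
      = -∑' n : ℕ, (s (n + 1) : ℂ) * q ^ n := by
    rw [← tsum_neg]
    apply tsum_congr; intro n; rw [l_succ]; ring
  rw [h2] at h
  exact h

lemma temp_c (d : ℝ) : Temp fun n => (c d n : ℂ) := by
  intro r hr0 hr1
  have hS := temp_s.summable_norm (q := (r : ℂ)) (by
    rw [Complex.norm_real, Real.norm_of_nonneg hr0.le]; exact hr1)
  set S : ℝ := ∑' n : ℕ, ‖(s (n + 1) : ℂ) * (r : ℂ) ^ n‖ with hSdef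
  have hS0 : 0 ≤ S := tsum_nonneg (fun n => norm_nonneg _)
  obtain ⟨N0, hN0⟩ := exists_nat_ge (|d| * S * r)
  set M : ℝ := ∑ n ∈ range (N0 + 1), |c d n| * r ^ n with hMdef
  have hM0 : 0 ≤ M := Finset.sum_nonneg (fun n _ => by positivity)
  refine ⟨M, fun n => ?_⟩
  have hn : ‖(c d n : ℂ)‖ = |c d n| := by rw [Complex.norm_real, Real.norm_eq_abs]
  rw [hn]
  clear hn
  induction n using Nat.strong_induction_on with
  | _ n ih =>
    by_cases hcase : n ≤ N0
    · exact Finset.single_le_sum (f := fun n => |c d n| * r ^ n) (fun n _ => by positivity)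
        (Finset.mem_range.2 (by omega))
    · obtain ⟨m, rfl⟩ : ∃ m, n = m + 1 := ⟨n - 1, by omega⟩
      have hrec := c_succ d m
      have hm1 : (0 : ℝ) < (m : ℝ) + 1 := by positivity
      have hbound : ((m : ℝ) + 1) * |c d (m + 1)| ≤
          |d| * ∑ p ∈ antidiagonal m, (s (p.1 + 1) : ℝ) * |c d p.2| := by
        rw [← abs_of_pos hm1, ← abs_mul, hrec, abs_mul, abs_neg]
        gcongr
        refine (Finset.abs_sum_le_sum_abs _ _).trans (le_of_eq ?_)
        apply Finset.sum_congr rfl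
        intro p _
        rw [abs_mul, abs_of_nonneg (by positivity : (0 : ℝ) ≤ (s (p.1 + 1) : ℝ))]
      have hsum : (∑ p ∈ antidiagonal m, (s (p.1 + 1) : ℝ) * |c d p.2|) * r ^ (m + 1)
          ≤ S * r * M := by
        rw [Finset.sum_mul]
        have : ∀ p ∈ antidiagonal m, (s (p.1 + 1) : ℝ) * |c d p.2| * r ^ (m + 1)
            ≤ ‖(s (p.1 + 1) : ℂ) * (r : ℂ) ^ p.1‖ * (r * M) := by
          intro p hp
          have hp' := HasAntidiagonal.mem_antidiagonal.1 hp
          have h1 : |c d p.2| * r ^ p.2 ≤ M := ih p.2 (by omega)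
          rw [norm_mul, norm_pow, Complex.norm_natCast, Complex.norm_real,
            Real.norm_of_nonneg hr0.le]
          calc (s (p.1 + 1) : ℝ) * |c d p.2| * r ^ (m + 1)
              = ((s (p.1 + 1) : ℝ) * r ^ p.1) * (r * (|c d p.2| * r ^ p.2)) := by
                rw [← hp']; ring
            _ ≤ _ := by gcongr
        refine (Finset.sum_le_sum this).trans ?_
        rw [← Finset.sum_mul]
        have h2 : ∑ p ∈ antidiagonal m, ‖(s (p.1 + 1) : ℂ) * (r : ℂ) ^ p.1‖ ≤ S := by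
          rw [Finset.Nat.sum_antidiagonal_eq_sum_range_succ_mk]
          exact hS.sum_le_tsum _ (fun _ _ => norm_nonneg _)
        calc _ ≤ S * (r * M) := by gcongr
          _ = S * r * M := by ring
      have hfin : ((m : ℝ) + 1) * (|c d (m + 1)| * r ^ (m + 1)) ≤ ((m : ℝ) + 1) * M := by
        calc ((m : ℝ) + 1) * (|c d (m + 1)| * r ^ (m + 1))
            = (((m : ℝ) + 1) * |c d (m + 1)|) * r ^ (m + 1) := by ring
          _ ≤ (|d| * ∑ p ∈ antidiagonal m, (s (p.1 + 1) : ℝ) * |c d p.2|) * r ^ (m + 1) := by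
              gcongr
          _ = |d| * ((∑ p ∈ antidiagonal m, (s (p.1 + 1) : ℝ) * |c d p.2|) * r ^ (m + 1)) := by
              ring
          _ ≤ |d| * (S * r * M) := by gcongr
          _ = (|d| * S * r) * M := by ring
          _ ≤ ((m : ℝ) + 1) * M := by
              gcongr
              have : (N0 : ℝ) ≤ m := by exact_mod_cast (by omega : N0 ≤ m)
              linarith
      exact le_of_mul_le_mul_left hfin hm1

lemma hasSum_c (d : ℝ) {q : ℂ} (hq : ‖q‖ < 1) :
    HasSum (fun n => (c d n : ℂ) * q ^ n) (Complex.exp (d * L q)) := by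
  have hsum := (temp_c d).summable hq
  have hval : ∑' n, (c d n : ℂ) * q ^ n = Complex.exp (d * L q) := by
    set h : ℂ → ℂ := fun z => ∑' n, (c d n : ℂ) * z ^ n with hdef
    have hder : ∀ z : ℂ, ‖z‖ < 1 → HasDerivAt h
        ((-(d : ℂ) * ∑' n : ℕ, (s (n + 1) : ℂ) * z ^ n) * h z) z := by
      intro z hz
      have h1 := (temp_c d).hasDerivAt hz
      have h2 : (∑' n : ℕ, (((n : ℂ) + 1) * (c d (n + 1) : ℂ)) * z ^ n)
          = (-(d : ℂ) * ∑' n : ℕ, (s (n + 1) : ℂ) * z ^ n) * h z := by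
        rw [mul_assoc, hdef]
        simp only
        rw [tsum_mul_tsum_eq_tsum_sum_antidiagonal_of_summable_norm
          (temp_s.summable_norm hz) ((temp_c d).summable_norm hz), ← tsum_mul_left]
        apply tsum_congr
        intro n
        have h3 := c_succ d n
        have h4 : ((n : ℂ) + 1) * (c d (n + 1) : ℂ)
            = -(d : ℂ) * ∑ p ∈ antidiagonal n, (s (p.1 + 1) : ℂ) * (c d p.2 : ℂ) := by
          exact_mod_cast congrArg (fun x : ℝ => (x : ℂ)) h3
        rw [h4, mul_assoc, Finset.sum_mul]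
        congr 1
        apply Finset.sum_congr rfl
        intro p hp
        rw [← HasAntidiagonal.mem_antidiagonal.1 hp, pow_add]
        ring
      rw [h2] at h1
      exact h1
    have hder2 : ∀ z ∈ Metric.ball (0 : ℂ) 1,
        HasDerivAt (fun z => h z * Complex.exp (-(d * L z))) 0 z := by
      intro z hz
      have hz' : ‖z‖ < 1 := by simpa using hz
      have h1 := hder z hz'
      have h2 := (L_hasDerivAt hz').const_mul (d : ℂ)
      have h3 := h1.mul (h2.neg.cexp)
      have h4 : (-(d : ℂ) * ∑' n : ℕ, (s (n + 1) : ℂ) * z ^ n) * h z * Complex.exp (-(d * L z))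
          + h z * (Complex.exp (-(d * L z)) * -(d * -∑' n : ℕ, (s (n + 1) : ℂ) * z ^ n)) = 0 := by
        ring
      rw [← h4]
      exact h3
    have hconst : h q * Complex.exp (-(d * L q)) = h 0 * Complex.exp (-(d * L 0)) := by
      have hconv := (convex_ball (0 : ℂ) 1)
      have := hconv.is_const_of_fderivWithin_eq_zero (𝕜 := ℂ)
        (f := fun z => h z * Complex.exp (-(d * L z)))
        (fun z hz => (hder2 z hz).differentiableAt.differentiableWithinAt)
        (fun z hz => by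
          rw [fderivWithin_of_isOpen Metric.isOpen_ball hz]
          ext
          simp [(hder2 z hz).deriv])
        (show q ∈ Metric.ball (0 : ℂ) 1 by simpa using hq)
        (show (0 : ℂ) ∈ Metric.ball (0 : ℂ) 1 by simp)
      exact this
    have h00 : h 0 = 1 := by
      rw [hdef]
      simp only
      rw [tsum_eq_single 0]
      · simp [c_zero]
      · intro n hn; simp [hn]
    rw [h00, L_zero] at hconst
    simp only [mul_zero, neg_zero, Complex.exp_zero, mul_one] at hconst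
    have h5 : h q = Complex.exp (d * L q) := by
      calc h q = (h q * Complex.exp (-(d * L q))) * Complex.exp (d * L q) := by
            rw [mul_assoc, ← Complex.exp_add]; simp
        _ = _ := by rw [hconst, one_mul]
    exact h5
  rw [← hval]
  exact hsum.hasSum

end Pool.Agent.Lib.MP_067a7d_co
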