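import Pool.Agent.Lib.MP_067a7d_co.Main

namespace Pool.Agent.Lib.MP_067a7d_co

open Complex Finset
open scoped Real

lemma exp8 : (2980 : ℝ) ≤ Real.exp 8 := by
  have he := Real.exp_one_gt_d9
  have : Real.exp 8 = Real.exp 1 ^ 8 := by rw [← Real.exp_nat_mul]; norm_num
  rw [this]
  have h5 : (2.7182818283 : ℝ) ^ 8 ≤ Real.exp 1 ^ 8 := by gcongr
  refine le_trans (by norm_num) h5

lemma exp25 : Real.exp (5 / 2) ≤ 12.19 := by
  have he := Real.exp_one_lt_d9
  have h1 : Real.exp (5 / 2) ^ 2 = Real.exp 1 ^ 5 := by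
    rw [← Real.exp_nat_mul, ← Real.exp_nat_mul]; norm_num
  have h5 : Real.exp 1 ^ 5 ≤ (2.7182818286 : ℝ) ^ 5 := by gcongr
  have h6 : Real.exp (5 / 2) ^ 2 ≤ 12.19 ^ 2 := by
    rw [h1]; refine h5.trans (by norm_num)
  exact (pow_le_pow_iff_left₀ (Real.exp_pos _).le (by norm_num) (by norm_num)).1 h6

lemma exp_neg8 : Real.exp (-8) ≤ 1 / 2980 := by
  rw [Real.exp_neg, one_div]
  exact inv_anti₀ (by norm_num) exp8

/-- analytic inequality for the first estimate -/
lemma ineq1 {d κ E C : ℝ} (hd : 0 < d) (hd3 : d ≤ 3) (hE : 12 ≤ E) (hκ0 : 0 < κ)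
    (hC : Real.exp (d / 65) ≤ C) (hnum : C * (144 + 25.7 * d) + 0.1 ≤ 2158 * κ) :
    Real.exp (d / 65) * (Real.exp (E / 3) + 9 / 2 * (π * d / (81 * E)) * Real.exp (13 * E / 24))
        + 29 * (π * d / (81 * E)) * d * Real.exp (E / 3 - 2 * E / d)
      < 2 * (κ / d) * (6 * π * (π * d / (81 * E)) * ((Real.cosh E - 1) / E - Real.exp (E / 3))) := by
  have hpi1 := Real.pi_gt_d4
  have hpi2 := Real.pi_lt_d4
  have hE0 : 0 < E := by linarith
  set v : ℝ := Real.exp ((E - 12) / 24) with hv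
  have hv1 : 1 ≤ v := Real.one_le_exp (by linarith)
  have hv0 : 0 < v := by linarith
  have e1 : Real.exp (E / 3) = Real.exp 4 * v ^ 8 := by
    rw [hv, ← Real.exp_nat_mul, ← Real.exp_add]; congr 1; push_cast; ring
  have e2 : Real.exp (13 * E / 24) = Real.exp (E / 3) * (Real.exp (5 / 2) * v ^ 5) := by
    rw [hv, ← Real.exp_nat_mul, ← Real.exp_add, ← Real.exp_add]; congr 1; push_cast; ring
  have e3 : Real.exp E = Real.exp (E / 3) * (Real.exp 8 * v ^ 16) := by
    rw [hv, ← Real.exp_nat_mul, ← Real.exp_add, ← Real.exp_add]; congr 1; push_cast; ring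
  have hEv : E ≤ 12 * v ^ 2 := by
    have h1 : v ^ 2 = Real.exp ((E - 12) / 12) := by
      rw [hv, ← Real.exp_nat_mul]; congr 1; push_cast; ring
    have h2 := Real.add_one_le_exp ((E - 12) / 12)
    rw [h1]; linarith
  have hX : 0 < Real.exp (E / 3) := Real.exp_pos _
  have hX1 : 1 ≤ Real.exp (E / 3) := Real.one_le_exp (by linarith)
  have hcosh : Real.exp E / 2 ≤ Real.cosh E := by
    rw [Real.cosh_eq]; have := Real.exp_pos (-E); linarith
  have e4 : Real.exp (E / 3 - 2 * E / d) ≤ Real.exp (E / 3) * (1 / 2980) := by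
    rw [sub_eq_add_neg, Real.exp_add]
    gcongr
    refine le_trans (Real.exp_le_exp.2 ?_) exp_neg8
    rw [neg_le_neg_iff, le_div_iff₀ hd]
    nlinarith
  -- reduce the claim after multiplication by `E^2`
  generalize hXX : Real.exp (E / 3) = X at *
  have hC0 : 0 < C := (Real.exp_pos _).trans_le hC
  have h25 := exp25
  have h8 := exp8
  have hv16 : 1 ≤ v ^ 16 := one_le_pow₀ hv1
  have hv2 : v ^ 2 ≤ v ^ 16 := pow_le_pow_right₀ hv1 (by norm_num)
  have hv4 : v ^ 4 ≤ v ^ 16 := pow_le_pow_right₀ hv1 (by norm_num)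
  have hv7 : v ^ 7 ≤ v ^ 16 := pow_le_pow_right₀ hv1 (by norm_num)
  have hπ2 : 9.869 ≤ π ^ 2 := by nlinarith
  -- right side
  have hR : X * v ^ 16 * (2159 * κ) / E ^ 2
      ≤ 2 * (κ / d) * (6 * π * (π * d / (81 * E)) * ((Real.cosh E - 1) / E - X)) := by
    have e5 : 2 * (κ / d) * (6 * π * (π * d / (81 * E)) * ((Real.cosh E - 1) / E - X))
        = (12 * π ^ 2 * κ / 81) * (Real.cosh E - 1 - E * X) / E ^ 2 := by
      field_simp; ring
    rw [e5]
    apply div_le_div_of_nonneg_right _ (by positivity)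
    have h1 : X * (1477 * v ^ 16) ≤ Real.cosh E - 1 - E * X := by
      have h2 : X * (1490 * v ^ 16) ≤ Real.cosh E := by
        refine le_trans ?_ hcosh
        rw [e3]
        have : 2980 * v ^ 16 ≤ Real.exp 8 * v ^ 16 := by gcongr
        nlinarith
      have h3 : E * X ≤ 12 * v ^ 2 * X := by gcongr
      have h4 : 1 + 12 * v ^ 2 * X ≤ 13 * v ^ 16 * X := by nlinarith
      nlinarith
    calc X * v ^ 16 * (2159 * κ) ≤ (12 * 9.869 * κ / 81) * (X * (1477 * v ^ 16)) := by
          have : 0 ≤ X * v ^ 16 * κ := by positivity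
          nlinarith
      _ ≤ (12 * π ^ 2 * κ / 81) * (X * (1477 * v ^ 16)) := by gcongr
      _ ≤ _ := by gcongr
  have hLft : Real.exp (d / 65) * (X + 9 / 2 * (π * d / (81 * E)) * Real.exp (13 * E / 24))
        + 29 * (π * d / (81 * E)) * d * Real.exp (E / 3 - 2 * E / d)
      ≤ X * v ^ 16 * (C * (144 + 25.6 * d) + 0.05) / E ^ 2 := by
    rw [le_div_iff₀ (by positivity)]
    have t1 : 9 / 2 * (π * d / (81 * E)) * Real.exp (13 * E / 24) * E ^ 2
        ≤ X * (25.6 * d * v ^ 7) := by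
      rw [e2]
      calc 9 / 2 * (π * d / (81 * E)) * (X * (Real.exp (5 / 2) * v ^ 5)) * E ^ 2
          = X * d * v ^ 5 * (π / 18) * Real.exp (5 / 2) * E := by field_simp; ring
        _ ≤ X * d * v ^ 5 * (3.1416 / 18) * 12.19 * (12 * v ^ 2) := by gcongr
        _ = X * d * v ^ 7 * (3.1416 / 18 * 12.19 * 12) := by ring
        _ ≤ X * d * v ^ 7 * 25.6 := by gcongr; norm_num
        _ = _ := by ring
    have t2 : 29 * (π * d / (81 * E)) * d * Real.exp (E / 3 - 2 * E / d) * E ^ 2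
        ≤ X * (0.05 * v ^ 2) := by
      calc 29 * (π * d / (81 * E)) * d * Real.exp (E / 3 - 2 * E / d) * E ^ 2
          ≤ 29 * (π * d / (81 * E)) * d * (X * (1 / 2980)) * E ^ 2 := by gcongr
        _ = X * (29 * π * d ^ 2 * E / (81 * 2980)) := by field_simp
        _ ≤ X * (29 * 3.1416 * 3 ^ 2 * (12 * v ^ 2) / (81 * 2980)) := by gcongr
        _ ≤ _ := by
          apply mul_le_mul_of_nonneg_left _ hX.le
          nlinarith [sq_nonneg v]
    have t3 : X * E ^ 2 ≤ X * (144 * v ^ 4) := by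
      apply mul_le_mul_of_nonneg_left _ hX.le
      calc E ^ 2 ≤ (12 * v ^ 2) ^ 2 := by gcongr
        _ = _ := by ring
    have t4 : (X + 9 / 2 * (π * d / (81 * E)) * Real.exp (13 * E / 24)) * E ^ 2
        ≤ X * (v ^ 16 * (144 + 25.6 * d)) := by
      have : X * (144 * v ^ 4) + X * (25.6 * d * v ^ 7) ≤ X * (v ^ 16 * (144 + 25.6 * d)) := by
        rw [← mul_add]
        apply mul_le_mul_of_nonneg_left _ hX.le
        have : 25.6 * d * v ^ 7 ≤ 25.6 * d * v ^ 16 := by gcongr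
        linarith
      linarith
    have t5 : 0 ≤ X * (v ^ 16 * (144 + 25.6 * d)) := by positivity
    have t6 : Real.exp (d / 65) * ((X + 9 / 2 * (π * d / (81 * E)) * Real.exp (13 * E / 24)) * E ^ 2)
        ≤ C * (X * (v ^ 16 * (144 + 25.6 * d))) := by gcongr
    have t7 : X * (0.05 * v ^ 2) ≤ X * (0.05 * v ^ 16) := by gcongr
    calc (Real.exp (d / 65) * (X + 9 / 2 * (π * d / (81 * E)) * Real.exp (13 * E / 24))
        + 29 * (π * d / (81 * E)) * d * Real.exp (E / 3 - 2 * E / d)) * E ^ 2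
        = Real.exp (d / 65) * ((X + 9 / 2 * (π * d / (81 * E)) * Real.exp (13 * E / 24)) * E ^ 2)
          + 29 * (π * d / (81 * E)) * d * Real.exp (E / 3 - 2 * E / d) * E ^ 2 := by ring
      _ ≤ C * (X * (v ^ 16 * (144 + 25.6 * d))) + X * (0.05 * v ^ 16) := by linarith
      _ = _ := by ring
  refine lt_of_le_of_lt hLft (lt_of_lt_of_le ?_ hR)
  apply div_lt_div_of_pos_right _ (by positivity)
  have : C * (144 + 25.6 * d) + 0.05 < 2159 * κ := by nlinarith
  exact mul_lt_mul_of_pos_left this (by positivity)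

/-- sign from the first estimate -/
theorem V1_sign {d : ℝ} {n : ℕ} {E y : ℝ} (p : Par d n E y) (hE : 12 ≤ E) {C : ℝ}
    (hC : Real.exp (d / 65) ≤ C)
    (hnum : C * (144 + 25.7 * d) + 0.1 ≤ 2158 * (d * |Real.cos (PH d n)|)) :
    0 < Real.cos (PH d n) * c d n := by
  have hd := p.hd
  have hC0 : 0 < C := (Real.exp_pos _).trans_le hC
  have h1 := V1 p
  have h2 := J_lower p
  have hκ : 0 < d * |Real.cos (PH d n)| := by
    by_contra h
    push Not at h
    have : 0 < C * (144 + 25.7 * d) := by positivity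
    linarith
  have hcos : 0 < |Real.cos (PH d n)| := by
    by_contra h
    push Not at h
    have : d * |Real.cos (PH d n)| ≤ 0 := mul_nonpos_of_nonneg_of_nonpos hd.le h
    linarith
  have h3 := ineq1 hd p.hd3 hE hκ hC hnum
  rw [← p.hy, mul_div_cancel_left₀ _ hd.ne'] at h3
  set Jr := (J (AA d) (BB d n) y).re with hJr
  set P := 6 * π * y * ((Real.cosh E - 1) / E - Real.exp (E / 3)) with hP
  have h4 : |c d n - 2 * Real.cos (PH d n) * Jr| < 2 * |Real.cos (PH d n)| * Jr := by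
    refine lt_of_le_of_lt h1 (lt_of_lt_of_le h3 ?_)
    gcongr
  have h5 := abs_lt.1 h4
  rcases lt_or_gt_of_ne (abs_pos.1 hcos) with h | h
  · rw [abs_of_neg h] at h5
    have : c d n < 0 := by linarith [h5.2]
    exact mul_pos_of_neg_of_neg h this
  · rw [abs_of_pos h] at h5
    have : 0 < c d n := by linarith [h5.1]
    exact mul_pos h this

end Pool.Agent.Lib.MP_067a7d_co
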