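import Pool.Agent.Lib.MP_067a7d_co.Check

namespace Pool.Agent.Lib.MP_067a7d_co

open Finset

lemma cond_false_iff (a b : Bool) : (cond a b false = true) ↔ (a = true ∧ b = true) := by
  cases a <;> cases b <;> simp

lemma okNum_iff (A : ℕ) : okNum A = true ↔ A < BM ∧ ∀ n < 441, dg A n < AL := by
  unfold okNum
  rw [cond_false_iff, allB_iff]
  have e : ∀ x y : ℕ, (Nat.ble (Nat.succ x) y = true) ↔ x < y := by
    intro x y; rw [Nat.ble_eq]; exact Nat.succ_le_iff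
  simp only [e]

lemma BM_eq : BM = (2 ^ 128) ^ 441 := by
  unfold BM
  have : Nat.pow 2 56448 = 2 ^ (128 * 441) := rfl
  rw [this, pow_mul]

lemma dg_eq (x n : ℕ) : dg x n = x / (2 ^ 128) ^ n % 2 ^ 128 := by
  unfold dg; rw [dig_eq]

lemma AL_eq : AL = 2 ^ 100 := rfl

lemma S1_eq : S1 = ON * SS := by unfold S1; rw [Nat.mul_eq]

attribute [local irreducible] SS ON S1 OO AL BM GO dg dig

lemma base_facts : SS < BM ∧ (∀ n < 441, dg SS n = s n) ∧ (∀ n < 441, dg ON n = 1) ∧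
    (∀ n < 441, dg GO n = OO) ∧ okNum ON = true ∧ okNum GO = true := by
  have h := baseCheck_true
  unfold baseCheck at h
  rw [cond_false_iff, cond_false_iff, cond_false_iff, cond_false_iff, cond_false_iff,
    allB_iff, allB_iff, allB_iff] at h
  obtain ⟨h1, h2, h3, h4, h5, h6⟩ := h
  refine ⟨?_, ?_, ?_, ?_, h5, h6⟩
  · rw [Nat.ble_eq] at h1; exact Nat.succ_le_iff.1 h1
  · intro n hn
    have := h2 n hn
    rw [Nat.beq_eq] at this
    rw [this, sf_eq]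
  · intro n hn
    have := h3 n hn
    rwa [Nat.beq_eq] at this
  · intro n hn
    have := h4 n hn
    rwa [Nat.beq_eq] at this

lemma s_zero' : s 0 = 0 := s_zero

lemma conv_dg {A : ℕ} (hA : okNum A = true) {n : ℕ} (hn : n < 441) :
    dg (A * SS) n = ∑ p ∈ antidiagonal n, dg A p.1 * s p.2 := by
  obtain ⟨hA1, hA2⟩ := (okNum_iff A).1 hA
  obtain ⟨hS, hSd, -, -, -, -⟩ := base_facts
  rw [BM_eq] at hA1 hS
  have hB : 0 < 2 ^ 128 := by positivity
  have r1 := rep_digits hB 441 A hA1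
  have r2 := rep_digits hB 441 SS hS
  have r1' : A = ∑ i ∈ range 441, dg A i * (2 ^ 128) ^ i := by
    rw [show (∑ i ∈ range 441, dg A i * (2 ^ 128) ^ i)
      = ∑ i ∈ range 441, (A / (2 ^ 128) ^ i % 2 ^ 128) * (2 ^ 128) ^ i from
        Finset.sum_congr rfl (fun i _ => by rw [dg_eq])]
    exact r1
  have r2' : SS = ∑ i ∈ range 441, s i * (2 ^ 128) ^ i := by
    rw [show (∑ i ∈ range 441, s i * (2 ^ 128) ^ i)
      = ∑ i ∈ range 441, (SS / (2 ^ 128) ^ i % 2 ^ 128) * (2 ^ 128) ^ i from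
        Finset.sum_congr rfl (fun i hi => by rw [← hSd i (Finset.mem_range.1 hi), dg_eq])]
    exact r2
  have hconv : ∀ n < 441, ∑ p ∈ antidiagonal n, dg A p.1 * s p.2 < 2 ^ 128 := by
    intro n hn
    have b1 : ∀ p ∈ antidiagonal n, dg A p.1 * s p.2 ≤ 2 ^ 100 * 440 ^ 2 := by
      intro p hp
      have hp' := HasAntidiagonal.mem_antidiagonal.1 hp
      have c1 : dg A p.1 < AL := hA2 p.1 (by omega)
      have c2 : s p.2 ≤ p.2 ^ 2 := s_le_sq p.2
      have c3 : p.2 ^ 2 ≤ 440 ^ 2 := Nat.pow_le_pow_left (by omega) 2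
      rw [AL_eq] at c1
      exact Nat.mul_le_mul c1.le (c2.trans c3)
    have b2 := Finset.sum_le_card_nsmul _ _ _ b1
    rw [Finset.Nat.card_antidiagonal, smul_eq_mul] at b2
    have b3 : (n + 1) * (2 ^ 100 * 440 ^ 2) ≤ 441 * (2 ^ 100 * 440 ^ 2) :=
      Nat.mul_le_mul_right _ (by omega)
    have b4 : 441 * (2 ^ 100 * 440 ^ 2) < 2 ^ 128 := by norm_num
    omega
  have h := digit_mul hB 441 (dg A) s hconv n hn
  rw [← r1', ← r2'] at h
  rw [dg_eq, h]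

lemma antidiag_shift (f : ℕ → ℕ) (n : ℕ) : ∑ p ∈ antidiagonal (n + 1), f p.1 * s p.2
    = ∑ p ∈ antidiagonal n, s (p.1 + 1) * f p.2 := by
  rw [Finset.Nat.sum_antidiagonal_succ']
  simp only
  rw [s_zero, mul_zero, zero_add]
  rw [← Finset.Nat.sum_antidiagonal_swap]
  apply Finset.sum_congr rfl
  intro p _
  simp only [Prod.fst_swap, Prod.snd_swap]
  ring

lemma conv_dg' {A : ℕ} (hA : okNum A = true) {n : ℕ} (hn : n < 440) :
    dg (A * SS) (n + 1) = ∑ p ∈ antidiagonal n, s (p.1 + 1) * dg A p.2 := by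
  rw [conv_dg hA (by omega), antidiag_shift]

lemma S1_dg {n : ℕ} (hn : n < 440) : dg S1 (n + 1) = ∑ p ∈ antidiagonal n, s (p.1 + 1) := by
  obtain ⟨-, -, h1, -, h5, -⟩ := base_facts
  rw [S1_eq, conv_dg' h5 hn]
  apply Finset.sum_congr rfl
  intro p hp
  have hp' := HasAntidiagonal.mem_antidiagonal.1 hp
  rw [h1 p.2 (by omega), mul_one]

/-- real value of a packed digit -/
noncomputable def tv (A n : ℕ) : ℝ := (dg A n : ℝ) - (OO : ℝ)

lemma absd_eq (A n : ℕ) : ((absd (dg A n) : ℕ) : ℝ) = |tv A n| := by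
  unfold tv absd
  rw [Nat.add_eq, Nat.sub_eq, Nat.sub_eq]
  rcases le_total (dg A n) OO with h | h
  · have h' : (dg A n : ℝ) ≤ (OO : ℝ) := by exact_mod_cast h
    rw [abs_of_nonpos (by linarith), Nat.sub_eq_zero_of_le h, zero_add, Nat.cast_sub h]
    ring
  · have h' : (OO : ℝ) ≤ (dg A n : ℝ) := by exact_mod_cast h
    rw [abs_of_nonneg (by linarith), Nat.sub_eq_zero_of_le h, add_zero, Nat.cast_sub h]

lemma conv_real {A : ℕ} (hA : okNum A = true) {n : ℕ} (hn : n < 440) :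
    ((dg (A * SS) (n + 1) : ℕ) : ℝ) = ∑ p ∈ antidiagonal n, (s (p.1 + 1) : ℝ) * (dg A p.2 : ℝ) := by
  rw [conv_dg' hA hn]; push_cast; rfl

lemma conv_tv {A : ℕ} (hA : okNum A = true) {n : ℕ} (hn : n < 440) :
    ((dg (A * SS) (n + 1) : ℕ) : ℝ) - (OO : ℝ) * ((dg S1 (n + 1) : ℕ) : ℝ)
      = ∑ p ∈ antidiagonal n, (s (p.1 + 1) : ℝ) * tv A p.2 := by
  rw [conv_real hA hn, S1_dg hn]
  push_cast
  rw [Finset.mul_sum, ← Finset.sum_sub_distrib]
  apply Finset.sum_congr rfl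
  intro p _
  unfold tv; ring

lemma stepOK_sound {p Q A Pm n : ℕ} (hQ : 0 < Q) (hA : okNum A = true)
    (h : stepOK p Q A (A * SS) Pm n = true) (hn : n < 440) (w : ℝ)
    (hw : ((dg Pm (n + 1) : ℕ) : ℝ) - (OO : ℝ) * ((dg S1 (n + 1) : ℕ) : ℝ) = w) :
    |((n : ℝ) + 1) * tv A (n + 1) + ((p : ℝ) / Q) * (∑ p ∈ antidiagonal n, (s (p.1 + 1) : ℝ) * tv A p.2)
      + w| ≤ (n : ℝ) + 1 := by
  unfold stepOK at h
  simp only [] at h
  rw [cond_false_iff, Nat.ble_eq, Nat.ble_eq] at h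
  simp only [Nat.add_eq, Nat.mul_eq, Nat.succ_eq_add_one] at h
  obtain ⟨h1, h2⟩ := h
  have h1' : (((n + 1) * Q * dg A (n + 1) + (p * dg (A * SS) (n + 1) + Q * dg Pm (n + 1)) : ℕ) : ℝ)
      ≤ ((OO * ((n + 1) * Q + (p + Q) * dg S1 (n + 1)) + (n + 1) * Q : ℕ) : ℝ) := by
    exact_mod_cast h1
  have h2' : ((OO * ((n + 1) * Q + (p + Q) * dg S1 (n + 1)) : ℕ) : ℝ)
      ≤ (((n + 1) * Q * dg A (n + 1) + (p * dg (A * SS) (n + 1) + Q * dg Pm (n + 1)) + (n + 1) * Q : ℕ) : ℝ) := by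
    exact_mod_cast h2
  push_cast at h1' h2'
  have hc := conv_tv hA hn
  have hQ' : (0 : ℝ) < Q := by exact_mod_cast hQ
  have e1 : ((dg (A * SS) (n + 1) : ℕ) : ℝ) = (OO : ℝ) * ((dg S1 (n + 1) : ℕ) : ℝ)
    + ∑ p ∈ antidiagonal n, (s (p.1 + 1) : ℝ) * tv A p.2 := by rw [← hc]; ring
  have e2 : ((dg Pm (n + 1) : ℕ) : ℝ) = (OO : ℝ) * ((dg S1 (n + 1) : ℕ) : ℝ) + w := by rw [← hw]; ring
  have e3 : (dg A (n + 1) : ℝ) = tv A (n + 1) + OO := by unfold tv; ring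
  rw [e1, e2, e3] at h1' h2'
  generalize (∑ p ∈ antidiagonal n, (s (p.1 + 1) : ℝ) * tv A p.2) = X at *
  generalize ((dg S1 (n + 1) : ℕ) : ℝ) = Y at *
  generalize (OO : ℝ) = O at *
  have key : Q * (((n : ℝ) + 1) * tv A (n + 1) + ((p : ℝ) / Q) * X + w)
      = ((n : ℝ) + 1) * Q * tv A (n + 1) + p * X + Q * w := by
    field_simp
  have k1 : Q * (((n : ℝ) + 1) * tv A (n + 1) + ((p : ℝ) / Q) * X + w) ≤ Q * ((n : ℝ) + 1) := by
    rw [key]; nlinarith [h1']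
  have k2 : Q * (-((n : ℝ) + 1)) ≤ Q * (((n : ℝ) + 1) * tv A (n + 1) + ((p : ℝ) / Q) * X + w) := by
    rw [key]; nlinarith [h2']
  rw [abs_le]
  exact ⟨le_of_mul_le_mul_left k2 hQ', le_of_mul_le_mul_left k1 hQ'⟩

lemma uOK_sound {p Q a b U V n : ℕ} (hQ : 0 < Q) (hb : 0 < b) (hU : okNum U = true)
    (hV : okNum V = true) (h : uOK p Q a b U (U * SS) (V * SS) n = true) (hn : n < 440) :
    ((p : ℝ) / Q + (a : ℝ) / b) * (∑ p ∈ antidiagonal n, (s (p.1 + 1) : ℝ) * (dg U p.2 : ℝ))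
      + ((a : ℝ) / b) ^ 8 * (∑ p ∈ antidiagonal n, (s (p.1 + 1) : ℝ) * (dg V p.2 : ℝ))
      + 2 * ((n : ℝ) + 1) ≤ ((n : ℝ) + 1) * (dg U (n + 1) : ℝ) := by
  unfold uOK at h
  rw [Nat.ble_eq] at h
  simp only [Nat.add_eq, Nat.mul_eq, Nat.succ_eq_add_one, Nat.pow_eq] at h
  have h' : (((p * b + Q * a) * b ^ 7 * dg (U * SS) (n + 1) + Q * a ^ 8 * dg (V * SS) (n + 1)
      + 2 * (n + 1) * Q * b ^ 8 : ℕ) : ℝ) ≤ (((n + 1) * dg U (n + 1) * Q * b ^ 8 : ℕ) : ℝ) := by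
    exact_mod_cast h
  push_cast at h'
  rw [conv_real hU hn, conv_real hV hn] at h'
  have hQ' : (0 : ℝ) < Q := by exact_mod_cast hQ
  have hb' : (0 : ℝ) < b := by exact_mod_cast hb
  generalize (∑ p ∈ antidiagonal n, (s (p.1 + 1) : ℝ) * (dg U p.2 : ℝ)) = X at *
  generalize (∑ p ∈ antidiagonal n, (s (p.1 + 1) : ℝ) * (dg V p.2 : ℝ)) = Y at *
  have hpos : (0 : ℝ) < Q * (b : ℝ) ^ 8 := by positivity
  have key : (Q * (b : ℝ) ^ 8) * (((p : ℝ) / Q + (a : ℝ) / b) * X + ((a : ℝ) / b) ^ 8 * Y + 2 * ((n : ℝ) + 1))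
      = ((p : ℝ) * b + Q * a) * b ^ 7 * X + Q * a ^ 8 * Y + 2 * ((n : ℝ) + 1) * Q * b ^ 8 := by
    field_simp
  have k : (Q * (b : ℝ) ^ 8) * (((p : ℝ) / Q + (a : ℝ) / b) * X + ((a : ℝ) / b) ^ 8 * Y + 2 * ((n : ℝ) + 1))
      ≤ (Q * (b : ℝ) ^ 8) * (((n : ℝ) + 1) * (dg U (n + 1) : ℝ)) := by
    rw [key]; refine h'.trans (le_of_eq ?_); ring
  exact le_of_mul_le_mul_left k hpos

lemma sumB_eq (f : ℕ → ℕ) (K : ℕ) : sumB f K = ∑ k ∈ range K, f k := by
  induction K with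
  | zero => rfl
  | succ K ih => rw [Finset.sum_range_succ, ← ih]; rfl

/-- division of the sign test by `b ^ 7` -/
lemma Hr_eq {a b : ℕ} (hb : 0 < b) (A : ℕ → ℕ) (U n : ℕ) :
    ((Hr a b A U n : ℕ) : ℝ) = (b : ℝ) ^ 7 * (∑ k ∈ range 7, ((a : ℝ) / b) ^ (k + 1) * |tv (A (k + 1)) n|
      + (dg U n : ℝ)) := by
  unfold Hr
  rw [Nat.add_eq, sumB_eq, Nat.cast_add, Nat.cast_sum, mul_add, Finset.mul_sum]
  congr 1
  · apply Finset.sum_congr rfl
    intro k hk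
    have hk' := Finset.mem_range.1 hk
    rw [Nat.mul_eq, Nat.mul_eq, Nat.pow_eq, Nat.pow_eq, Nat.sub_eq, Nat.cast_mul, absd_eq,
      Nat.succ_eq_add_one, Nat.cast_mul, Nat.cast_pow, Nat.cast_pow]
    have hb' : (0 : ℝ) < b := by exact_mod_cast hb
    have : (b : ℝ) ^ 7 = (b : ℝ) ^ (6 - k) * (b : ℝ) ^ (k + 1) := by
      rw [← pow_add]; congr 1; omega
    rw [this, div_pow]
    field_simp
  · rw [Nat.mul_eq, Nat.pow_eq, Nat.cast_mul, Nat.cast_pow]; ring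

lemma sign_gen {O P H Y : ℕ} {f g : Bool}
    (h : cond f (cond g (Nat.ble (Nat.succ (Nat.add (Nat.mul O P) H)) (Nat.mul Y P))
      (Nat.ble (Nat.succ (Nat.add (Nat.mul Y P) H)) (Nat.mul O P))) true = true) (hf : f = true) :
    (g = true → O * P + H + 1 ≤ Y * P) ∧ (g = false → Y * P + H + 1 ≤ O * P) := by
  subst hf
  constructor
  · intro hg
    subst hg
    exact Nat.le_of_ble_eq_true h
  · intro hg
    subst hg
    exact Nat.le_of_ble_eq_true h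

lemma pow7 (b : ℕ) : Nat.pow b 7 = b ^ 7 := Nat.pow_eq

lemma signOK_both {a b : ℕ} {A : ℕ → ℕ} {U : ℕ} {fl sg : ℕ → Bool} {n : ℕ}
    (h : signOK a b A U fl sg n = true) (hf : fl n = true) :
    (sg n = true → OO * b ^ 7 + Hr a b A U n + 1 ≤ dg (A 0) n * b ^ 7) ∧
    (sg n = false → dg (A 0) n * b ^ 7 + Hr a b A U n + 1 ≤ OO * b ^ 7) := by
  unfold signOK at h
  rw [← pow7]
  exact sign_gen h hf

lemma real_sign {X b7 H Y : ℕ} (h : X * b7 + H + 1 ≤ Y * b7) :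
    ((X : ℝ)) * b7 + (H : ℝ) + 1 ≤ (Y : ℝ) * b7 := by
  exact_mod_cast h

lemma checkWith_facts {p Q a b N init G : ℕ} {fl sg : ℕ → Bool} {A PP : ℕ → ℕ} {U V : ℕ}
    (h : checkWith p Q a b N init G fl sg A PP U V = true) :
    okNum G = true ∧ okNum U = true ∧ okNum V = true ∧ (∀ k < 8, okNum (A k) = true) ∧
    (∀ k < 8, ∀ n < N, stepOK p Q (A k) (A k * SS) (PP k) n = true) ∧ dg (A 0) 0 = init ∧
    (∀ k < 7, dg (A (k + 1)) 0 = OO) ∧ (∀ n < N + 1, absd (dg (A 7) n) ≤ dg V n) ∧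
    (∀ n < N, uOK p Q a b U (U * SS) (V * SS) n = true) ∧
    (∀ n < N + 1, signOK a b A U fl sg n = true) := by
  unfold checkWith at h
  simp only [cond_false_iff, allB_iff, Nat.beq_eq, Nat.mul_eq, Nat.succ_eq_add_one, Nat.ble_eq] at h
  exact h

theorem check_sound {p Q a b N init G : ℕ} {fl sg : ℕ → Bool} {A PP : ℕ → ℕ} {U V : ℕ}
    (hQ : 0 < Q) (hb : 0 < b) (hab : 2 * a ≤ b) (hN : N ≤ 440) (hPP0 : PP 0 = G * SS)
    (hPPs : ∀ k, PP (k + 1) = A k * SS)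
    (h : checkWith p Q a b N init G fl sg A PP U V = true) {x : ℝ} (hx : |x| ≤ (a : ℝ) / b)
    (y : ℕ → ℝ) (hy0 : y 0 = (init : ℝ) - (OO : ℝ))
    (hy : ∀ n < N, ((n : ℝ) + 1) * y (n + 1)
      = -((p : ℝ) / Q + x) * ∑ p ∈ antidiagonal n, (s (p.1 + 1) : ℝ) * y p.2
        - ∑ p ∈ antidiagonal n, (s (p.1 + 1) : ℝ) * tv G p.2) :
    ∀ n ≤ N, fl n = true → (sg n = true → 0 < y n) ∧ (sg n = false → y n < 0) := by
  obtain ⟨hG, hU, hV, hA, hstep, hi, hz, hv, hu, hs⟩ := checkWith_facts h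
  have hb' : (0 : ℝ) < b := by exact_mod_cast hb
  have hr2 : (a : ℝ) / b ≤ 1 / 2 := by
    rw [div_le_div_iff₀ hb' (by norm_num)]
    have : ((2 * a : ℕ) : ℝ) ≤ (b : ℝ) := by exact_mod_cast hab
    push_cast at this
    linarith
  have hu0 : (0 : ℝ) ≤ (dg U 0 : ℝ) := Nat.cast_nonneg _
  have hd0 : (0 : ℝ) ≤ (p : ℝ) / Q := by positivity
  have hr0 : (0 : ℝ) ≤ (a : ℝ) / b := by positivity
  obtain ⟨tp, htp0, htps⟩ : ∃ tp : ℕ → ℕ → ℝ, (∀ n, tp 0 n = tv G n) ∧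
      (∀ k n, tp (k + 1) n = tv (A k) n) := by
    refine ⟨fun k n => if k = 0 then tv G n else tv (A (k - 1)) n, ?_, ?_⟩
    · intro n; simp only [if_true]
    · intro k n
      simp only [Nat.add_eq_zero_iff, one_ne_zero, and_false, if_false, Nat.add_sub_cancel]
  have main := err_bound (d := (p : ℝ) / Q) (x := x) (r := (a : ℝ) / b) (K := 7) (N := N)
    hd0 hx hr2 y (fun n => tv G n) (fun k n => tv (A k) n)
    (fun k n => tp k n) (fun n => (dg U n : ℝ))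
    htp0 htps hy
    (by
      intro n hn k hk
      have h1 := hstep k (by omega) n hn
      have e : (∑ p_1 ∈ antidiagonal n, (s (p_1.1 + 1) : ℝ) * ((p : ℝ) / Q * tv (A k) p_1.2
          + tp k p_1.2))
          = ((p : ℝ) / Q) * (∑ p ∈ antidiagonal n, (s (p.1 + 1) : ℝ) * tv (A k) p.2)
            + ∑ p_1 ∈ antidiagonal n, (s (p_1.1 + 1) : ℝ) * tp k p_1.2 := by
        rw [Finset.mul_sum, ← Finset.sum_add_distrib]
        apply Finset.sum_congr rfl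
        intro q _; ring
      rw [e, ← add_assoc]
      apply stepOK_sound hQ (hA k (by omega)) h1 (by omega)
      cases k with
      | zero =>
        rw [hPP0]
        simp only [htp0]
        exact conv_tv hG (by omega)
      | succ k =>
        rw [hPPs]
        simp only [htps]
        exact conv_tv (hA k (by omega)) (by omega))
    (by
      have e : ∑ k ∈ range (7 + 1), x ^ k * tv (A k) 0 = y 0 := by
        rw [Finset.sum_range_succ', pow_zero, one_mul]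
        have : ∑ k ∈ range 7, x ^ (k + 1) * tv (A (k + 1)) 0 = 0 := by
          apply Finset.sum_eq_zero
          intro k hk
          have := hz k (Finset.mem_range.1 hk)
          unfold tv
          rw [this, sub_self, mul_zero]
        rw [this, zero_add, hy0]
        unfold tv
        rw [hi]
      rw [e, sub_self, abs_zero]
      exact hu0)
    (by
      intro n hn
      have h1 := uOK_sound hQ hb hU hV (hu n hn) (by omega)
      refine le_trans ?_ h1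
      have h2 : ∑ p ∈ antidiagonal n, (s (p.1 + 1) : ℝ) * |tv (A 7) p.2|
          ≤ ∑ p ∈ antidiagonal n, (s (p.1 + 1) : ℝ) * (dg V p.2 : ℝ) := by
        apply Finset.sum_le_sum
        intro q hq
        have hq' := HasAntidiagonal.mem_antidiagonal.1 hq
        have h3 := hv q.2 (by omega)
        rw [← absd_eq]
        have h3' : ((absd (dg (A 7) q.2) : ℕ) : ℝ) ≤ ((dg V q.2 : ℕ) : ℝ) := by exact_mod_cast h3
        exact mul_le_mul_of_nonneg_left h3' (Nat.cast_nonneg _)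
      have h4 : (0 : ℝ) ≤ ((a : ℝ) / b) ^ 8 := by positivity
      have h5 := mul_le_mul_of_nonneg_left h2 h4
      linarith)
  intro n hn hfl
  have hm := main n hn
  have hsn := hs n (by omega)
  have hb7 : (0 : ℝ) < (b : ℝ) ^ 7 := by positivity
  -- the tail of the Taylor polynomial
  have e : ∑ k ∈ range (7 + 1), x ^ k * tv (A k) n
      = ∑ k ∈ range 7, x ^ (k + 1) * tv (A (k + 1)) n + tv (A 0) n := by
    rw [Finset.sum_range_succ', pow_zero, one_mul]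
  have hT : |∑ k ∈ range 7, x ^ (k + 1) * tv (A (k + 1)) n|
      ≤ ∑ k ∈ range 7, ((a : ℝ) / b) ^ (k + 1) * |tv (A (k + 1)) n| := by
    refine (Finset.abs_sum_le_sum_abs _ _).trans (Finset.sum_le_sum fun k _ => ?_)
    rw [abs_mul, abs_pow]
    have := pow_le_pow_left₀ (abs_nonneg x) hx (k + 1)
    exact mul_le_mul_of_nonneg_right this (abs_nonneg _)
  rw [e] at hm
  have hH := Hr_eq (a := a) hb A U n
  generalize (∑ k ∈ range 7, ((a : ℝ) / b) ^ (k + 1) * |tv (A (k + 1)) n|) = R at *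
  generalize (∑ k ∈ range 7, x ^ (k + 1) * tv (A (k + 1)) n) = T at *
  have hm1 := abs_le.1 hm
  have hT1 := abs_le.1 hT
  constructor
  · intro hsg
    have h1 := real_sign ((signOK_both hsn hfl).1 hsg)
    rw [hH, Nat.cast_pow] at h1
    have h2 : (b : ℝ) ^ 7 * (R + (dg U n : ℝ)) < (b : ℝ) ^ 7 * tv (A 0) n := by
      unfold tv; nlinarith
    have h3 := lt_of_mul_lt_mul_left h2 hb7.le
    linarith [hm1.1, hT1.1]
  · intro hsg
    have h1 := real_sign ((signOK_both hsn hfl).2 hsg)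
    rw [hH, Nat.cast_pow] at h1
    have h2 : (b : ℝ) ^ 7 * (R + (dg U n : ℝ)) < (b : ℝ) ^ 7 * (-tv (A 0) n) := by
      unfold tv; nlinarith
    have h3 := lt_of_mul_lt_mul_left h2 hb7.le
    linarith [hm1.2, hT1.2]

end Pool.Agent.Lib.MP_067a7d_co
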