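import Pool.Agent.Lib.MP_067a7d_co.Prod

namespace Pool.Agent.Lib.MP_067a7d_co

open Complex Finset
open scoped Real

lemma norm_l_le (n : ℕ) : ‖l n‖ ≤ n := by
  unfold l
  rw [norm_div, norm_neg, Complex.norm_natCast, Complex.norm_natCast]
  rcases Nat.eq_zero_or_pos n with h | h
  · subst h; simp
  · have hn : (0 : ℝ) < n := by exact_mod_cast h
    rw [div_le_iff₀ hn]
    have := s_le_sq n
    have h2 : (s n : ℝ) ≤ (n : ℝ) ^ 2 := by exact_mod_cast this
    nlinarith

lemma norm_L_le {q : ℂ} (hq : ‖q‖ < 1) : ‖L q‖ ≤ ‖q‖ / (1 - ‖q‖) ^ 2 := by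
  unfold L
  have h1 : ‖(‖q‖ : ℝ)‖ < 1 := by simpa using hq
  rw [← tsum_coe_mul_geometric_of_norm_lt_one h1]
  have hs : Summable fun n : ℕ => (n : ℝ) * ‖q‖ ^ n := by
    have := summable_pow_mul_geometric_of_norm_lt_one 1 h1
    simpa using this
  have hs2 := temp_l.summable_norm hq
  refine (norm_tsum_le_tsum_norm hs2).trans ?_
  refine hs2.tsum_le_tsum (fun n => ?_) hs
  rw [norm_mul, norm_pow]
  exact mul_le_mul_of_nonneg_right (norm_l_le n) (by positivity)

/-- the nome -/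
noncomputable def qq (τ : ℂ) : ℂ := Complex.exp (2 * π * I * τ)

lemma norm_qq (τ : ℂ) : ‖qq τ‖ = Real.exp (-(2 * π * τ.im)) := by
  unfold qq
  rw [Complex.norm_exp]
  congr 1
  simp

lemma norm_qq_lt {τ : ℂ} (h : 0 < τ.im) : ‖qq τ‖ < 1 := by
  rw [norm_qq, Real.exp_lt_one_iff]
  have := Real.pi_pos
  have : 0 < 2 * π * τ.im := by positivity
  linarith

lemma qq_eq_qParam (τ : ℂ) : Function.Periodic.qParam 1 τ = qq τ := by
  unfold qq Function.Periodic.qParam
  simp

lemma hasDerivAt_qq (τ : ℂ) : HasDerivAt qq (2 * π * I * qq τ) τ := by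
  unfold qq
  have := ((hasDerivAt_id τ).const_mul (2 * π * I)).cexp
  simp only [id, mul_one] at this
  rw [mul_comm (2 * π * I) (Complex.exp (2 * π * I * τ))]
  exact this

lemma eta_ratio {τ : ℂ} (h : 0 < τ.im) :
    ModularForm.eta τ = Complex.exp (L (qq τ) - π * I * τ / 6) * ModularForm.eta (3 * τ) := by
  have h3 : 0 < (3 * τ).im := by simp; linarith
  have hq := norm_qq_lt h
  unfold ModularForm.eta
  have h1 : ∀ n : ℕ, ModularForm.eta_q n τ = (qq τ) ^ (n + 1) := fun n => by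
    rw [ModularForm.eta_q, qq_eq_qParam]
  have h2 : ∀ n : ℕ, ModularForm.eta_q n (3 * τ) = ((qq τ) ^ 3) ^ (n + 1) := fun n => by
    rw [ModularForm.eta_q, qq_eq_qParam]
    congr 1
    unfold qq
    rw [← Complex.exp_nat_mul]
    congr 1
    push_cast; ring
  simp only [h1, h2]
  rw [← exp_L_mul hq]
  unfold Function.Periodic.qParam
  have h4 : Complex.exp (2 * π * I * τ / (24 : ℝ)) =
      Complex.exp (-(π * I * τ / 6)) * Complex.exp (2 * π * I * (3 * τ) / (24 : ℝ)) := by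
    rw [← Complex.exp_add]
    congr 1
    push_cast; ring
  rw [h4, sub_eq_add_neg, Complex.exp_add]
  ring

lemma eta_S_sq {z : ℂ} (h : 0 < z.im) : ModularForm.eta (-1 / z) ^ 2 = z / I * ModularForm.eta z ^ 2 := by
  have h1 := ModularForm.eta_comp_eq_csqrt_I_inv h
  simp only [Function.comp, Pi.smul_apply, Pi.mul_apply, smul_eq_mul] at h1
  rw [h1]
  have hz : z ≠ 0 := by rintro rfl; simp at h
  have hs : ∀ w : ℂ, w ≠ 0 → sqrt w ^ 2 = w := by
    intro w hw
    rw [sqrt_eq_exp hw, ← Complex.exp_nat_mul]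
    have : ((2 : ℕ) : ℂ) * (2⁻¹ * log w) = log w := by push_cast; ring
    first
      | (rw [this, Complex.exp_log hw])
      | (rw [show ((2 : ℕ) : ℂ) * (log w / 2) = log w by push_cast; ring, Complex.exp_log hw])
  rw [mul_pow, mul_pow, inv_pow, hs I I_ne_zero, hs z hz]
  field_simp

lemma eta_T {z : ℂ} : ModularForm.eta (z + 1) = Complex.exp (π * I / 12) * ModularForm.eta z := by
  unfold ModularForm.eta
  have h1 : ∀ n : ℕ, ModularForm.eta_q n (z + 1) = ModularForm.eta_q n z := by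
    intro n
    rw [ModularForm.eta_q, ModularForm.eta_q, qq_eq_qParam, qq_eq_qParam]
    congr 1
    unfold qq
    rw [show 2 * (π : ℂ) * I * (z + 1) = 2 * π * I * z + 2 * π * I by ring, Complex.exp_add,
      Complex.exp_two_pi_mul_I, mul_one]
  simp only [h1]
  rw [← mul_assoc]
  congr 1
  unfold Function.Periodic.qParam
  rw [← Complex.exp_add]
  congr 1
  push_cast; ring


lemma qq_add_one (τ : ℂ) : qq (τ + 1) = qq τ := by
  unfold qq
  rw [show 2 * (π : ℂ) * I * (τ + 1) = 2 * π * I * τ + 2 * π * I by ring, Complex.exp_add,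
    Complex.exp_two_pi_mul_I, mul_one]

lemma eta_ne_zero' {z : ℂ} (h : 0 < z.im) : ModularForm.eta z ≠ 0 := ModularForm.eta_ne_zero h

lemma eta_T3 {z : ℂ} : ModularForm.eta (z + 3) = Complex.exp (π * I / 4) * ModularForm.eta z := by
  rw [show z + 3 = z + 1 + 1 + 1 by ring, eta_T, eta_T, eta_T, ← mul_assoc, ← mul_assoc,
    ← Complex.exp_add, ← Complex.exp_add]
  congr 2
  ring

lemma exp_pi_half : Complex.exp (π * I / 4) ^ 2 = I := by
  rw [← Complex.exp_nat_mul]
  rw [show ((2 : ℕ) : ℂ) * (π * I / 4) = π / 2 * I by push_cast; ring, Complex.exp_pi_div_two_mul_I]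

/-- squared transformation of the eta quotient near `1/3` -/
lemma exp_two_D {w : ℂ} (hw : 0 < w.re) :
    Complex.exp (2 * (L (qq (1 / 3 + I * w)) - L (qq (-1 / 3 + I / (9 * w))) + π * I / 18
      + π * w / 6 - π / (54 * w))) = 1 := by
  have hw0 : w ≠ 0 := by rintro rfl; simp at hw
  have hinv : 0 < (w⁻¹).re := by
    rw [Complex.inv_re]; exact div_pos hw (Complex.normSq_pos.2 hw0)
  obtain ⟨u, hu⟩ : ∃ u, u = w⁻¹ := ⟨_, rfl⟩
  rw [← hu] at hinv
  have hu0 : u ≠ 0 := by rw [hu]; exact inv_ne_zero hw0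
  have hwu : w * u = 1 := by rw [hu]; exact mul_inv_cancel₀ hw0
  obtain ⟨τ, hτ⟩ : ∃ τ : ℂ, τ = 1 / 3 + I * w := ⟨_, rfl⟩
  obtain ⟨z0, hz0⟩ : ∃ z0 : ℂ, z0 = -1 / 3 + I * u / 9 := ⟨_, rfl⟩
  have hz0' : (-1 / 3 + I / (9 * w) : ℂ) = z0 := by rw [hz0, hu]; field_simp
  have hIne := I_ne_zero
  have hτim : 0 < τ.im := by rw [hτ]; simp; exact hw
  have hz0im : 0 < z0.im := by
    rw [hz0]; simp; exact hinv
  have hz00 : z0 ≠ 0 := by rintro h; rw [h] at hz0im; simp at hz0im
  have hII : I * I = -1 := Complex.I_mul_I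
  obtain ⟨z1, hz1⟩ : ∃ z1 : ℂ, z1 = -1 / z0 - 3 := ⟨_, rfl⟩
  have hm1 : 0 < (-1 / z0).im := by
    rw [neg_div, one_div, Complex.neg_im, Complex.inv_im]
    have := Complex.normSq_pos.2 hz00
    rw [neg_div, neg_neg]
    positivity
  have hz1im : 0 < z1.im := by rw [hz1]; simpa using hm1
  have hz10 : z1 ≠ 0 := by rintro h; rw [h] at hz1im; simp at hz1im
  have h13 : 1 + 3 * z0 = I * u / 3 := by rw [hz0]; ring
  have hz1z0 : z1 * z0 = -(I * u / 3) := by
    rw [hz1, ← h13]; field_simp; ring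
  have hτz1 : τ = -1 / z1 := by
    have h1 : τ * z1 * z0 = -z0 := by
      rw [mul_assoc, hz1z0, hτ, hz0]
      have : (1 / 3 + I * w) * -(I * u / 3) = -(I * u) / 9 - (I * I) * (w * u) / 3 := by ring
      rw [this, hII, hwu]; ring
    have h2 : τ * z1 = -1 := by
      have h3 : (τ * z1 + 1) * z0 = 0 := by rw [add_mul, h1]; ring
      rcases mul_eq_zero.1 h3 with h | h
      · exact eq_neg_of_add_eq_zero_left h
      · exact absurd h hz00
    rw [eq_div_iff hz10]; exact h2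
  have ea : ModularForm.eta τ ^ 2 = z1 / I * ModularForm.eta z1 ^ 2 := by
    rw [hτz1]; exact eta_S_sq hz1im
  have eb : ModularForm.eta (-1 / z0) ^ 2 = I * ModularForm.eta z1 ^ 2 := by
    have : (-1 / z0 : ℂ) = z1 + 3 := by rw [hz1]; ring
    rw [this, eta_T3, mul_pow, exp_pi_half]
  have ec : ModularForm.eta (-1 / z0) ^ 2 = z0 / I * ModularForm.eta z0 ^ 2 := eta_S_sq hz0im
  have hA : ModularForm.eta τ ^ 2 = u / 3 * ModularForm.eta z0 ^ 2 := by
    have h1 : ModularForm.eta z1 ^ 2 = z0 / (I * I) * ModularForm.eta z0 ^ 2 := by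
      rw [ec] at eb
      field_simp at eb ⊢
      rw [← eb]
    rw [ea, h1]
    have h2 : z1 / I * (z0 / (I * I) * ModularForm.eta z0 ^ 2)
        = (z1 * z0) / (I * I * I) * ModularForm.eta z0 ^ 2 := by field_simp
    rw [h2, hz1z0, hII]
    field_simp
  obtain ⟨z2, hz2⟩ : ∃ z2 : ℂ, z2 = I * u / 3 := ⟨_, rfl⟩
  have hz2im : 0 < z2.im := by
    rw [hz2]; simp; exact hinv
  have hz20 : z2 ≠ 0 := by rintro h; rw [h] at hz2im; simp at hz2im
  have hd : ModularForm.eta (3 * τ) ^ 2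
      = Complex.exp (π * I / 12) ^ 2 * (u / 3 * ModularForm.eta z2 ^ 2) := by
    have h1 : 3 * τ = -1 / z2 + 1 := by
      have h2 : (-1 / z2 : ℂ) = 3 * I * w := by
        rw [div_eq_iff hz20, hz2]
        have : 3 * I * w * (I * u / 3) = (I * I) * (w * u) := by ring
        rw [this, hII, hwu]; ring
      rw [h2, hτ]; ring
    rw [h1, eta_T, mul_pow, eta_S_sq hz2im]
    have h3 : z2 / I = u / 3 := by rw [hz2]; field_simp
    rw [h3]
  have he : ModularForm.eta z2 = Complex.exp (π * I / 12) * ModularForm.eta (3 * z0) := by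
    have h1 : z2 = 3 * z0 + 1 := by rw [hz2, ← h13]; ring
    rw [h1, eta_T]
  have hB : ModularForm.eta (3 * τ) ^ 2
      = Complex.exp (π * I / 3) * (u / 3) * ModularForm.eta (3 * z0) ^ 2 := by
    rw [hd, he, mul_pow]
    have h1 : Complex.exp (π * I / 12) ^ 2 * Complex.exp (π * I / 12) ^ 2
        = Complex.exp (π * I / 3) := by
      rw [← pow_add, ← Complex.exp_nat_mul]
      congr 1
      push_cast; ring
    rw [← h1]; ring
  have r1 := eta_ratio hτim
  have r2 := eta_ratio hz0im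
  have h3z0 : 0 < (3 * z0).im := by simp; linarith
  have hne := eta_ne_zero' h3z0
  rw [r1, mul_pow, hB, r2, mul_pow] at hA
  have hu3 : u / 3 ≠ 0 := div_ne_zero hu0 (by norm_num)
  have hne2 : u / 3 * ModularForm.eta (3 * z0) ^ 2 ≠ 0 := mul_ne_zero hu3 (pow_ne_zero 2 hne)
  have hfin : Complex.exp (L (qq τ) - π * I * τ / 6) ^ 2 * Complex.exp (π * I / 3)
      = Complex.exp (L (qq z0) - π * I * z0 / 6) ^ 2 := by
    apply mul_right_cancel₀ hne2
    calc _ = Complex.exp (L (qq τ) - π * I * τ / 6) ^ 2 *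
          (Complex.exp (π * I / 3) * (u / 3) * ModularForm.eta (3 * z0) ^ 2) := by ring
      _ = _ := hA
      _ = _ := by ring
  rw [← Complex.exp_nat_mul, ← Complex.exp_nat_mul, ← Complex.exp_add] at hfin
  rw [hz0', ← hτ]
  have hkey : 2 * (L (qq τ) - L (qq z0) + π * I / 18 + π * w / 6 - π / (54 * w))
      = (((2 : ℕ) : ℂ) * (L (qq τ) - π * I * τ / 6) + π * I / 3)
        - ((2 : ℕ) : ℂ) * (L (qq z0) - π * I * z0 / 6) := by
    have hu' : (π : ℂ) / (54 * w) = π * u / 54 := by rw [hu]; field_simp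
    rw [hu', hτ, hz0]
    push_cast
    ring_nf
    simp only [Complex.I_sq]
    ring
  rw [hkey, Complex.exp_sub, hfin, div_self (Complex.exp_ne_zero _)]


noncomputable def DD (w : ℂ) : ℂ :=
  L (qq (1 / 3 + I * w)) - L (qq (-1 / 3 + I / (9 * w))) + π * I / 18 + π * w / 6 - π / (54 * w)

lemma im_one {w : ℂ} (hw : 0 < w.re) : 0 < (1 / 3 + I * w).im := by simp; exact hw

lemma im_two_eq (w : ℂ) : (-1 / 3 + I / (9 * w)).im = (w⁻¹).re / 9 := by
  have : (-1 / 3 + I / (9 * w) : ℂ) = -1 / 3 + I * w⁻¹ / 9 := by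
    rw [div_eq_mul_inv I, mul_inv]; ring
  rw [this]; simp

lemma im_two {w : ℂ} (hw : 0 < w.re) : 0 < (-1 / 3 + I / (9 * w)).im := by
  have hw0 : w ≠ 0 := by rintro rfl; simp at hw
  have hinv : 0 < (w⁻¹).re := by
    rw [Complex.inv_re]; exact div_pos hw (Complex.normSq_pos.2 hw0)
  rw [im_two_eq]; positivity

lemma differentiableAt_Lqq {τ : ℂ} (h : 0 < τ.im) : DifferentiableAt ℂ (fun z => L (qq z)) τ :=
  (L_hasDerivAt (norm_qq_lt h)).differentiableAt.comp τ (hasDerivAt_qq τ).differentiableAt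

lemma differentiableAt_DD {w : ℂ} (hw : 0 < w.re) : DifferentiableAt ℂ DD w := by
  have hw0 : w ≠ 0 := by rintro rfl; simp at hw
  unfold DD
  have h1 : DifferentiableAt ℂ (fun w : ℂ => L (qq (1 / 3 + I * w))) w :=
    (differentiableAt_Lqq (im_one hw)).comp w (f := fun w : ℂ => 1 / 3 + I * w) (by fun_prop)
  have h2 : DifferentiableAt ℂ (fun w : ℂ => L (qq (-1 / 3 + I / (9 * w)))) w :=
    (differentiableAt_Lqq (im_two hw)).comp w (f := fun w : ℂ => -1 / 3 + I / (9 * w))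
      ((differentiableAt_const _).add ((differentiableAt_const _).div (by fun_prop)
        (mul_ne_zero (by norm_num) hw0)))
  have h3 : DifferentiableAt ℂ (fun w : ℂ => (π : ℂ) / (54 * w)) w :=
    (differentiableAt_const _).div (by fun_prop) (mul_ne_zero (by norm_num) hw0)
  exact ((((h1.sub h2).add (differentiableAt_const _)).add (by fun_prop)).sub h3)

lemma DD_hasDerivAt_zero {w : ℂ} (hw : 0 < w.re) : HasDerivAt DD 0 w := by
  have h1 := (differentiableAt_DD hw).hasDerivAt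
  have h2 := (h1.const_mul 2).cexp
  have h3 : (fun x => Complex.exp (2 * DD x)) =ᶠ[nhds w] fun _ => (1 : ℂ) := by
    have : {z : ℂ | 0 < z.re} ∈ nhds w := (isOpen_lt continuous_const Complex.continuous_re).mem_nhds hw
    filter_upwards [this] with z hz
    exact exp_two_D hz
  have h4 : HasDerivAt (fun x => Complex.exp (2 * DD x)) 0 w :=
    (hasDerivAt_const w (1 : ℂ)).congr_of_eventuallyEq h3
  have h5 := h2.unique h4
  have h6 : deriv DD w = 0 := by
    have h7 : Complex.exp (2 * DD w) ≠ 0 := Complex.exp_ne_zero _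
    rcases mul_eq_zero.1 h5 with h | h
    · exact absurd h h7
    · rcases mul_eq_zero.1 h with h | h
      · norm_num at h
      · exact h
  rw [h6] at h1
  exact h1

lemma DD_third : DD (1 / 3) = 0 := by
  have hre : (0 : ℝ) < ((1 / 3 : ℂ)).re := by
    norm_num
  have h1 := exp_two_D hre
  have h1' : Complex.exp (2 * DD (1 / 3)) = 1 := h1
  rw [Complex.exp_eq_one_iff] at h1'
  obtain ⟨n, hn⟩ := h1'
  have hn' : DD (1 / 3) = n * (π * I) := by
    have : (2 : ℂ) * DD (1 / 3) = 2 * (n * (π * I)) := by rw [hn]; ring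
    exact mul_left_cancel₀ (by norm_num) this
  -- bound the norm of DD (1/3)
  have e1 : (1 / 3 + I * (1 / 3) : ℂ).im = 1 / 3 := by simp
  have e2 : (-1 / 3 + I / (9 * (1 / 3)) : ℂ).im = 1 / 3 := by
    rw [im_two_eq]; norm_num
  have hpi := Real.pi_gt_d2
  have hpi2 := Real.pi_lt_d2
  have hx : Real.exp (-(2 * π * (1 / 3))) ≤ 1 / 8 := by
    rw [Real.exp_neg, show (1 / 8 : ℝ) = 8⁻¹ by norm_num]
    apply inv_anti₀ (by norm_num : (0 : ℝ) < 8)
    have h2 : Real.log 8 ≤ 2 * π * (1 / 3) := by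
      have : Real.log 8 = 3 * Real.log 2 := by
        rw [show (8 : ℝ) = 2 ^ 3 by norm_num, Real.log_pow]; norm_num
      rw [this]
      have := Real.log_two_lt_d9
      linarith
    calc (8 : ℝ) = Real.exp (Real.log 8) := (Real.exp_log (by norm_num)).symm
      _ ≤ _ := Real.exp_le_exp.2 h2
  have hLb : ∀ τ : ℂ, τ.im = 1 / 3 → ‖L (qq τ)‖ ≤ 8 / 49 := by
    intro τ hτ
    have hlt : ‖qq τ‖ < 1 := norm_qq_lt (by rw [hτ]; norm_num)
    have hle : ‖qq τ‖ ≤ 1 / 8 := by rw [norm_qq, hτ]; exact hx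
    refine (norm_L_le hlt).trans ?_
    rw [div_le_iff₀ (by have : 0 < 1 - ‖qq τ‖ := by linarith
                        positivity)]
    nlinarith [norm_nonneg (qq τ)]
  have b1 := hLb _ e1
  have b2 := hLb _ e2
  have hDnorm : ‖DD (1 / 3)‖ ≤ 8 / 49 + 8 / 49 + π / 18 := by
    have : DD (1 / 3) = L (qq (1 / 3 + I * (1 / 3))) - L (qq (-1 / 3 + I / (9 * (1 / 3))))
        + π * I / 18 := by
      unfold DD; ring
    rw [this]
    have b3 : ‖(π * I / 18 : ℂ)‖ = π / 18 := by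
      rw [norm_div, norm_mul, Complex.norm_I, Complex.norm_real, Real.norm_of_nonneg Real.pi_pos.le]
      norm_num
    calc _ ≤ ‖L (qq (1 / 3 + I * (1 / 3))) - L (qq (-1 / 3 + I / (9 * (1 / 3))))‖
          + ‖(π * I / 18 : ℂ)‖ := norm_add_le _ _
      _ ≤ (‖L (qq (1 / 3 + I * (1 / 3)))‖ + ‖L (qq (-1 / 3 + I / (9 * (1 / 3))))‖)
          + ‖(π * I / 18 : ℂ)‖ := by gcongr; exact norm_sub_le _ _
      _ ≤ _ := by rw [b3]; gcongr
  have hn0 : n = 0 := by
    by_contra hne
    have h1 : (1 : ℝ) ≤ |(n : ℝ)| := by exact_mod_cast Int.one_le_abs hne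
    have h2 : ‖DD (1 / 3)‖ = |(n : ℝ)| * π := by
      rw [hn', norm_mul, norm_mul, Complex.norm_I, Complex.norm_real,
        Real.norm_of_nonneg Real.pi_pos.le, Complex.norm_intCast, mul_one]
    rw [h2] at hDnorm
    nlinarith
  rw [hn', hn0]; simp

/-- exact transformation of the logarithm near the cusp `1/3` -/
lemma star {w : ℂ} (hw : 0 < w.re) : DD w = 0 := by
  have hconv : Convex ℝ {z : ℂ | 0 < z.re} := convex_halfSpace_re_gt 0
  have hopen : IsOpen {z : ℂ | 0 < z.re} := isOpen_lt continuous_const Complex.continuous_re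
  have := hconv.is_const_of_fderivWithin_eq_zero (𝕜 := ℂ) (f := DD)
    (fun z hz => (DD_hasDerivAt_zero hz).differentiableAt.differentiableWithinAt)
    (fun z hz => by
      rw [fderivWithin_of_isOpen hopen hz]
      ext
      simp [(DD_hasDerivAt_zero hz).deriv])
    (show w ∈ {z : ℂ | 0 < z.re} from hw)
    (show (1 / 3 : ℂ) ∈ {z : ℂ | 0 < z.re} by simp)
  rw [this, DD_third]

end Pool.Agent.Lib.MP_067a7d_co
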