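import Pool.Agent.Lib.MP_067a7d_co.Main

namespace Pool.Agent.Lib.MP_067a7d_co

open Complex Finset
open scoped Real

lemma exp_sub_le {a b : ℂ} {M : ℝ} (ha : a.re ≤ M) (hb : b.re ≤ M) :
    ‖Complex.exp a - Complex.exp b‖ ≤ ‖a - b‖ * Real.exp M := by
  have hconv : Convex ℝ {z : ℂ | z.re ≤ M} := convex_halfSpace_re_le M
  have := hconv.norm_image_sub_le_of_norm_hasDerivWithin_le (𝕜 := ℂ) (f := Complex.exp)
    (f' := Complex.exp) (C := Real.exp M)
    (fun x _ => (Complex.hasDerivAt_exp x).hasDerivWithinAt)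
    (fun x hx => by rw [Complex.norm_exp]; exact Real.exp_le_exp.2 hx) hb ha
  rw [mul_comm]
  exact this

lemma norm_L_le' {τ : ℂ} (h : 0 < τ.im) : ‖L (qq τ)‖ ≤ π / (12 * τ.im) := by
  have hq := norm_qq_lt h
  set x : ℝ := ‖qq τ‖ with hx
  have hx0 : 0 < x := by rw [hx, norm_qq]; exact Real.exp_pos _
  let G : ℕ+ × ℕ+ → ℝ := fun p => x ^ ((p.1 : ℕ) * (p.2 : ℕ)) / (p.1 : ℝ)
  have hGs : Summable G := by
    have h0 := summable_prod_mul_pow (𝕜 := ℝ) 0 (r := x) (by simpa [abs_of_pos hx0] using hq)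
    refine Summable.of_nonneg_of_le (fun p => by positivity) (fun p => ?_) h0
    simp only [G, pow_zero, one_mul]
    exact div_le_self (by positivity) (by exact_mod_cast p.1.pos)
  have hF : ‖∑' p, F (qq τ) p‖ ≤ ∑' p, G p := by
    have h1 : Summable fun p => ‖F (qq τ) p‖ := (summable_F hq).norm
    refine (norm_tsum_le_tsum_norm h1).trans ?_
    rw [← (Equiv.prodComm ℕ+ ℕ+).tsum_eq]
    refine Summable.tsum_le_tsum (fun p => ?_) ?_ hGs
    · simp only [G, F, Equiv.prodComm_apply, Prod.fst_swap, Prod.snd_swap]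
      split_ifs
      · simp; positivity
      · rw [norm_div, norm_pow, Complex.norm_natCast, mul_comm (p.2 : ℕ)]
    · exact (Equiv.prodComm ℕ+ ℕ+).summable_iff.2 h1
  rw [tsum_F_L hq, norm_neg] at hF
  refine hF.trans ?_
  rw [hGs.tsum_prod]
  have hin : ∀ k : ℕ+, ∑' m : ℕ+, G (k, m) ≤ 1 / (2 * π * τ.im) * (1 / (k : ℝ) ^ 2) := by
    intro k
    have hk : (0 : ℝ) < k := by exact_mod_cast k.pos
    have hX : x ^ (k : ℕ) < 1 := pow_lt_one₀ hx0.le hq k.ne_zero
    have hX0 : 0 < x ^ (k : ℕ) := by positivity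
    have h1 : ∑' m : ℕ+, G (k, m) = (x ^ (k : ℕ) / (1 - x ^ (k : ℕ))) / k := by
      have h2 := tsum_pnat_eq_tsum_succ (f := fun m : ℕ => (x ^ (k : ℕ)) ^ m / (k : ℝ))
      have h3 : ∀ m : ℕ+, G (k, m) = (x ^ (k : ℕ)) ^ (m : ℕ) / (k : ℝ) := by
        intro m; simp only [G]; rw [pow_mul]
      simp only [h3]
      rw [h2]
      have h4 : ∀ n : ℕ, (x ^ (k : ℕ)) ^ (n + 1) / (k : ℝ) = (x ^ (k : ℕ) / k) * (x ^ (k : ℕ)) ^ n := by
        intro n; rw [pow_succ]; ring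
      simp only [h4]
      rw [tsum_mul_left, tsum_geometric_of_lt_one hX0.le hX]
      have : 1 - x ^ (k : ℕ) ≠ 0 := by linarith
      field_simp
    rw [h1]
    have h5 : x ^ (k : ℕ) = Real.exp (-(2 * π * τ.im * k)) := by
      rw [hx, norm_qq, ← Real.exp_nat_mul]; congr 1; ring
    have h6 : x ^ (k : ℕ) / (1 - x ^ (k : ℕ)) ≤ 1 / (2 * π * τ.im * k) := by
      have hpos : 0 < 2 * π * τ.im * k := by have := Real.pi_pos; positivity
      rw [div_le_div_iff₀ (by linarith) hpos, h5]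
      have h7 := Real.add_one_le_exp (2 * π * τ.im * k)
      have h8 : Real.exp (-(2 * π * τ.im * k)) * Real.exp (2 * π * τ.im * k) = 1 := by
        rw [← Real.exp_add]; simp
      have h9 := Real.exp_pos (-(2 * π * τ.im * k))
      nlinarith
    calc x ^ (k : ℕ) / (1 - x ^ (k : ℕ)) / k ≤ 1 / (2 * π * τ.im * k) / k := by gcongr
      _ = _ := by field_simp
  have hz : HasSum (fun k : ℕ+ => 1 / (k : ℝ) ^ 2) (π ^ 2 / 6) := by
    have h1 := hasSum_zeta_two
    have h2 : Summable fun k : ℕ+ => 1 / (k : ℝ) ^ 2 := by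
      have := h1.summable.comp_injective (i := fun k : ℕ+ => (k : ℕ)) PNat.coe_injective
      exact this
    have h3 := tsum_zero_pnat_eq_tsum_nat (f := fun n : ℕ => 1 / (n : ℝ) ^ 2) h1.summable
    rw [h1.tsum_eq] at h3
    have h4 : ∑' k : ℕ+, 1 / (k : ℝ) ^ 2 = π ^ 2 / 6 := by
      rw [← h3]; simp
    rw [← h4]; exact h2.hasSum
  have hzz := hz.mul_left (1 / (2 * π * τ.im))
  have hGin : Summable fun k : ℕ+ => ∑' m : ℕ+, G (k, m) := hGs.prod
  refine (hGin.tsum_le_tsum hin hzz.summable).trans ?_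
  rw [hzz.tsum_eq]
  apply le_of_eq
  have := Real.pi_pos
  field_simp
  norm_num

end Pool.Agent.Lib.MP_067a7d_co
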