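import Pool.Agent.Lib.MP_067a7d_co.Big
import Pool.Agent.Lib.MP_067a7d_co.V2a

namespace Pool.Agent.Lib.MP_067a7d_co

open Complex Finset
open scoped Real

/-- exponent of the main part on the arc, with phase -/
noncomputable def mm (u : ℝ) (n : ℕ) (y θ : ℝ) : ℂ :=
  -(PH u n * I) + (AA u / (y - I * θ) + BB u n * (y - I * θ))

lemma H_arc' (d : ℝ) (n : ℕ) {y : ℝ} (hy : 0 < y) (θ : ℝ) :
    H d n y (1 / 3 + θ) = Complex.exp (mm d n y θ) * Complex.exp (d * Lp y θ) := by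
  rw [H_arc d n hy θ, mm, Complex.exp_add (-(PH d n * I)) _, mul_assoc]

lemma mm_re (u : ℝ) (n : ℕ) (y θ : ℝ) :
    (mm u n y θ).re = AA u * (((y : ℂ) - I * θ)⁻¹).re + BB u n * y := by
  unfold mm
  rw [Complex.add_re, Complex.add_re, div_eq_mul_inv, Complex.re_ofReal_mul, Complex.re_ofReal_mul]
  simp

lemma mm_sub (d : ℝ) (n : ℕ) {y θ : ℝ} (hy : 0 < y) (hθ : θ ^ 2 ≤ 8 * y ^ 2) (hd3 : d ≤ 3) :
    ‖mm d n y θ - mm 3 n y θ‖ ≤ (3 - d) * (π / 18 + π / (54 * y) + π * (3 * y) / 6) := by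
  have hw := re_w hy θ
  have hw0 : ((y : ℂ) - I * θ) ≠ 0 := by intro h; rw [h] at hw; simp at hw
  have e1 : mm d n y θ - mm 3 n y θ = ((3 - d : ℝ) : ℂ) *
      (π * I / 18 - π / (54 * ((y : ℂ) - I * θ)) + π * ((y : ℂ) - I * θ) / 6) := by
    unfold mm AA BB PH
    generalize (y : ℂ) - I * θ = w at *
    push_cast
    field_simp
    ring
  rw [e1, norm_mul, Complex.norm_real, Real.norm_of_nonneg (by linarith)]
  have hd : 0 ≤ 3 - d := by linarith
  apply mul_le_mul_of_nonneg_left _ hd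
  have hwn : ‖((y : ℂ) - I * θ)‖ ≤ 3 * y := by
    have h1 : Complex.normSq ((y : ℂ) - I * θ) = y ^ 2 + θ ^ 2 := by
      rw [Complex.normSq_apply]; simp; ring
    rw [Complex.normSq_eq_norm_sq] at h1
    refine (pow_le_pow_iff_left₀ (norm_nonneg _) (by positivity) (two_ne_zero)).1 ?_
    rw [h1]; nlinarith
  have hwn2 : y ≤ ‖((y : ℂ) - I * θ)‖ := by
    have h2 : ((y : ℂ) - I * θ).re = y := by simp
    calc y = ((y : ℂ) - I * θ).re := h2.symm
      _ ≤ _ := Complex.re_le_norm _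
  have hpi := Real.pi_pos
  have n1 : ‖(π * I / 18 : ℂ)‖ = π / 18 := by
    rw [norm_div, norm_mul, Complex.norm_I, Complex.norm_real, Real.norm_of_nonneg hpi.le]
    norm_num
  have n2 : ‖(π / (54 * ((y : ℂ) - I * θ)) : ℂ)‖ ≤ π / (54 * y) := by
    rw [norm_div, norm_mul, Complex.norm_real, Real.norm_of_nonneg hpi.le]
    have : ‖(54 : ℂ)‖ = 54 := by norm_num
    rw [this]
    gcongr
  have n3 : ‖(π * ((y : ℂ) - I * θ) / 6 : ℂ)‖ ≤ π * (3 * y) / 6 := by
    rw [norm_div, norm_mul, Complex.norm_real, Real.norm_of_nonneg hpi.le]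
    have : ‖(6 : ℂ)‖ = 6 := by norm_num
    rw [this]
    gcongr
  calc _ ≤ ‖(π * I / 18 - π / (54 * ((y : ℂ) - I * θ)) : ℂ)‖ + ‖(π * ((y : ℂ) - I * θ) / 6 : ℂ)‖ :=
        norm_add_le _ _
    _ ≤ (‖(π * I / 18 : ℂ)‖ + ‖(π / (54 * ((y : ℂ) - I * θ)) : ℂ)‖)
        + ‖(π * ((y : ℂ) - I * θ) / 6 : ℂ)‖ := by gcongr; exact norm_sub_le _ _
    _ ≤ _ := by rw [n1]; gcongr

/-- difference of the remainders -/
noncomputable def WW (d : ℝ) (n : ℕ) (y θ : ℝ) : ℂ :=
  Complex.exp (mm d n y θ) * (Complex.exp (d * Lp y θ) - 1)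
    - Complex.exp (mm 3 n y θ) * (Complex.exp ((3 : ℝ) * Lp y θ) - 1)

lemma WW_bound {d : ℝ} {n : ℕ} {E y : ℝ} (p : Par d n E y) (hd2 : 2 ≤ d) (hE : 12 ≤ E)
    {θ : ℝ} (hθ : θ ^ 2 ≤ 8 * y ^ 2) :
    ‖WW d n y θ‖ ≤ (3 - d) * (8 * E * Real.exp (-(E / 3))) := by
  have hd := p.hd
  have hd3 := p.hd3
  have hE0 := p.E_pos
  have hy := p.y_pos
  have hy2 := p.y_le
  have hpi := Real.pi_gt_d2
  have hpi2 := Real.pi_lt_d2
  have hρ := rho_ge hy hθ
  have hs := exp_small hy hy2 hρ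
  have hL := Lp_bound hy hy2 hθ
  have hmsub := mm_sub d n hy hθ hd3
  have hε : 0 ≤ 3 - d := by linarith
  obtain ⟨ρ, hρd⟩ : ∃ ρ : ℝ, ρ = (((y : ℂ) - I * θ)⁻¹).re := ⟨_, rfl⟩
  rw [← hρd] at hρ hs hL
  have hρ0 : 0 < ρ := lt_of_lt_of_le (by positivity) hρ
  obtain ⟨x, hx⟩ : ∃ x : ℝ, x = Real.exp (-(2 * π / 9 * ρ)) := ⟨_, rfl⟩
  rw [← hx] at hs hL
  have hx0 : 0 < x := by rw [hx]; exact Real.exp_pos _
  -- common bound of the exponents
  obtain ⟨M, hM⟩ : ∃ M : ℝ, M = AA 3 * ρ + E / 6 := ⟨_, rfl⟩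
  have hBy := p.BB_y
  have hmd : (mm d n y θ).re ≤ M := by
    rw [mm_re, ← hρd, hM, hBy]
    have : AA d ≤ AA 3 := by unfold AA; gcongr
    have := mul_le_mul_of_nonneg_right this hρ0.le
    linarith
  have hm3 : (mm 3 n y θ).re ≤ M := by
    rw [mm_re, ← hρd, hM, ← hBy]
    have : BB 3 n ≤ BB d n := by unfold BB; nlinarith
    have := mul_le_mul_of_nonneg_right this hy.le
    linarith
  have hLp : ‖Lp y θ‖ ≤ 1 / 8 := hL.trans (by linarith)
  have g1 : ‖mm d n y θ - mm 3 n y θ‖ ≤ (3 - d) * (0.9 * E) := by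
    refine hmsub.trans ?_
    apply mul_le_mul_of_nonneg_left _ hε
    have h1 : π / (54 * y) = 3 / 2 * (E / d) := by
      rw [p.pi_y 54 (by norm_num)]; field_simp; norm_num
    rw [h1]
    have h2 : E / d ≤ E / 2 := by gcongr
    nlinarith
  have g2 : ‖Complex.exp (mm d n y θ) - Complex.exp (mm 3 n y θ)‖
      ≤ (3 - d) * (0.9 * E) * Real.exp M :=
    (exp_sub_le hmd hm3).trans (by gcongr)
  have g3 : ‖Complex.exp (d * Lp y θ) - 1‖ ≤ 6 * ‖Lp y θ‖ := by
    have hn : ‖(d : ℂ) * Lp y θ‖ ≤ 3 * ‖Lp y θ‖ := by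
      rw [norm_mul, Complex.norm_real, Real.norm_of_nonneg hd.le]; gcongr
    have := Complex.norm_exp_sub_one_le (x := (d : ℂ) * Lp y θ) (hn.trans (by linarith))
    linarith
  have g4 : ‖Complex.exp (d * Lp y θ) - Complex.exp ((3 : ℝ) * Lp y θ)‖
      ≤ (3 - d) * (2 * ‖Lp y θ‖) := by
    have hr : ∀ u : ℝ, 0 ≤ u → u ≤ 3 → ((u : ℂ) * Lp y θ).re ≤ 1 / 2 := by
      intro u hu hu3
      refine (Complex.re_le_norm _).trans ?_
      rw [norm_mul, Complex.norm_real, Real.norm_of_nonneg hu]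
      nlinarith [norm_nonneg (Lp y θ)]
    have h1 := exp_sub_le (hr d hd.le hd3) (hr 3 (by norm_num) le_rfl)
    have h2 : (d : ℂ) * Lp y θ - (3 : ℝ) * Lp y θ = ((d - 3 : ℝ) : ℂ) * Lp y θ := by
      push_cast; ring
    rw [h2, norm_mul, Complex.norm_real, Real.norm_eq_abs, abs_of_nonpos (by linarith)] at h1
    have h3 : Real.exp (1 / 2) ≤ 2 := by
      have h4 := Real.exp_bound_div_one_sub_of_interval (x := 1 / 2) (by norm_num) (by norm_num)
      norm_num at h4 ⊢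
      exact h4
    calc _ ≤ -(d - 3) * ‖Lp y θ‖ * Real.exp (1 / 2) := h1
      _ ≤ -(d - 3) * ‖Lp y θ‖ * 2 := by
          have : 0 ≤ -(d - 3) * ‖Lp y θ‖ := mul_nonneg (by linarith) (norm_nonneg _)
          gcongr
      _ = _ := by ring
  have e1 : WW d n y θ = (Complex.exp (mm d n y θ) - Complex.exp (mm 3 n y θ)) *
      (Complex.exp (d * Lp y θ) - 1)
      + Complex.exp (mm 3 n y θ) * (Complex.exp (d * Lp y θ) - Complex.exp ((3 : ℝ) * Lp y θ)) := by
    unfold WW; ring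
  have hexpM3 : ‖Complex.exp (mm 3 n y θ)‖ ≤ Real.exp M := by
    rw [Complex.norm_exp]; exact Real.exp_le_exp.2 hm3
  have h1 : ‖WW d n y θ‖ ≤ (3 - d) * (5.4 * E + 2) * ‖Lp y θ‖ * Real.exp M := by
    rw [e1]
    calc _ ≤ ‖Complex.exp (mm d n y θ) - Complex.exp (mm 3 n y θ)‖ * ‖Complex.exp (d * Lp y θ) - 1‖
          + ‖Complex.exp (mm 3 n y θ)‖ * ‖Complex.exp (d * Lp y θ) - Complex.exp ((3 : ℝ) * Lp y θ)‖ := by
          refine (norm_add_le _ _).trans ?_
          rw [norm_mul, norm_mul]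
      _ ≤ ((3 - d) * (0.9 * E) * Real.exp M) * (6 * ‖Lp y θ‖)
          + Real.exp M * ((3 - d) * (2 * ‖Lp y θ‖)) := by gcongr
      _ = _ := by ring
  have h2 : x * Real.exp M ≤ Real.exp (-(E / 3)) := by
    rw [hx, hM, ← Real.exp_add]
    apply Real.exp_le_exp.2
    have hA3 : AA 3 = π / 18 := by unfold AA; ring
    rw [hA3]
    have h3 : E / 2 ≤ π / 6 * ρ := by
      have h4 : π / 6 * (1 / (9 * y)) ≤ π / 6 * ρ := by gcongr
      have h5 : π / 6 * (1 / (9 * y)) = π / (54 * y) := by field_simp; norm_num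
      rw [h5, p.pi_y 54 (by norm_num)] at h4
      refine le_trans ?_ h4
      rw [le_div_iff₀ (by positivity)]
      nlinarith
    linarith
  calc ‖WW d n y θ‖ ≤ (3 - d) * (5.4 * E + 2) * ‖Lp y θ‖ * Real.exp M := h1
    _ ≤ (3 - d) * (5.4 * E + 2) * (5 / 4 * x) * Real.exp M := by gcongr
    _ = (3 - d) * ((5.4 * E + 2) * (5 / 4) * (x * Real.exp M)) := by ring
    _ ≤ (3 - d) * ((5.4 * E + 2) * (5 / 4) * Real.exp (-(E / 3))) := by gcongr
    _ ≤ (3 - d) * (8 * E * Real.exp (-(E / 3))) := by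
        apply mul_le_mul_of_nonneg_left _ hε
        apply mul_le_mul_of_nonneg_right _ (Real.exp_pos _).le
        linarith


/-- main estimate, second form (relative to `d = 3`) -/
theorem V2 {d : ℝ} {n : ℕ} {E y : ℝ} (p : Par d n E y) (hd2 : 2 ≤ d) (hE : 12 ≤ E)
    (hc3 : c 3 n = 0) (hcos3 : Real.cos (PH 3 n) = 0) :
    |c d n - 2 * Real.cos (PH d n) * (J (AA d) (BB d n) y).re|
      ≤ (3 - d) * ((27 / 4 * E / d) * Real.exp (3 / 65) * (Real.exp (E / 6 + E / (2 * d))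
          + 9 / 2 * y * Real.exp (E / 6 + 9 * E / (8 * d)))
        + 12 * y * (8 * E * Real.exp (-(E / 3)))) := by
  have hd := p.hd
  have hd3 := p.hd3
  have hE0 := p.E_pos
  have hy := p.y_pos
  have hy2 := p.y_le
  have hpi := Real.pi_pos
  have hε : 0 ≤ 3 - d := by linarith
  have hBy : BB d n * y = E / 6 := p.BB_y
  let K : ℝ → ℂ := fun x => H d n y x - H 3 n y x
  have hKc : Continuous K := (continuous_H d n hy).sub (continuous_H 3 n hy)
  -- general bound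
  have hKb : ∀ x Λ : ℝ, 0 ≤ Λ → (L (qq (x + I * y))).re ≤ Λ →
      ‖K x‖ ≤ (3 - d) * (27 / 4 * E / d) * Real.exp (3 * Λ + 2 * π * n * y) := by
    intro x Λ hΛ hΛL
    simp only [K]
    unfold H
    have hu : ∀ u : ℝ, 0 ≤ u → u ≤ 3 →
        (u * L (qq (x + I * y)) - 2 * π * I * n * (x + I * y)).re ≤ 3 * Λ + 2 * π * n * y := by
      intro u hu hu3
      have h1 : (2 * π * I * n * ((x : ℂ) + I * y) : ℂ)
          = ((2 * π * n : ℝ) : ℂ) * (I * (x + I * y)) := by push_cast; ring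
      rw [Complex.sub_re, h1, Complex.re_ofReal_mul, Complex.re_ofReal_mul]
      have h2 : (I * ((x : ℂ) + I * y)).re = -y := by simp
      rw [h2]
      have h3 : u * (L (qq (x + I * y))).re ≤ 3 * Λ := by
        calc u * (L (qq (x + I * y))).re ≤ u * Λ := by gcongr
          _ ≤ 3 * Λ := by gcongr
      linarith
    have h1 := exp_sub_le (hu d hd.le hd3) (hu 3 (by norm_num) le_rfl)
    have h2 : ((d : ℂ) * L (qq (x + I * y)) - 2 * π * I * n * (x + I * y))
        - ((3 : ℝ) * L (qq (x + I * y)) - 2 * π * I * n * (x + I * y))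
        = ((d - 3 : ℝ) : ℂ) * L (qq (x + I * y)) := by push_cast; ring
    rw [h2, norm_mul, Complex.norm_real, Real.norm_eq_abs, abs_of_nonpos (by linarith)] at h1
    refine h1.trans ?_
    have h3 := norm_L_le' (τ := (x : ℂ) + I * y) (by rw [im_xy]; exact hy)
    rw [im_xy, p.pi_y 12 (by norm_num)] at h3
    have h4 : 81 * E / (12 * d) = 27 / 4 * E / d := by field_simp; norm_num
    rw [h4] at h3
    rw [show -(d - 3) = 3 - d by ring]
    gcongr
  have hM1 : ∀ x : ℝ, 0 ≤ x → x ≤ 1 / 2 → 8 * y ^ 2 ≤ (x - 1 / 3) ^ 2 →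
      5 / 4 * y ^ 2 ≤ (x - 1 / 6) ^ 2 → ‖K x‖ ≤ (3 - d) * (27 / 4 * E / d) *
        (Real.exp (3 / 65) * Real.exp (E / 6 + E / (2 * d))) := by
    intro x hx0 hx1 h1 h2
    have hr := reL_far hx0 hx1 hy hy2 h1 h2
    rw [p.pi_y 486 (by norm_num)] at hr
    have h3 : max (1 / 2 : ℝ) (81 * E / (486 * d)) = E / (6 * d) := by
      rw [max_eq_right]
      · field_simp; norm_num
      · rw [div_le_div_iff₀ (by norm_num) (by positivity)]
        nlinarith [p.hE, p.hd3]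
    rw [h3] at hr
    have hpos : 0 ≤ -(π * y / 6) + 1 / 65 + E / (6 * d) := by
      have h5 : 1 / 2 ≤ E / (6 * d) := by
        rw [div_le_div_iff₀ (by norm_num) (by positivity)]; nlinarith
      have := Real.pi_lt_d2
      nlinarith
    refine (hKb x _ hpos hr).trans ?_
    rw [← Real.exp_add]
    have h4 : 3 * (-(π * y / 6) + 1 / 65 + E / (6 * d)) + 2 * π * n * y
        ≤ 3 / 65 + (E / 6 + E / (2 * d)) := by
      rw [← hBy]; unfold BB
      have h5 : 3 * (E / (6 * d)) = E / (2 * d) := by field_simp; norm_num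
      have h6 : π * y * (3 - d) ≥ 0 := by positivity
      nlinarith
    gcongr
  have hM2 : ∀ x : ℝ, (x - 1 / 6) ^ 2 ≤ 2 * y ^ 2 →
      ‖K x‖ ≤ (3 - d) * (27 / 4 * E / d) *
        (Real.exp (3 / 65) * Real.exp (E / 6 + 9 * E / (8 * d))) := by
    intro x h2
    have hr := reL_near hy hy2 h2
    rw [p.pi_y 216 (by norm_num)] at hr
    have h3 : max (1 / 2 : ℝ) (81 * E / (216 * d)) = 3 * E / (8 * d) := by
      rw [max_eq_right]
      · field_simp; norm_num
      · rw [div_le_div_iff₀ (by norm_num) (by positivity)]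
        nlinarith [p.hE, p.hd3]
    rw [h3] at hr
    have hpos : 0 ≤ -(π * y / 6) + 1 / 65 + 3 * E / (8 * d) := by
      have h5 : 1 / 2 ≤ 3 * E / (8 * d) := by
        rw [div_le_div_iff₀ (by norm_num) (by positivity)]; nlinarith
      have := Real.pi_lt_d2
      nlinarith
    refine (hKb x _ hpos hr).trans ?_
    rw [← Real.exp_add]
    have h4 : 3 * (-(π * y / 6) + 1 / 65 + 3 * E / (8 * d)) + 2 * π * n * y
        ≤ 3 / 65 + (E / 6 + 9 * E / (8 * d)) := by
      rw [← hBy]; unfold BB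
      have h5 : 3 * (3 * E / (8 * d)) = 9 * E / (8 * d) := by field_simp; norm_num
      have h6 : π * y * (3 - d) ≥ 0 := by positivity
      nlinarith
    gcongr
  have hrest := rest_bound hKc hy hy2 (by positivity) hM1 hM2
  have hcoef := coef_half d n hy
  have hcoef3 := coef_half 3 n hy
  rw [hc3] at hcoef3
  have hid : ∀ u v : ℝ, IntervalIntegrable (H d n y) MeasureTheory.volume u v :=
    fun u v => (continuous_H d n hy).intervalIntegrable u v
  have hi3 : ∀ u v : ℝ, IntervalIntegrable (H 3 n y) MeasureTheory.volume u v :=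
    fun u v => (continuous_H 3 n hy).intervalIntegrable u v
  have hT : (∫ x in (0 : ℝ)..(1 / 2), K x)
      = (∫ x in (0 : ℝ)..(1 / 2), H d n y x) - ∫ x in (0 : ℝ)..(1 / 2), H 3 n y x :=
    intervalIntegral.integral_sub (hid _ _) (hi3 _ _)
  have hcT : c d n = 2 * (∫ x in (0 : ℝ)..(1 / 2), K x).re := by
    rw [hT, Complex.sub_re, hcoef]; linarith
  -- main arc
  have harc : ∫ θ in (-(Real.sqrt 8 * y))..(Real.sqrt 8 * y), K (1 / 3 + θ)
      = (Complex.exp (-(PH d n * I)) * J (AA d) (BB d n) y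
        - Complex.exp (-(PH 3 n * I)) * J (AA 3) (BB 3 n) y) +
        ∫ θ in (-(Real.sqrt 8 * y))..(Real.sqrt 8 * y), WW d n y θ := by
    have hcL := continuous_Lp hy
    have hcm1 := continuous_main (AA d) (BB d n) hy
    have hcm3 := continuous_main (AA 3) (BB 3 n) hy
    have hmm : ∀ u : ℝ, (fun θ : ℝ => Complex.exp (mm u n y θ)) = fun θ : ℝ =>
        Complex.exp (-(PH u n * I)) * Complex.exp (AA u / ((y : ℂ) - I * θ) + BB u n * ((y : ℂ) - I * θ)) := by
      intro u; ext θ; rw [mm, Complex.exp_add (-(PH u n * I)) _]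
    have hc1 : Continuous fun θ : ℝ => Complex.exp (mm d n y θ) := by
      rw [hmm]; exact continuous_const.mul hcm1
    have hc3' : Continuous fun θ : ℝ => Complex.exp (mm 3 n y θ) := by
      rw [hmm]; exact continuous_const.mul hcm3
    have hcW : Continuous fun θ : ℝ => WW d n y θ := by
      unfold WW
      exact (hc1.mul ((continuous_const.mul hcL).cexp.sub continuous_const)).sub
        (hc3'.mul ((continuous_const.mul hcL).cexp.sub continuous_const))
    have hq1 : Continuous fun θ : ℝ => Complex.exp (-(PH d n * I)) *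
        Complex.exp (AA d / ((y : ℂ) - I * θ) + BB d n * ((y : ℂ) - I * θ)) :=
      continuous_const.mul hcm1
    have hq3 : Continuous fun θ : ℝ => Complex.exp (-(PH 3 n * I)) *
        Complex.exp (AA 3 / ((y : ℂ) - I * θ) + BB 3 n * ((y : ℂ) - I * θ)) :=
      continuous_const.mul hcm3
    have hq4 : Continuous fun θ : ℝ => Complex.exp (-(PH d n * I)) *
        Complex.exp (AA d / ((y : ℂ) - I * θ) + BB d n * ((y : ℂ) - I * θ)) -
        Complex.exp (-(PH 3 n * I)) *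
        Complex.exp (AA 3 / ((y : ℂ) - I * θ) + BB 3 n * ((y : ℂ) - I * θ)) := hq1.sub hq3
    unfold J
    rw [← intervalIntegral.integral_const_mul, ← intervalIntegral.integral_const_mul,
      ← intervalIntegral.integral_sub (hq1.intervalIntegrable _ _) (hq3.intervalIntegrable _ _),
      ← intervalIntegral.integral_add (hq4.intervalIntegrable _ _) (hcW.intervalIntegrable _ _)]
    apply intervalIntegral.integral_congr
    intro θ _
    simp only [K]
    rw [H_arc' d n hy θ, H_arc' 3 n hy θ]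
    have e1 := congrFun (hmm d) θ
    have e3 := congrFun (hmm 3) θ
    rw [← e1, ← e3]
    unfold WW
    ring
  have hR : ‖∫ θ in (-(Real.sqrt 8 * y))..(Real.sqrt 8 * y), WW d n y θ‖
      ≤ (3 - d) * (8 * E * Real.exp (-(E / 3))) * (29 / 5 * y) := by
    have hs8 : Real.sqrt 8 ≤ 2.9 := by
      rw [Real.sqrt_le_left (by norm_num)]; norm_num
    have hs8' : 0 ≤ Real.sqrt 8 := Real.sqrt_nonneg _
    have hb : ∀ θ ∈ Set.uIoc (-(Real.sqrt 8 * y)) (Real.sqrt 8 * y),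
        ‖WW d n y θ‖ ≤ (3 - d) * (8 * E * Real.exp (-(E / 3))) := by
      intro θ hθ
      rw [Set.uIoc_of_le (by have : 0 ≤ Real.sqrt 8 * y := by positivity
                             linarith)] at hθ
      have hθ2 : θ ^ 2 ≤ 8 * y ^ 2 := by
        have h8 : (Real.sqrt 8 * y) ^ 2 = 8 * y ^ 2 := by
          rw [mul_pow, Real.sq_sqrt (by norm_num)]
        rw [← h8]
        exact sq_le_sq' hθ.1.le hθ.2
      exact WW_bound p hd2 hE hθ2
    have h2 := intervalIntegral.norm_integral_le_of_norm_le_const hb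
    refine h2.trans ?_
    have h3 : |Real.sqrt 8 * y - -(Real.sqrt 8 * y)| ≤ 29 / 5 * y := by
      rw [sub_neg_eq_add, abs_of_nonneg (by positivity)]
      nlinarith
    gcongr
  have hre : ∀ u : ℝ, (Complex.exp (-(PH u n * I)) * J (AA u) (BB u n) y).re
      = Real.cos (PH u n) * (J (AA u) (BB u n) y).re := by
    intro u
    have hJre : J (AA u) (BB u n) y = ((J (AA u) (BB u n) y).re : ℂ) :=
      (Complex.conj_eq_iff_re.1 (J_real _ _ y)).symm
    rw [hJre, Complex.re_mul_ofReal]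
    congr 1
    have : (-(PH u n * I) : ℂ) = ((-PH u n : ℝ) : ℂ) * I := by push_cast; ring
    rw [this, Complex.exp_ofReal_mul_I_re, Real.cos_neg]
  obtain ⟨T, hTd⟩ : ∃ T, T = (∫ x in (0 : ℝ)..(1 / 2), K x) := ⟨_, rfl⟩
  obtain ⟨Z, hZd⟩ : ∃ Z, Z = ∫ θ in (-(Real.sqrt 8 * y))..(Real.sqrt 8 * y), K (1 / 3 + θ) :=
    ⟨_, rfl⟩
  obtain ⟨R, hRd⟩ : ∃ R, R = ∫ θ in (-(Real.sqrt 8 * y))..(Real.sqrt 8 * y), WW d n y θ :=
    ⟨_, rfl⟩
  rw [← hTd, ← hZd] at hrest
  rw [← hTd] at hcT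
  rw [← hZd, ← hRd] at harc
  rw [← hRd] at hR
  have hZre : Z.re = Real.cos (PH d n) * (J (AA d) (BB d n) y).re + R.re := by
    rw [harc, Complex.add_re, Complex.sub_re, hre, hre, hcos3]; ring
  have hdecomp : c d n - 2 * Real.cos (PH d n) * (J (AA d) (BB d n) y).re
      = 2 * (T - Z).re + 2 * R.re := by
    rw [hcT, Complex.sub_re, hZre]; ring
  rw [hdecomp]
  have b1 : |(T - Z).re| ≤ ‖T - Z‖ := Complex.abs_re_le_norm _
  have b2 : |R.re| ≤ ‖R‖ := Complex.abs_re_le_norm _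
  have hXpos : 0 ≤ (3 - d) * (8 * E * Real.exp (-(E / 3))) * y := by positivity
  calc |2 * (T - Z).re + 2 * R.re| ≤ |2 * (T - Z).re| + |2 * R.re| := abs_add_le _ _
    _ = 2 * |(T - Z).re| + 2 * |R.re| := by
        rw [abs_mul, abs_mul]; norm_num
    _ ≤ 2 * ((3 - d) * (27 / 4 * E / d) * (Real.exp (3 / 65) * Real.exp (E / 6 + E / (2 * d))) / 2
        + 9 / 4 * y * ((3 - d) * (27 / 4 * E / d) *
          (Real.exp (3 / 65) * Real.exp (E / 6 + 9 * E / (8 * d)))))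
        + 2 * ((3 - d) * (8 * E * Real.exp (-(E / 3))) * (29 / 5 * y)) := by
        have := b1.trans hrest
        have := b2.trans hR
        linarith
    _ ≤ _ := by nlinarith

end Pool.Agent.Lib.MP_067a7d_co
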